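import Pool.Agent.OnePt.Rare

/-!
# Simple divisors of the ideal of the value
-/

set_option autoImplicit false

open Polynomial NumberField IntermediateField Module Height

namespace Pool.Agent.OnePt

/-- `c` is a product of distinct primes which divide `z` exactly once -/
def Simple {R : Type} [CommRing R] (z c : Ideal R) : Prop :=
  Squarefree c ∧ ∃ w : Ideal R, z = c * w ∧ IsCoprime c w

/-- the part of the squarefree part which is a simple divisor -/
theorem simple_of_od {R : Type} [CommRing R] [IsDedekindDomain R] (z c t : Ideal R)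
    (hc : Squarefree c) (hz : z = c * t ^ 2) : ∃ c₁ : Ideal R, Simple z c₁ ∧
      ∃ g : Ideal R, c = g * c₁ ∧ g ∣ t := by
  have hg : c ⊔ t ∣ c := Ideal.dvd_iff_le.2 le_sup_left
  have hgt : c ⊔ t ∣ t := Ideal.dvd_iff_le.2 le_sup_right
  obtain ⟨c₁, hc₁⟩ := hg
  have hc' : Squarefree ((c ⊔ t) * c₁) := by rwa [← hc₁]
  have h1 : IsRelPrime (c ⊔ t) c₁ := (squarefree_mul_iff.1 hc').1
  have h2 : Squarefree c₁ := (squarefree_mul_iff.1 hc').2.2
  have h3 : IsCoprime c₁ (c ⊔ t) := by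
    rw [Ideal.isCoprime_iff_sup_eq, ← Ideal.isUnit_iff]
    exact h1.symm (Ideal.dvd_iff_le.2 le_sup_left) (Ideal.dvd_iff_le.2 le_sup_right)
  have h4 : IsCoprime c₁ t := by
    rw [Ideal.isCoprime_iff_sup_eq, ← Ideal.isUnit_iff]
    have h5 : c₁ ⊔ t ∣ c₁ := Ideal.dvd_iff_le.2 le_sup_left
    have h6 : c₁ ⊔ t ∣ c ⊔ t := by
      rw [Ideal.dvd_iff_le]
      refine sup_le_sup_right ?_ t
      rw [← Ideal.dvd_iff_le]
      exact ⟨c ⊔ t, by rw [mul_comm]; exact hc₁⟩
    exact h1.symm h5 h6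
  refine ⟨c₁, ⟨h2, (c ⊔ t) * t ^ 2, ?_, ?_⟩, c ⊔ t, hc₁, hgt⟩
  · rw [hz]
    conv_lhs => rw [hc₁]
    ring
  · exact IsCoprime.mul_right h3 (IsCoprime.pow_right h4)

/-- most values of a polynomial of degree at most four have a large simple divisor -/
theorem simple_four (k : Type) [Field k] [NumberField k] (φ : (𝓞 k)[X])
    (hφ : Irreducible (φ.map (algebraMap (𝓞 k) k))) (hn4 : φ.natDegree ≤ 4) (κ : ℝ)
    (hκ : 0 < κ) :
    Rare fun x : k => aeval x (φ.map (algebraMap (𝓞 k) k)) ≠ 0 ∧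
      ¬ ∃ c : Ideal (𝓞 k), Simple (SS.zf φ x) c ∧
        (φ.natDegree - κ) * logHeight₁ x ≤ Real.log (Ideal.absNorm c) := by
  obtain ⟨C, hC, hup⟩ := log_zf_le φ
  have h1 : Rare fun x : k => aeval x (φ.map (algebraMap (𝓞 k) k)) ≠ 0 ∧
      ∃ c : Ideal (𝓞 k), Od (SS.zf φ x) c ∧
        Real.log (Ideal.absNorm c) < (φ.natDegree - κ / 3) * logHeight₁ x :=
    good_four k φ hφ hn4 (κ / 3) (by positivity)
  refine ((rare_small (2 * C / κ)).or h1).mono ?_
  rintro x ⟨hx, hno⟩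
  by_contra hcon
  rw [not_or] at hcon
  obtain ⟨n1, n2⟩ := hcon
  rw [not_le, div_lt_iff₀ hκ] at n1
  have hz0 := zf_ne_bot φ x hx
  obtain ⟨c, hc⟩ := exists_od _ hz0
  have g1 : (φ.natDegree - κ / 3) * logHeight₁ x ≤ Real.log (Ideal.absNorm c) := by
    by_contra g
    exact n2 ⟨hx, c, hc, not_le.1 g⟩
  have hc1 := norm_pos (od_ne_bot hc)
  obtain ⟨hsq, t, ht, hzt⟩ := hc
  obtain ⟨c₁, hc₁, g, hg, hgt⟩ := simple_of_od _ c t hsq hzt
  apply hno
  refine ⟨c₁, hc₁, ?_⟩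
  have ht1 := norm_pos ht
  have hg0 : g ≠ ⊥ := by
    rintro rfl
    exact hsq.ne_zero (by rw [hg]; exact zero_mul _)
  have hc₁0 : c₁ ≠ ⊥ := by
    rintro rfl
    exact hsq.ne_zero (by rw [hg]; exact mul_zero _)
  have hg1 := norm_pos hg0
  have hc₁1 := norm_pos hc₁0
  have e1 : Real.log (Ideal.absNorm (SS.zf φ x)) =
      Real.log (Ideal.absNorm c) + 2 * Real.log (Ideal.absNorm t) := by
    have e : (Ideal.absNorm (SS.zf φ x) : ℝ) =
        (Ideal.absNorm c : ℝ) * (Ideal.absNorm t : ℝ) ^ 2 := by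
      rw [hzt, map_mul, map_pow]
      push_cast
      rfl
    rw [e, Real.log_mul (by positivity) (by positivity), Real.log_pow, Nat.cast_ofNat]
  have e2 : Real.log (Ideal.absNorm c) =
      Real.log (Ideal.absNorm g) + Real.log (Ideal.absNorm c₁) := by
    rw [hg, map_mul, Nat.cast_mul, Real.log_mul (by positivity) (by positivity)]
  have e3 : Real.log (Ideal.absNorm g) ≤ Real.log (Ideal.absNorm t) := by
    refine Real.log_le_log (by positivity) ?_
    have h5 : 0 < Ideal.absNorm t := by exact_mod_cast lt_of_lt_of_le one_pos ht1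
    exact_mod_cast Nat.le_of_dvd h5 (map_dvd Ideal.absNorm hgt)
  have e4 := hup x hx
  nlinarith

end Pool.Agent.OnePt
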