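import Pool.Agent.OnePt.Simple

/-!
# Simple divisors, over the field `k(x)`
-/

set_option autoImplicit false

open Polynomial NumberField IntermediateField Module Height

namespace Pool.Agent.OnePt

section equiv

variable {K L : Type} [Field K] [NumberField K] [Field L] [NumberField L] (e : K ≃+* L)

/-- the denominator ideal and an isomorphism of fields -/
theorem mem_den_equiv (x : K) (b : 𝓞 K) : RingOfIntegers.mapRingEquiv e b ∈
    RefW.denIdealOf (e x) ↔ b ∈ RefW.denIdealOf x := by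
  rw [SS.mem_den, SS.mem_den]
  constructor
  · rintro ⟨t, ht⟩
    refine ⟨(RingOfIntegers.mapRingEquiv e).symm t, ?_⟩
    rw [RingOfIntegers.mapRingEquiv_symm_apply, ht, RingOfIntegers.mapRingEquiv_apply, ← map_mul,
      RingEquiv.symm_apply_apply]
  · rintro ⟨t, ht⟩
    refine ⟨RingOfIntegers.mapRingEquiv e t, ?_⟩
    rw [RingOfIntegers.mapRingEquiv_apply, ht, map_mul, RingOfIntegers.mapRingEquiv_apply]

theorem den_equiv (x : K) : RefW.denIdealOf (e x) =
    (RefW.denIdealOf x).map (RingOfIntegers.mapRingEquiv e : 𝓞 K →+* 𝓞 L) := by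
  ext b
  obtain ⟨a, rfl⟩ := (RingOfIntegers.mapRingEquiv e).surjective b
  rw [mem_den_equiv]
  constructor
  · intro h
    exact Ideal.mem_map_of_mem (RingOfIntegers.mapRingEquiv e : 𝓞 K →+* 𝓞 L) h
  · intro h
    obtain ⟨a', ha', h2⟩ := (Ideal.mem_map_iff_of_surjective
      (RingOfIntegers.mapRingEquiv e : 𝓞 K →+* 𝓞 L)
      (RingOfIntegers.mapRingEquiv e).surjective).1 h
    have h3 : a' = a := (RingOfIntegers.mapRingEquiv e).injective h2
    rwa [← h3]

theorem zid_equiv (y x : K) (n : ℕ) : SS.zid (e y) n (e x) =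
    (SS.zid y n x).map (RingOfIntegers.mapRingEquiv e : 𝓞 K →+* 𝓞 L) := by
  ext b
  obtain ⟨a, rfl⟩ := (RingOfIntegers.mapRingEquiv e).surjective b
  have hmem : ∀ j : 𝓞 K, RingOfIntegers.mapRingEquiv e j ∈ RefW.denIdealOf (e x) ^ n ↔
      j ∈ RefW.denIdealOf x ^ n := by
    intro j
    rw [den_equiv, ← Ideal.map_pow]
    constructor
    · intro h
      obtain ⟨a', ha', h2⟩ := (Ideal.mem_map_iff_of_surjective
        (RingOfIntegers.mapRingEquiv e : 𝓞 K →+* 𝓞 L)
        (RingOfIntegers.mapRingEquiv e).surjective).1 h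
      have h3 : a' = j := (RingOfIntegers.mapRingEquiv e).injective h2
      rwa [← h3]
    · intro h
      exact Ideal.mem_map_of_mem (RingOfIntegers.mapRingEquiv e : 𝓞 K →+* 𝓞 L) h
  constructor
  · rintro ⟨j, hj, hw⟩
    obtain ⟨j', rfl⟩ := (RingOfIntegers.mapRingEquiv e).surjective j
    refine Ideal.mem_map_of_mem (RingOfIntegers.mapRingEquiv e : 𝓞 K →+* 𝓞 L) ?_
    refine ⟨j', (hmem j').1 hj, ?_⟩
    rw [RingOfIntegers.mapRingEquiv_apply, RingOfIntegers.mapRingEquiv_apply, ← map_mul] at hw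
    exact e.injective hw
  · intro h
    obtain ⟨a', ha', h2⟩ := (Ideal.mem_map_iff_of_surjective
      (RingOfIntegers.mapRingEquiv e : 𝓞 K →+* 𝓞 L)
      (RingOfIntegers.mapRingEquiv e).surjective).1 h
    have h3 : a' = a := (RingOfIntegers.mapRingEquiv e).injective h2
    rw [h3] at ha'
    obtain ⟨j, hj, hw⟩ := ha'
    refine ⟨RingOfIntegers.mapRingEquiv e j, (hmem j).2 hj, ?_⟩
    rw [RingOfIntegers.mapRingEquiv_apply, RingOfIntegers.mapRingEquiv_apply, hw, map_mul]

theorem absNorm_equiv (I : Ideal (𝓞 K)) :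
    Ideal.absNorm (I.map (RingOfIntegers.mapRingEquiv e : 𝓞 K →+* 𝓞 L)) = Ideal.absNorm I := by
  rw [Ideal.absNorm_apply, Ideal.absNorm_apply, Submodule.cardQuot_apply,
    Submodule.cardQuot_apply]
  exact Nat.card_congr (Ideal.quotientEquiv I _ (RingOfIntegers.mapRingEquiv e) rfl).toEquiv.symm

theorem squarefree_equiv (I : Ideal (𝓞 K)) (hI : Squarefree I) :
    Squarefree (I.map (RingOfIntegers.mapRingEquiv e : 𝓞 K →+* 𝓞 L)) := by
  intro P hP
  have h1 : ∀ Q : Ideal (𝓞 L), (Q.map ((RingOfIntegers.mapRingEquiv e).symm : 𝓞 L →+* 𝓞 K)).map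
      (RingOfIntegers.mapRingEquiv e : 𝓞 K →+* 𝓞 L) = Q := by
    intro Q
    rw [Ideal.map_map]
    have : ((RingOfIntegers.mapRingEquiv e : 𝓞 K →+* 𝓞 L).comp
      ((RingOfIntegers.mapRingEquiv e).symm : 𝓞 L →+* 𝓞 K)) = RingHom.id _ := by
      ext b
      simp
    rw [this, Ideal.map_id]
  have h2 : (I.map (RingOfIntegers.mapRingEquiv e : 𝓞 K →+* 𝓞 L)).map
      ((RingOfIntegers.mapRingEquiv e).symm : 𝓞 L →+* 𝓞 K) = I := by
    rw [Ideal.map_map]
    have : (((RingOfIntegers.mapRingEquiv e).symm : 𝓞 L →+* 𝓞 K).comp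
      (RingOfIntegers.mapRingEquiv e : 𝓞 K →+* 𝓞 L)) = RingHom.id _ := by
      ext b
      simp
    rw [this, Ideal.map_id]
  obtain ⟨Q, hQ⟩ := hP
  have h3 : P.map ((RingOfIntegers.mapRingEquiv e).symm : 𝓞 L →+* 𝓞 K) *
      P.map ((RingOfIntegers.mapRingEquiv e).symm : 𝓞 L →+* 𝓞 K) ∣ I := by
    refine ⟨Q.map ((RingOfIntegers.mapRingEquiv e).symm : 𝓞 L →+* 𝓞 K), ?_⟩
    rw [← Ideal.map_mul, ← Ideal.map_mul, ← hQ, h2]
  have h4 := hI _ h3
  rw [Ideal.isUnit_iff] at h4 ⊢
  rw [← h1 P, h4, Ideal.map_top]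

theorem simple_equiv (z c : Ideal (𝓞 K)) (h : Simple z c) :
    Simple (z.map (RingOfIntegers.mapRingEquiv e : 𝓞 K →+* 𝓞 L))
      (c.map (RingOfIntegers.mapRingEquiv e : 𝓞 K →+* 𝓞 L)) := by
  obtain ⟨h1, w, h2, h3⟩ := h
  refine ⟨squarefree_equiv e c h1, w.map (RingOfIntegers.mapRingEquiv e : 𝓞 K →+* 𝓞 L), ?_, ?_⟩
  · rw [h2, Ideal.map_mul]
  · rw [Ideal.isCoprime_iff_sup_eq] at h3 ⊢
    rw [← Ideal.map_sup, h3, Ideal.map_top]

end equiv

/-- the field generated by an element of `k` -/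
theorem exists_equiv {k : Type} [Field k] [NumberField k] (x : k) :
    ∃ e : k ≃+* IntermediateField.adjoin k {algebraMap k (AlgebraicClosure k) x},
      ∀ u, e u = algebraMap k _ u := by
  set L := IntermediateField.adjoin k {algebraMap k (AlgebraicClosure k) x} with hL
  have hbij : Function.Bijective (algebraMap k L) := by
    refine ⟨(algebraMap k L).injective, ?_⟩
    have h1 : (⊥ : Subalgebra k L) = ⊤ :=
      Subalgebra.bot_eq_top_of_finrank_eq_one (TW.finrank_of_algebraMap x)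
    intro w
    have h2 : w ∈ (⊥ : Subalgebra k L) := by
      rw [h1]
      trivial
    obtain ⟨u, hu⟩ := h2
    exact ⟨u, hu⟩
  exact ⟨RingEquiv.ofBijective (algebraMap k L) hbij, fun u => rfl⟩

/-- most values of a polynomial of degree at most four at the elements of degree one have a large
simple divisor -/
theorem simple_one (k : Type) [Field k] [NumberField k] (φ : (𝓞 k)[X])
    (hφ : Irreducible (φ.map (algebraMap (𝓞 k) k))) (hn4 : φ.natDegree ≤ 4) (κ : ℝ)
    (hκ : 0 < κ) : ∃ C δ : ℝ, 0 ≤ C ∧ 0 < δ ∧ ∀ T : ℝ, 0 ≤ T →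
      {x : AlgebraicClosure k | finrank k (IntermediateField.adjoin k {x}) = 1 ∧
        AA.height x ≤ T ∧ aeval x (φ.map (algebraMap (𝓞 k) k)) ≠ 0 ∧
        ¬ ∃ c : Ideal (𝓞 (IntermediateField.adjoin k {x})),
          Simple (SS.zid (aeval (AdjoinSimple.gen k x) (φ.map (algebraMap (𝓞 k) k)))
            φ.natDegree (AdjoinSimple.gen k x)) c ∧
          finrank ℚ (IntermediateField.adjoin k {x}) *
            ((φ.natDegree - κ) * AA.height x) ≤ Real.log (Ideal.absNorm c)}.Finite ∧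
      ({x : AlgebraicClosure k | finrank k (IntermediateField.adjoin k {x}) = 1 ∧
        AA.height x ≤ T ∧ aeval x (φ.map (algebraMap (𝓞 k) k)) ≠ 0 ∧
        ¬ ∃ c : Ideal (𝓞 (IntermediateField.adjoin k {x})),
          Simple (SS.zid (aeval (AdjoinSimple.gen k x) (φ.map (algebraMap (𝓞 k) k)))
            φ.natDegree (AdjoinSimple.gen k x)) c ∧
          finrank ℚ (IntermediateField.adjoin k {x}) *
            ((φ.natDegree - κ) * AA.height x) ≤ Real.log (Ideal.absNorm c)}.ncard : ℝ) ≤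
        C * Real.exp (((1 : ℕ) + 1 - δ) * (finrank ℚ k * (1 : ℕ)) * T) := by
  obtain ⟨C, δ, hC, hδ, h⟩ := simple_four k φ hφ hn4 κ hκ
  refine ⟨C, δ, hC, hδ, fun T hT => ?_⟩
  have hd0 : (0 : ℝ) < finrank ℚ k := Nat.cast_pos.2 finrank_pos
  have h1 := h (finrank ℚ k * T) (by positivity)
  set R : Set k := {x : k | logHeight₁ x ≤ finrank ℚ k * T ∧
    aeval x (φ.map (algebraMap (𝓞 k) k)) ≠ 0 ∧
      ¬ ∃ c : Ideal (𝓞 k), Simple (SS.zf φ x) c ∧
        (φ.natDegree - κ) * logHeight₁ x ≤ Real.log (Ideal.absNorm c)} with hR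
  have hRf : R.Finite := (finite_k _).subset fun _ hx => hx.1
  set Q := {x : AlgebraicClosure k | finrank k (IntermediateField.adjoin k {x}) = 1 ∧
        AA.height x ≤ T ∧ aeval x (φ.map (algebraMap (𝓞 k) k)) ≠ 0 ∧
        ¬ ∃ c : Ideal (𝓞 (IntermediateField.adjoin k {x})),
          Simple (SS.zid (aeval (AdjoinSimple.gen k x) (φ.map (algebraMap (𝓞 k) k)))
            φ.natDegree (AdjoinSimple.gen k x)) c ∧
          finrank ℚ (IntermediateField.adjoin k {x}) *
            ((φ.natDegree - κ) * AA.height x) ≤ Real.log (Ideal.absNorm c)} with hQ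
  have hsub : Q ⊆ algebraMap k (AlgebraicClosure k) '' R := by
    rintro z ⟨g1, g2, g3, g4⟩
    obtain ⟨x, rfl⟩ := TW.exists_of_finrank_one z g1
    refine ⟨x, ⟨?_, ?_, ?_⟩, rfl⟩
    · rw [← height_k x]
      exact mul_le_mul_of_nonneg_left g2 hd0.le
    · intro h0
      apply g3
      rw [aeval_algebraMap_apply, h0, map_zero]
    · rintro ⟨c, hc1, hc2⟩
      apply g4
      obtain ⟨e, he⟩ := exists_equiv x
      let L := IntermediateField.adjoin k {algebraMap k (AlgebraicClosure k) x}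
      have hgen : AdjoinSimple.gen k (algebraMap k (AlgebraicClosure k) x) = e x := by
        rw [he]
        apply Subtype.ext
        rw [IntermediateField.AdjoinSimple.coe_gen]
        rfl
      have hval : aeval (e x) (φ.map (algebraMap (𝓞 k) k)) =
          e (aeval x (φ.map (algebraMap (𝓞 k) k))) := by
        rw [he, he, aeval_algebraMap_apply]
      refine ⟨c.map (RingOfIntegers.mapRingEquiv e : 𝓞 k →+* 𝓞 L), ?_, ?_⟩
      · rw [hgen, hval, zid_equiv]
        exact simple_equiv e _ c hc1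
      · rw [absNorm_equiv]
        have hfr : finrank ℚ L = finrank ℚ k := by
          have := finrank_mul_finrank ℚ k L
          rw [TW.finrank_of_algebraMap x, mul_one] at this
          exact this.symm
        rw [hfr]
        have := height_k x
        calc (finrank ℚ k : ℝ) * ((φ.natDegree - κ) *
              AA.height (algebraMap k (AlgebraicClosure k) x)) =
            (φ.natDegree - κ) * (finrank ℚ k *
              AA.height (algebraMap k (AlgebraicClosure k) x)) := by ring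
          _ = (φ.natDegree - κ) * logHeight₁ x := by rw [this]
          _ ≤ _ := hc2
  refine ⟨(hRf.image _).subset hsub, ?_⟩
  have e1 : (Q.ncard : ℝ) ≤ R.ncard := (Nat.cast_le (α := ℝ)).2
    ((Set.ncard_le_ncard hsub (hRf.image _)).trans (Set.ncard_image_le hRf))
  have e2 : (((1 : ℕ) : ℝ) + 1 - δ) * (finrank ℚ k * ((1 : ℕ) : ℝ)) * T =
      (2 - δ) * (finrank ℚ k * T) := by
    push_cast
    ring
  rw [e2]
  exact e1.trans h1

end Pool.Agent.OnePt
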