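import Pool.Agent.OnePt.Simple

/-!
# A simple divisor from the norm
-/

set_option autoImplicit false

open Polynomial NumberField Module

namespace Pool.Agent.OnePt

/-- the prime numbers which divide the norm exactly once give a simple divisor -/
theorem simple_of_norm {L : Type} [Field L] [NumberField L] (z : Ideal (𝓞 L)) :
    ∃ c : Ideal (𝓞 L), Simple z c ∧ Ideal.absNorm c = SS.sq (Ideal.absNorm z) := by
  classical
  set N := Ideal.absNorm z with hN
  set S : Finset ℕ := N.primeFactors.filter (fun p => N.factorization p = 1) with hS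
  have hex : ∀ p : ℕ, ∃ q : Ideal (𝓞 L), p ∈ S → q.IsMaximal ∧ z ≤ q ∧ Ideal.absNorm q = p ∧
      ¬ z ≤ q ^ 2 := by
    intro p
    by_cases hp : p ∈ S
    · obtain ⟨h1, h2⟩ := Finset.mem_filter.1 hp
      have hpp := Nat.mem_primeFactors.1 h1
      obtain ⟨q, hqp, hzq, hqn, hzq2⟩ := SS.exists_prime_of_norm z p hpp.1 hpp.2.1 (by
        intro h
        have := (hpp.1.pow_dvd_iff_le_factorization hpp.2.2).1 h
        omega)
      have hq0 : q ≠ ⊥ := by
        rintro rfl
        rw [Ideal.absNorm_bot] at hqn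
        exact hpp.1.ne_zero hqn.symm
      exact ⟨q, fun _ => ⟨hqp.isMaximal hq0, hzq, hqn, hzq2⟩⟩
    · exact ⟨⊥, fun h => absurd h hp⟩
  choose q hq using hex
  have hcop : ∀ p ∈ S, ∀ p' ∈ S, p ≠ p' → IsCoprime (q p) (q p') := by
    intro p hp p' hp' hne
    rw [Ideal.isCoprime_iff_sup_eq]
    refine (hq p hp).1.coprime_of_ne (hq p' hp').1 fun h => hne ?_
    rw [← (hq p hp).2.2.1, ← (hq p' hp').2.2.1, h]
  set c : Ideal (𝓞 L) := ∏ p ∈ S, q p with hc
  have hdvd : c ∣ z := by
    refine Finset.prod_dvd_of_coprime (fun p hp p' hp' hne => hcop p hp p' hp' hne) fun p hp => ?_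
    exact Ideal.dvd_iff_le.2 (hq p hp).2.1
  obtain ⟨w, hw⟩ := hdvd
  refine ⟨c, ⟨?_, w, hw, ?_⟩, ?_⟩
  · rw [hc]
    refine Finset.squarefree_prod_of_pairwise_isCoprime
      (fun p hp p' hp' hne => (hcop p hp p' hp' hne).isRelPrime) fun p hp => ?_
    have hp1 := hq p hp
    have h0 : q p ≠ ⊥ := by
      intro h
      have h1 := hp1.2.2.1
      rw [h, Ideal.absNorm_bot] at h1
      exact (Nat.mem_primeFactors.1 (Finset.mem_filter.1 hp).1).1.ne_zero h1.symm
    exact (Ideal.prime_of_isPrime h0 hp1.1.isPrime).squarefree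
  · refine IsCoprime.prod_left fun p hp => ?_
    obtain ⟨h1, h2, h3, h4⟩ := hq p hp
    rw [Ideal.isCoprime_iff_sup_eq]
    refine h1.1.2 _ (lt_of_le_of_ne le_sup_left fun h => h4 ?_)
    have h5 : w ≤ q p := by
      rw [h]
      exact le_sup_right
    rw [hw, pow_two]
    refine Ideal.mul_mono ?_ h5
    exact Ideal.dvd_iff_le.1 (Finset.dvd_prod_of_mem q hp)
  · rw [hc, map_prod, Finset.prod_congr rfl fun p hp => (hq p hp).2.2.1]
    rfl

end Pool.Agent.OnePt
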