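import Pool.Agent.SFD.Gen

/-!
# Integral models
-/

set_option autoImplicit false

open Polynomial NumberField IntermediateField Module

namespace Pool.Agent.OnePt

/-- an integral model of the curve, with the factor `f₂` in the first place -/
theorem exists_model_zero {k : Type} [Field k] [NumberField k] (f₁ f₂ : k[X])
    (hf : Squarefree (f₁ * f₂)) (D N : ℕ) (hN : 1 ≤ N)
    (hD : ∀ g : k[X], Irreducible g → g ∣ f₁ → g.natDegree ≤ D) :
    ∃ (r : ℕ) (fs : Fin (r + 1) → (𝓞 k)[X]) (β : 𝓞 k), β ≠ 0 ∧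
      (∀ i, i ≠ 0 → Irreducible ((fs i).map (algebraMap (𝓞 k) k)) ∧ (fs i).natDegree ≤ D) ∧
      (fs 0).natDegree = f₂.natDegree ∧
      (∏ i, fs i).map (algebraMap (𝓞 k) k) = C ((β : k) ^ N) * (f₁ * f₂) := by
  classical
  have hinj : Function.Injective (algebraMap (𝓞 k) k) := RingOfIntegers.coe_injective
  have hf₁ : f₁ ≠ 0 := left_ne_zero_of_mul hf.ne_zero
  have hf₂ : f₂ ≠ 0 := right_ne_zero_of_mul hf.ne_zero
  have hc0 : ∀ b : 𝓞 k, b ≠ 0 → (b : k) ≠ 0 := fun b hb h0 => hb (RingOfIntegers.ext h0)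
  obtain ⟨r, fs, b, hb, hfs, hprod⟩ := SFD.exists_facs D
    (UniqueFactorizationMonoid.normalizedFactors f₁) (fun g hg =>
      ⟨UniqueFactorizationMonoid.irreducible_of_normalized_factor g hg,
        hD g (UniqueFactorizationMonoid.irreducible_of_normalized_factor g hg)
          (UniqueFactorizationMonoid.dvd_of_mem_normalizedFactors hg)⟩)
  obtain ⟨c, hc⟩ := (UniqueFactorizationMonoid.prod_normalizedFactors hf₁).symm
  -- `f₁ * c = prod`
  obtain ⟨b₂, F₂, hb₂, hF₂⟩ := SFD.exists_int f₂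
  obtain ⟨γ, hγ, hγc⟩ := isUnit_iff.1 c.isUnit
  have hγ0 : γ ≠ 0 := hγ.ne_zero
  obtain ⟨c₁, c₂, hc₂, hcc⟩ := IsFractionRing.div_surjective (𝓞 k) γ
  have hc₂0 : c₂ ≠ 0 := nonZeroDivisors.ne_zero hc₂
  have hc₂k := hc0 c₂ hc₂0
  have hc₁k : (c₁ : k) ≠ 0 := by
    intro h
    apply hγ0
    rw [← hcc]
    change (c₁ : k) / (c₂ : k) = 0
    rw [h, zero_div]
  have hc₁0 : c₁ ≠ 0 := by
    rintro rfl
    exact hc₁k rfl
  have hγ' : γ * (c₂ : k) = (c₁ : k) := by
    rw [← hcc]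
    exact div_mul_cancel₀ _ hc₂k
  -- the constants
  have hprod' : (∏ i, fs i).map (algebraMap (𝓞 k) k) = C ((b : k) * γ) * f₁ := by
    rw [hprod, ← hc, ← hγc, C_mul]
    ring
  set u : 𝓞 k := (b * b₂ * c₁) ^ (N - 1) * c₂ ^ (N + 1) with hu
  have hu0 : (u : k) = ((b : k) * b₂ * c₁) ^ (N - 1) * (c₂ : k) ^ (N + 1) := by
    rw [hu]
    change algebraMap (𝓞 k) k _ = _
    rw [map_mul, map_pow, map_pow, map_mul, map_mul]
  have hu0' : (u : k) ≠ 0 := by
    rw [hu0]
    exact mul_ne_zero (pow_ne_zero _ (mul_ne_zero (mul_ne_zero (hc0 b hb) (hc0 b₂ hb₂)) hc₁k))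
      (pow_ne_zero _ hc₂k)
  refine ⟨r, Fin.cons (C u * F₂) fs, b * b₂ * c₁ * c₂, ?_, ?_, ?_, ?_⟩
  · exact mul_ne_zero (mul_ne_zero (mul_ne_zero hb hb₂) hc₁0) hc₂0
  · intro i hi
    obtain ⟨j, rfl⟩ := Fin.exists_succ_eq.2 hi
    rw [Fin.cons_succ]
    exact hfs j
  · rw [Fin.cons_zero, ← natDegree_map_eq_of_injective hinj, Polynomial.map_mul, map_C, hF₂,
      natDegree_C_mul, natDegree_C_mul (hc0 b₂ hb₂)]
    exact hu0'
  · rw [Fin.prod_univ_succ, Fin.cons_zero]
    simp only [Fin.cons_succ]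
    rw [Polynomial.map_mul, Polynomial.map_mul, hprod', hF₂, map_C]
    have h1 : algebraMap (𝓞 k) k u = ((b : k) * b₂ * c₁) ^ (N - 1) * (c₂ : k) ^ (N + 1) := hu0
    have h2 : ((b * b₂ * c₁ * c₂ : 𝓞 k) : k) = (b : k) * b₂ * c₁ * c₂ := by
      change algebraMap (𝓞 k) k _ = _
      rw [map_mul, map_mul, map_mul]
    rw [h1, h2]
    have h3 : ((b : k) * b₂ * c₁) ^ (N - 1) * (c₂ : k) ^ (N + 1) * b₂ * ((b : k) * γ) =
        ((b : k) * b₂ * c₁ * c₂) ^ N := by
      obtain ⟨n, rfl⟩ : ∃ n, N = n + 1 := ⟨N - 1, by omega⟩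
      rw [Nat.add_sub_cancel, ← hγ']
      ring
    calc C (((b : k) * b₂ * c₁) ^ (N - 1) * (c₂ : k) ^ (N + 1)) * (C (b₂ : k) * f₂) *
          (C ((b : k) * γ) * f₁) =
        C (((b : k) * b₂ * c₁) ^ (N - 1) * (c₂ : k) ^ (N + 1) * b₂ * ((b : k) * γ)) *
          (f₁ * f₂) := by
          simp only [C_mul]
          ring
      _ = _ := by rw [h3]

/-- the points of a curve with a multiple of the polynomial -/
theorem cov_scale (k : Type) [Field k] [NumberField k] (f f' : k[X]) (N m : ℕ) (β : k)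
    (hβ : β ≠ 0) (hff : f' = C (β ^ N) * f) (T A B : ℝ)
    (h1 : {P ∈ SFD.Cov k f' N m T | HD.logDiscr P ≤ A * AA.height P.1 + B}.Finite) :
    {P ∈ SFD.Cov k f N m T | HD.logDiscr P ≤ A * AA.height P.1 + B}.Finite ∧
    ({P ∈ SFD.Cov k f N m T | HD.logDiscr P ≤ A * AA.height P.1 + B}.ncard : ℝ) ≤
      {P ∈ SFD.Cov k f' N m T | HD.logDiscr P ≤ A * AA.height P.1 + B}.ncard := by
  set V := {P ∈ SFD.Cov k f N m T | HD.logDiscr P ≤ A * AA.height P.1 + B} with hV
  set V' := {P ∈ SFD.Cov k f' N m T | HD.logDiscr P ≤ A * AA.height P.1 + B} with hV'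
  set b : AlgebraicClosure k := algebraMap k (AlgebraicClosure k) β with hb
  have hb0 : b ≠ 0 := (_root_.map_ne_zero _).2 hβ
  let F : AlgebraicClosure k × AlgebraicClosure k → AlgebraicClosure k × AlgebraicClosure k :=
    fun P => (P.1, b * P.2)
  have hF : Set.InjOn F V := by
    rintro ⟨x, y⟩ _ ⟨x', y'⟩ _ h3
    have e1 : x = x' := congrArg Prod.fst h3
    have e2 : b * y = b * y' := congrArg Prod.snd h3
    rw [e1, mul_left_cancel₀ hb0 e2]
  have hmaps : Set.MapsTo F V V' := by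
    rintro P ⟨⟨p1, p2, p3⟩, p4⟩
    refine ⟨⟨?_, p2, p3⟩, ?_⟩
    · show (b * P.2) ^ N = aeval P.1 f'
      rw [hff, mul_pow, p1, map_mul (aeval P.1) (C (β ^ N)), aeval_C, map_pow]
    · have hle : IntermediateField.adjoin k {P.1, b * P.2} ≤
          IntermediateField.adjoin k {P.1, P.2} := by
        rw [IntermediateField.adjoin_le_iff]
        intro z hz
        have hx : P.1 ∈ IntermediateField.adjoin k {P.1, P.2} :=
          IntermediateField.subset_adjoin k _ (by simp)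
        have hy : P.2 ∈ IntermediateField.adjoin k {P.1, P.2} :=
          IntermediateField.subset_adjoin k _ (by simp)
        rcases hz with hz | hz
        · rw [hz]
          exact hx
        · rw [Set.mem_singleton_iff.1 hz]
          exact mul_mem (IntermediateField.algebraMap_mem _ _) hy
      let : Algebra (IntermediateField.adjoin k {P.1, b * P.2})
          (IntermediateField.adjoin k {P.1, P.2}) :=
        (IntermediateField.inclusion hle).toRingHom.toAlgebra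
      have h3 : HD.logDiscr (F P) ≤ HD.logDiscr P := HD.logDisc_le_of_algebra
        (IntermediateField.adjoin k {P.1, b * P.2}) (IntermediateField.adjoin k {P.1, P.2})
      exact h3.trans p4
  exact ⟨Set.Finite.of_injOn hmaps hF h1,
    Nat.cast_le.2 (Set.ncard_le_ncard_of_injOn F hmaps hF h1)⟩

end Pool.Agent.OnePt
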