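import Pool.Agent.OnePt.Viol
import Pool.Agent.OnePt.Model

/-!
# The points over `P^1(k)` of a hyperelliptic curve: final form
-/

set_option autoImplicit false

open Polynomial NumberField Module Height

namespace Pool.Agent.OnePt

/-- the condition on the polynomial: the irreducible factors of `f₁` have degree at most four, and
either the bound is only by `f₁`, or `f₂` has degree five or six -/
def Cond {k : Type} [Field k] (f₁ f₂ : k[X]) (A : ℝ) : Prop :=
  2 * A < f₁.natDegree ∨ ((f₂.natDegree = 5 ∨ f₂.natDegree = 6) ∧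
    A < ((((f₁ * f₂).natDegree - 1) / 2 : ℕ) : ℝ) - 1)

/-- **The number of points over `P^1(k)` with a small discriminant.** -/
theorem viol_one (k : Type) [Field k] [NumberField k] (f₁ f₂ : k[X])
    (hf : Squarefree (f₁ * f₂)) (hD : ∀ g : k[X], Irreducible g → g ∣ f₁ → g.natDegree ≤ 4)
    (A B : ℝ) (hA : Cond f₁ f₂ A) :
    ∃ C δ : ℝ, 0 < δ ∧ ∀ T : ℝ, 0 ≤ T →
      {P ∈ SFD.Cov k (f₁ * f₂) 2 1 T | HD.logDiscr P ≤ A * AA.height P.1 + B}.Finite ∧
      ({P ∈ SFD.Cov k (f₁ * f₂) 2 1 T | HD.logDiscr P ≤ A * AA.height P.1 + B}.ncard : ℝ) ≤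
        C * Real.exp ((2 - δ) * finrank ℚ k * T) := by
  classical
  obtain ⟨r, fs, β, hβ, hfs, hfs0, hprod⟩ := exists_model_zero f₁ f₂ hf 4 2 one_le_two hD
  have hβk : (β : k) ≠ 0 := fun h0 => hβ (RingOfIntegers.ext h0)
  have hinj : Function.Injective (algebraMap (𝓞 k) k) := RingOfIntegers.coe_injective
  have hsq : Squarefree ((∏ i, fs i).map (algebraMap (𝓞 k) k)) := by
    rw [hprod]
    have hu : IsUnit (C ((β : k) ^ 2)) := isUnit_C.2 (isUnit_iff_ne_zero.2 (pow_ne_zero _ hβk))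
    refine Squarefree.squarefree_of_dvd ?_ hf
    obtain ⟨c, hc⟩ := hu
    exact ⟨(c⁻¹ : k[X]ˣ), by rw [← hc]; rw [mul_comm (c : k[X]), mul_assoc, Units.mul_inv, mul_one]⟩
  have hdeg : (∏ i, fs i).natDegree = (f₁ * f₂).natDegree := by
    rw [← natDegree_map_eq_of_injective hinj, hprod, natDegree_C_mul (pow_ne_zero _ hβk)]
  have hE : ∃ E : ℝ, 2 * A < E ∧ ∀ κ : ℝ, 0 < κ → Rare fun x : k =>
      aeval x ((∏ i, fs i).map (algebraMap (𝓞 k) k)) ≠ 0 ∧
      ∃ c : Ideal (𝓞 k), SqPart (∏ i, fs i) x c ∧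
        Real.log (Ideal.absNorm c) < (E - κ) * logHeight₁ x := by
    rcases hA with h | ⟨h56, h⟩
    · refine ⟨f₁.natDegree, h, fun κ hκ => ?_⟩
      have h1 := x_all k fs hsq (Finset.univ.erase 0)
        (fun i hi => hfs i (Finset.ne_of_mem_erase hi)) κ hκ
      have h2 : ∑ i ∈ Finset.univ.erase 0, ((fs i).natDegree : ℝ) = f₁.natDegree := by
        have hne : ∀ i, fs i ≠ 0 := by
          intro i h
          apply hsq.ne_zero
          rw [Finset.prod_eq_zero (Finset.mem_univ i) h, Polynomial.map_zero]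
        have h3 : (∏ i, fs i).natDegree = (fs 0).natDegree +
            ∑ i ∈ Finset.univ.erase 0, (fs i).natDegree := by
          rw [natDegree_prod _ _ fun i _ => hne i]
          exact (Finset.add_sum_erase Finset.univ (fun i => (fs i).natDegree)
            (Finset.mem_univ 0)).symm
        rw [hdeg, natDegree_mul (left_ne_zero_of_mul hf.ne_zero)
          (right_ne_zero_of_mul hf.ne_zero), hfs0] at h3
        have h4 : f₁.natDegree = ∑ i ∈ Finset.univ.erase 0, (fs i).natDegree := by omega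
        exact_mod_cast h4.symm
      rw [h2] at h1
      exact h1
    · refine ⟨2 * ((((∏ i, fs i).natDegree - 1) / 2 : ℕ) : ℝ) - 2, ?_, fun κ hκ => ?_⟩
      · rw [hdeg]
        linarith
      · exact x_exc k fs hsq 0 hfs (by rw [hfs0]; exact h56) κ hκ
  obtain ⟨E, hE1, hE2⟩ := hE
  obtain ⟨C, δ, hδ, h⟩ := viol_of_rare k (∏ i, fs i) hsq.ne_zero E hE2 A B hE1
  refine ⟨C, δ, hδ, fun T hT => ?_⟩
  obtain ⟨g1, g2⟩ := h T hT
  obtain ⟨g3, g4⟩ := cov_scale k (f₁ * f₂) _ 2 1 (β : k) hβk hprod T A B g1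
  exact ⟨g3, g4.trans g2⟩

/-- **The height inequality for almost all points over `P^1(k)`.** -/
theorem q1_one (k : Type) [Field k] [NumberField k] {r : ℕ} (p : Fin r → ℕ)
    [∀ t, Fact (p t).Prime] (hp : Function.Injective p) (g : k[X]) (hg : Squarefree g) (q : ℕ)
    (hq : q = g.natDegree ∨ q = g.natDegree + 1) (f₁ f₂ : k[X]) (hf : Squarefree (f₁ * f₂))
    (hD : ∀ g : k[X], Irreducible g → g ∣ f₁ → g.natDegree ≤ 4) (A ε : ℝ)
    (hA : Cond f₁ f₂ (A - ε)) :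
    ∃ C δ : ℝ, 0 < δ ∧ ∀ T : ℝ, 0 ≤ T →
      {P ∈ SFD.Cov k (f₁ * f₂) 2 1 T | aeval P.1 g ≠ 0 ∧
        HD.logDiscr P + ε * AA.height P.1 <
          AA.proximity p g q P.1 + A * AA.height P.1}.Finite ∧
      ({P ∈ SFD.Cov k (f₁ * f₂) 2 1 T | aeval P.1 g ≠ 0 ∧
        HD.logDiscr P + ε * AA.height P.1 <
          AA.proximity p g q P.1 + A * AA.height P.1}.ncard : ℝ) ≤
        C * Real.exp ((2 - δ) * finrank ℚ k * T) := by
  classical
  -- a small `a`
  have ha : ∃ a : ℝ, 0 < a ∧ a ≤ 1 ∧ Cond f₁ f₂ (A - ε + a) := by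
    rcases hA with h | ⟨h56, h⟩
    · refine ⟨min 1 ((f₁.natDegree - 2 * (A - ε)) / 4), lt_min one_pos (by linarith),
        min_le_left _ _, Or.inl ?_⟩
      have := min_le_right 1 ((f₁.natDegree - 2 * (A - ε)) / 4)
      linarith
    · set u : ℝ := ((((f₁ * f₂).natDegree - 1) / 2 : ℕ) : ℝ) - 1 with hu
      refine ⟨min 1 ((u - (A - ε)) / 2), lt_min one_pos (by linarith),
        min_le_left _ _, Or.inr ⟨h56, ?_⟩⟩
      have := min_le_right 1 ((u - (A - ε)) / 2)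
      rw [← hu]
      linarith
  obtain ⟨a, ha0, ha1, hA'⟩ := ha
  set d : ℝ := (finrank ℚ k : ℝ) with hd
  have hd0 : 0 < d := Nat.cast_pos.2 finrank_pos
  obtain ⟨C₁, δ₁, hδ₁, h₁⟩ := viol_one k f₁ f₂ hf hD (A - ε + a) 0 hA'
  obtain ⟨C₂, h₂⟩ := TW.near_all_one k p hp g hg q hq 1 le_rfl a (a / 2) ha0.le (by linarith)
    (half_pos ha0)
  refine ⟨|C₁| + |C₂| * 2, min δ₁ (a / 2), lt_min hδ₁ (half_pos ha0), fun T hT => ?_⟩
  obtain ⟨f1, c1⟩ := h₁ T hT
  have hdT : 0 ≤ d * T := by positivity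
  obtain ⟨f2, c2⟩ := h₂ (Real.exp (d * T)) (Real.one_le_exp hdT)
  set U := {x : AlgebraicClosure k | finrank k (IntermediateField.adjoin k {x}) = 1 ∧
      AA.relHeight x ≤ Real.exp (d * T) ∧ aeval x g ≠ 0 ∧
      a * AA.height x ≤ AA.proximity p g q x} with hU
  set V := {P ∈ SFD.Cov k (f₁ * f₂) 2 1 T | aeval P.1 g ≠ 0 ∧
    HD.logDiscr P + ε * AA.height P.1 <
          AA.proximity p g q P.1 + A * AA.height P.1} with hV
  set V₁ := {P ∈ SFD.Cov k (f₁ * f₂) 2 1 T |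
    HD.logDiscr P ≤ (A - ε + a) * AA.height P.1 + 0} with hV₁
  set V₂ := {P ∈ SFD.Cov k (f₁ * f₂) 2 1 T | P.1 ∈ U} with hV₂
  obtain ⟨f3, c3⟩ := SFD.cov_fibre k (f₁ * f₂) 2 1 one_le_two T V₂ (fun P hP => hP.1) U f2
    fun P hP => hP.2
  have hsub : V ⊆ V₁ ∪ V₂ := by
    rintro P ⟨hP, hgx, hlt⟩
    by_cases hprox : a * AA.height P.1 ≤ AA.proximity p g q P.1
    · right
      refine ⟨hP, hP.2.1, ?_, hgx, hprox⟩
      rw [SFD.relHeight_eq P.1 1 hP.2.1, Nat.cast_one, mul_one]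
      exact Real.exp_le_exp.2 (mul_le_mul_of_nonneg_left hP.2.2 hd0.le)
    · left
      refine ⟨hP, ?_⟩
      rw [not_le] at hprox
      have : (A - ε + a) * AA.height P.1 =
        A * AA.height P.1 - ε * AA.height P.1 + a * AA.height P.1 := by ring
      linarith
  refine ⟨(f1.union f3).subset hsub, ?_⟩
  have g1 : (V.ncard : ℝ) ≤ V₁.ncard + V₂.ncard := by
    exact_mod_cast (Set.ncard_le_ncard hsub (f1.union f3)).trans (Set.ncard_union_le _ _)
  set δ : ℝ := min δ₁ (a / 2) with hδ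
  have g2 : (V₁.ncard : ℝ) ≤ |C₁| * Real.exp ((2 - δ) * d * T) := by
    have e1 : Real.exp ((2 - δ₁) * d * T) ≤ Real.exp ((2 - δ) * d * T) := by
      refine Real.exp_le_exp.2 ?_
      have : δ ≤ δ₁ := min_le_left _ _
      rw [mul_assoc, mul_assoc]
      exact mul_le_mul_of_nonneg_right (by linarith) hdT
    calc (V₁.ncard : ℝ) ≤ C₁ * Real.exp ((2 - δ₁) * d * T) := c1
      _ ≤ |C₁| * Real.exp ((2 - δ₁) * d * T) :=
          mul_le_mul_of_nonneg_right (le_abs_self _) (Real.exp_pos _).le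
      _ ≤ _ := mul_le_mul_of_nonneg_left e1 (abs_nonneg _)
  have g3 : (U.ncard : ℝ) ≤ |C₂| * Real.exp ((2 - δ) * d * T) := by
    have e0 : Real.exp (d * T) ^ (((1 : ℕ) : ℝ) + 1 - a + a / 2) =
        Real.exp ((2 - a / 2) * d * T) := by
      rw [← Real.exp_mul]
      congr 1
      push_cast
      ring
    rw [e0] at c2
    have e1 : Real.exp ((2 - a / 2) * d * T) ≤ Real.exp ((2 - δ) * d * T) := by
      refine Real.exp_le_exp.2 ?_
      have : δ ≤ a / 2 := min_le_right _ _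
      rw [mul_assoc, mul_assoc]
      exact mul_le_mul_of_nonneg_right (by linarith) hdT
    calc (U.ncard : ℝ) ≤ C₂ * Real.exp ((2 - a / 2) * d * T) := c2
      _ ≤ |C₂| * Real.exp ((2 - a / 2) * d * T) :=
          mul_le_mul_of_nonneg_right (le_abs_self _) (Real.exp_pos _).le
      _ ≤ _ := mul_le_mul_of_nonneg_left e1 (abs_nonneg _)
  calc (V.ncard : ℝ) ≤ V₁.ncard + V₂.ncard := g1
    _ ≤ |C₁| * Real.exp ((2 - δ) * d * T) + (|C₂| * Real.exp ((2 - δ) * d * T)) * 2 :=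
        add_le_add g2 (c3.trans (by
          push_cast
          exact mul_le_mul_of_nonneg_right g3 zero_le_two))
    _ = _ := by ring

end Pool.Agent.OnePt
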