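import Pool.Agent.OnePt.Defs

/-!
# Squarefree parts of ideals

HINTS. `exists_od`: `UniqueFactorizationMonoid.induction_on_prime` (or induction on the norm); a unit
ideal is `⊤ = 1`, take `c = t = 1`; for `p * a` with `a = c * t ^ 2`: if `p ∣ c`, `c = p * c'`, then
`p * a = c' * (p * t) ^ 2` and `c'` is squarefree as a divisor of `c`; otherwise `p * c` is squarefree
(`(squarefree_mul_iff ..)`, `p` prime, so irreducible, hence squarefree and `IsRelPrime p c`).

`sq_dvd`: multiply by `X`: `(X * s) ^ 2 = c * (X * Y) * n ^ 2`, so `n ^ 2 ∣ (X * s) ^ 2`, so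
`n ∣ X * s` (`pow_dvd_pow_iff` in a normalized gcd monoid; ideals of a Dedekind domain are one:
see `Ideal` in Mathlib.RingTheory.DedekindDomain.Ideal, or use valuations / normalized factors),
`X * s = n * q`, cancel `n ^ 2` (`n ≠ 0`): `q ^ 2 = c * (X * Y)`. So `c ∣ q ^ 2`, so `c ∣ q`
(`Squarefree.dvd_pow_iff_dvd` or `UniqueFactorizationMonoid.dvd_pow_iff_dvd_of_squarefree`),
`q = c * q'`, `c ^ 2 * q' ^ 2 = c * (X * Y)`, cancel `c` (a squarefree ideal is not `0`).

`prod_dvd`: induction on `S`. For `insert i S`: `A = c i ∣ X b ^ K`, `B = ∏ ∣ X b ^ (K + s ^ 2)`, both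
divide `X b ^ (K + s ^ 2)`, so `A * B` divides `A * X b ^ ..` and `B * X b ^ ..`, so it divides
`(A ⊔ B) * X b ^ ..`, and `b ^ s ∈ A ⊔ B` (the product of the `A ⊔ c j` is contained in `A ⊔ B`).
-/

set_option autoImplicit false

open Polynomial NumberField Module

namespace Pool.Agent.OnePt

variable {R : Type} [CommRing R] [IsDedekindDomain R]

theorem exists_od (I : Ideal R) (hI : I ≠ ⊥) : ∃ c : Ideal R, Od I c := by
  revert hI
  refine UniqueFactorizationMonoid.induction_on_prime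
    (P := fun I : Ideal R => I ≠ ⊥ → ∃ c : Ideal R, Od I c) I (fun h => absurd rfl h) ?_ ?_
  · intro J hJ _
    have h1 : J = 1 := by rwa [Ideal.isUnit_iff, ← Ideal.one_eq_top] at hJ
    refine ⟨1, squarefree_one, 1, ?_, by rw [h1, one_pow, mul_one]⟩
    exact one_ne_zero
  · intro a p ha hp ih _
    obtain ⟨c, hc, t, ht, hat⟩ := ih ha
    by_cases hpc : p ∣ c
    · obtain ⟨c', rfl⟩ := hpc
      refine ⟨c', hc.squarefree_of_dvd (Dvd.intro_left p rfl), p * t, ?_, ?_⟩
      · exact mul_ne_zero hp.ne_zero ht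
      · rw [hat]
        ring
    · refine ⟨p * c, ?_, t, ht, ?_⟩
      · rw [squarefree_mul_iff]
        exact ⟨(hp.irreducible.isRelPrime_iff_not_dvd).2 hpc, hp.irreducible.squarefree, hc⟩
      · rw [hat]
        ring

theorem sq_dvd (X s c Y n : Ideal R) (hc : Squarefree c) (hn : n ≠ ⊥)
    (h : X * s ^ 2 = c * Y * n ^ 2) : c ∣ X * Y := by
  have h1 : (X * s) ^ 2 = c * (X * Y) * n ^ 2 := by
    calc (X * s) ^ 2 = X * (X * s ^ 2) := by ring
      _ = X * (c * Y * n ^ 2) := by rw [h]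
      _ = c * (X * Y) * n ^ 2 := by ring
  have h2 : n ∣ X * s := by
    rw [← UniqueFactorizationMonoid.pow_dvd_pow_iff_dvd two_ne_zero, h1]
    exact Dvd.intro_left _ rfl
  obtain ⟨q, hq⟩ := h2
  have hn2 : n ^ 2 ≠ 0 := pow_ne_zero 2 hn
  have h3 : q ^ 2 = c * (X * Y) := by
    apply mul_right_cancel₀ hn2
    rw [← h1, hq]
    ring
  have hc0 : c ≠ 0 := hc.ne_zero
  have h4 : c ∣ q := (hc.dvd_pow_iff_dvd two_ne_zero).1 (h3 ▸ dvd_mul_right c _)
  obtain ⟨q', rfl⟩ := h4
  have h5 : c * q' ^ 2 = X * Y := by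
    apply mul_left_cancel₀ hc0
    rw [← h3]
    ring
  exact ⟨q' ^ 2, h5.symm⟩

private theorem Alg_sup {ι : Type} [DecidableEq ι] (S : Finset ι) (c : ι → Ideal R)
    (A : Ideal R) (b : R) (h : ∀ j ∈ S, b ∈ A ⊔ c j) : b ^ S.card ∈ A ⊔ ∏ j ∈ S, c j := by
  induction S using Finset.induction_on with
  | empty => simp
  | insert i S hi ih =>
    have h1 := ih fun j hj => h j (Finset.mem_insert_of_mem hj)
    have h2 := h i (Finset.mem_insert_self i S)
    rw [Finset.card_insert_of_notMem hi, Finset.prod_insert hi, pow_succ']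
    obtain ⟨a, ha, x, hx, hax⟩ := Submodule.mem_sup.1 h2
    obtain ⟨a', ha', y, hy, hay⟩ := Submodule.mem_sup.1 h1
    refine Submodule.mem_sup.2 ⟨a * (a' + y) + x * a', ?_, x * y, Ideal.mul_mem_mul hx hy, ?_⟩
    · exact A.add_mem (A.mul_mem_right _ ha) (A.mul_mem_left _ ha')
    · have hb : b * b ^ S.card = (a + x) * (a' + y) := by rw [hax, hay]
      rw [hb]
      ring

theorem prod_dvd {ι : Type} [DecidableEq ι] (S : Finset ι) (c : ι → Ideal R) (X : Ideal R) (b : R)
    (K : ℕ) (h1 : ∀ i ∈ S, c i ∣ X * Ideal.span {b} ^ K)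
    (h2 : ∀ i ∈ S, ∀ j ∈ S, i ≠ j → b ∈ c i ⊔ c j) :
    ∏ i ∈ S, c i ∣ X * Ideal.span {b} ^ (K + S.card ^ 2) := by
  induction S using Finset.induction_on with
  | empty =>
    rw [Finset.prod_empty]
    exact one_dvd _
  | insert i S hi ih =>
    have h3 := ih (fun j hj => h1 j (Finset.mem_insert_of_mem hj))
      (fun j hj l hl => h2 j (Finset.mem_insert_of_mem hj) l (Finset.mem_insert_of_mem hl))
    have h4 : c i ∣ X * Ideal.span {b} ^ (K + S.card ^ 2) := by
      refine (h1 i (Finset.mem_insert_self i S)).trans ?_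
      rw [pow_add, ← mul_assoc]
      exact dvd_mul_right _ _
    have h5 : b ^ S.card ∈ c i ⊔ ∏ j ∈ S, c j := by
      refine Alg_sup S c (c i) b fun j hj => ?_
      refine h2 i (Finset.mem_insert_self i S) j (Finset.mem_insert_of_mem hj) ?_
      rintro rfl
      exact hi hj
    rw [Finset.card_insert_of_notMem hi, Finset.prod_insert hi]
    set M := X * Ideal.span {b} ^ (K + S.card ^ 2) with hM
    set B := ∏ j ∈ S, c j with hB
    have h6 : c i * B ∣ (c i ⊔ B) * M := by
      rw [Ideal.dvd_iff_le, Ideal.sup_mul]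
      refine sup_le ?_ ?_
      · exact Ideal.mul_mono_right (Ideal.dvd_iff_le.1 h3)
      · rw [mul_comm B M]
        exact Ideal.mul_mono_left (Ideal.dvd_iff_le.1 h4)
    have h7 : (c i ⊔ B) ∣ Ideal.span {b} ^ S.card := by
      rw [Ideal.dvd_iff_le, Ideal.span_singleton_pow, Ideal.span_singleton_le_iff_mem]
      exact h5
    refine h6.trans ((mul_dvd_mul_right h7 M).trans ?_)
    have h8 : Ideal.span {b} ^ S.card * M =
        X * Ideal.span {b} ^ (S.card + (K + S.card ^ 2)) := by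
      rw [hM, pow_add]
      ring
    rw [h8]
    refine mul_dvd_mul_left X (pow_dvd_pow _ ?_)
    nlinarith

end Pool.Agent.OnePt
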