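import Pool.Agent.OnePt.Defs

/-!
# Cells at the infinite places

HINTS. Let `d = [k : ℚ]`, `s = ρ ^ (1 / d) ≤ 1`. For every infinite place `v` of `k` (embedding
`σ_v`): the chart is `|x|_v ≤ 1` or not; in the first case let `u = σ_v x`, otherwise `u = σ_v
  x⁻¹`,
so `‖u‖ ≤ 1`; the cell of `u` is `(⌊2 re u / s⌋, ⌊2 im u / s⌋)` for a complex place and
`⌊re u / s⌋` for a real place (there `σ_v x` is real). Two points in the same cell of the same
  chart
have `‖u - u'‖ ≤ s`, so `‖σ_v (x - x')‖ ≤ s max 1 ‖σ_v x‖ max 1 ‖σ_v x'‖` (second chart: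
`x - x' = x x' (u' - u)`). The number of cells is at most `C / s` for real and `C / s ^ 2` for
  complex
places, in total `C / s ^ d = C / ρ` (`∏_v s ^ mult(v) = s ^ d`, `InfinitePlace.sum_mult_eq`). The
product over all embeddings is `∏_v (..) ^ mult(v)` (`RefW.denIdeal_prod_infinite k`, used in
SS/Zid.lean `height_den`). Integers in `[-A, A]` are at most `2 A + 1`; build `F` with values in a
finite type (product over the places of `Bool × ..`) of cardinality at most `C / ρ` and compose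
  with
`Fintype.equivFin`.
-/

set_option autoImplicit false

open Polynomial NumberField Module

namespace Pool.Agent.OnePt

private noncomputable def cells_icode (z : ℂ) : ℤ × ℤ := (⌊2 * z.re⌋, ⌊2 * z.im⌋)

private theorem cells_norm_lt {z w : ℂ} (h : cells_icode z = cells_icode w) : ‖z - w‖ < 1 := by
  have h2 : ⌊2 * z.re⌋ = ⌊2 * w.re⌋ := congrArg Prod.fst h
  have h3 : ⌊2 * z.im⌋ = ⌊2 * w.im⌋ := congrArg Prod.snd h
  have h4 := Int.abs_sub_lt_one_of_floor_eq_floor h2
  have h5 := Int.abs_sub_lt_one_of_floor_eq_floor h3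
  rw [← mul_sub, abs_mul, abs_two, ← Complex.sub_re] at h4
  rw [← mul_sub, abs_mul, abs_two, ← Complex.sub_im] at h5
  have h6 := Complex.norm_le_abs_re_add_abs_im (z - w)
  linarith

private theorem cells_mem_Icc {R a : ℝ} (ha : |a| ≤ R) :
    ⌊2 * a⌋ ∈ Finset.Icc (-⌈2 * R⌉) ⌈2 * R⌉ := by
  have h1 := abs_le.1 ha
  have h2 := Int.le_ceil (2 * R)
  rw [Finset.mem_Icc, Int.le_floor]
  refine ⟨by push_cast; linarith, ?_⟩
  have h5 : ⌊2 * a⌋ ≤ ⌊2 * R⌋ := Int.floor_le_floor (by linarith)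
  exact h5.trans (Int.floor_le_ceil _)

private theorem cells_card_Icc {R : ℝ} (hR : 1 ≤ R) :
    ((Finset.Icc (-⌈2 * R⌉) ⌈2 * R⌉).card : ℝ) ≤ 7 * R := by
  have h0 : (0 : ℤ) ≤ ⌈2 * R⌉ := Int.ceil_nonneg (by linarith)
  have h1 : ((Finset.Icc (-⌈2 * R⌉) ⌈2 * R⌉).card : ℤ) = 2 * ⌈2 * R⌉ + 1 := by
    rw [Int.card_Icc, Int.toNat_of_nonneg (by linarith)]
    ring
  have h2 : ((Finset.Icc (-⌈2 * R⌉) ⌈2 * R⌉).card : ℝ) = 2 * (⌈2 * R⌉ : ℝ) + 1 := by
    have : (((Finset.Icc (-⌈2 * R⌉) ⌈2 * R⌉).card : ℤ) : ℝ) = ((2 * ⌈2 * R⌉ + 1 : ℤ) : ℝ) := by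
      rw [h1]
    push_cast at this
    exact this
  have h3 := Int.ceil_lt_add_one (2 * R)
  rw [h2]
  linarith

/-- the chart at the place `w` -/
private noncomputable def cells_ch {k : Type} [Field k] (w : InfinitePlace k) (x : k) : k :=
  if w x ≤ 1 then x else x⁻¹

private theorem cells_ch_le {k : Type} [Field k] (w : InfinitePlace k) (x : k) :
    w (cells_ch w x) ≤ 1 := by
  unfold cells_ch
  split_ifs with h
  · exact h
  · rw [map_inv₀]
    exact inv_le_one_of_one_le₀ (not_le.1 h).le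

private theorem cells_dist {k : Type} [Field k] (w : InfinitePlace k) (x x' : k) (s : ℝ)
    (hb : w x ≤ 1 ↔ w x' ≤ 1) (h : w (cells_ch w x - cells_ch w x') ≤ s) :
    w (x - x') ≤ s * (max 1 (w x) * max 1 (w x')) := by
  have hs : 0 ≤ s := le_trans (apply_nonneg w _) h
  unfold cells_ch at h
  by_cases h1 : w x ≤ 1
  · have h2 := hb.1 h1
    rw [if_pos h1, if_pos h2] at h
    exact h.trans (le_mul_of_one_le_right hs
      (one_le_mul_of_one_le_of_one_le (le_max_left _ _) (le_max_left _ _)))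
  · have h2 : ¬ w x' ≤ 1 := fun h3 => h1 (hb.2 h3)
    rw [if_neg h1, if_neg h2] at h
    have h3 : x ≠ 0 := by
      rintro rfl
      exact h1 (by rw [map_zero]; exact zero_le_one)
    have h4 : x' ≠ 0 := by
      rintro rfl
      exact h2 (by rw [map_zero]; exact zero_le_one)
    have h5 : x - x' = - (x * x' * (x⁻¹ - x'⁻¹)) := by
      field_simp
      ring
    have h6 : w (x - x') = w x * w x' * w (x⁻¹ - x'⁻¹) := by
      rw [h5, ← map_mul, ← map_mul]
      have h7 := (InfinitePlace.norm_embedding_eq w (-(x * x' * (x⁻¹ - x'⁻¹))))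
      have h8 := (InfinitePlace.norm_embedding_eq w ((x * x' * (x⁻¹ - x'⁻¹))))
      rw [← h7, ← h8, map_neg, norm_neg]
    rw [h6, max_eq_right (not_le.1 h1).le, max_eq_right (not_le.1 h2).le, mul_comm s]
    exact mul_le_mul_of_nonneg_left h (mul_nonneg (apply_nonneg w _) (apply_nonneg w _))

theorem cells (k : Type) [Field k] [NumberField k] : ∃ C : ℝ, 1 ≤ C ∧ ∀ ρ : ℝ, 0 < ρ → ρ ≤ 1 →
    ∃ (N : ℕ) (F : k → Fin N), (N : ℝ) ≤ C / ρ ∧ ∀ x x' : k, F x = F x' →
      ∏ σ : k →+* ℂ, ‖σ (x - x')‖ ≤ ρ * ∏ σ : k →+* ℂ, (max 1 ‖σ x‖ * max 1 ‖σ x'‖) := by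
  classical
  set d : ℕ := finrank ℚ k with hd
  have hd0 : 0 < d := finrank_pos
  have hdR : (d : ℝ) ≠ 0 := by exact_mod_cast hd0.ne'
  refine ⟨2 ^ Fintype.card (InfinitePlace k) * 7 ^ d, one_le_mul_of_one_le_of_one_le
    (one_le_pow₀ one_le_two) (one_le_pow₀ (by norm_num)), fun ρ hρ hρ1 => ?_⟩
  set s : ℝ := ρ ^ ((d : ℝ)⁻¹) with hs
  have hs0 : 0 < s := Real.rpow_pos_of_pos hρ _
  have hs1 : s ≤ 1 := Real.rpow_le_one hρ.le hρ1 (inv_nonneg.2 (Nat.cast_nonneg _))
  have hsd : s ^ d = ρ := by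
    rw [hs, ← Real.rpow_natCast, ← Real.rpow_mul hρ.le, inv_mul_cancel₀ hdR, Real.rpow_one]
  have hR : 1 ≤ s⁻¹ := (one_le_inv₀ hs0).2 hs1
  set I : Finset ℤ := Finset.Icc (-⌈2 * s⁻¹⌉) ⌈2 * s⁻¹⌉ with hI
  set B : Finset (InfinitePlace k → Bool × (ℤ × ℤ)) :=
    Fintype.piFinset fun w => Finset.univ ×ˢ (I ×ˢ (if w.IsReal then {0} else I)) with hB
  have hcard : (B.card : ℝ) ≤ 2 ^ Fintype.card (InfinitePlace k) * 7 ^ d / ρ := by
    have h0 : ((I.card : ℕ) : ℝ) ≤ 7 * s⁻¹ := cells_card_Icc hR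
    have h2 : 0 ≤ 7 * s⁻¹ := by positivity
    have h1 : (B.card : ℝ) ≤ ∏ w : InfinitePlace k, (2 * (7 * s⁻¹) ^ w.mult) := by
      rw [hB, Fintype.card_piFinset]
      push_cast
      refine Finset.prod_le_prod (fun w _ => Nat.cast_nonneg _) fun w _ => ?_
      rw [Finset.card_product, Finset.card_product, Finset.card_univ, Fintype.card_bool]
      push_cast
      refine mul_le_mul_of_nonneg_left ?_ zero_le_two
      unfold InfinitePlace.mult
      split_ifs with h
      · rw [Finset.card_singleton, Nat.cast_one, mul_one, pow_one]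
        exact h0
      · rw [pow_two]
        exact mul_le_mul h0 h0 (Nat.cast_nonneg _) h2
    refine h1.trans (le_of_eq ?_)
    rw [Finset.prod_mul_distrib, Finset.prod_const, Finset.card_univ, Finset.prod_pow_eq_pow_sum,
      InfinitePlace.sum_mult_eq, ← hd, mul_pow, inv_pow, hsd, mul_div_assoc, div_eq_mul_inv]
  set cd : k → InfinitePlace k → Bool × (ℤ × ℤ) := fun x w =>
    (decide (w x ≤ 1), cells_icode ((s⁻¹ : ℝ) * w.embedding (cells_ch w x))) with hcd
  have hmaps : ∀ x : k, cd x ∈ B := by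
    intro x
    rw [hB, Fintype.mem_piFinset]
    intro w
    have h1 : ‖((s⁻¹ : ℝ) : ℂ) * w.embedding (cells_ch w x)‖ ≤ s⁻¹ := by
      rw [norm_mul, InfinitePlace.norm_embedding_eq, Complex.norm_real, Real.norm_eq_abs,
        abs_of_nonneg (inv_nonneg.2 hs0.le)]
      exact mul_le_of_le_one_right (inv_nonneg.2 hs0.le) (cells_ch_le w x)
    rw [Finset.mem_product, Finset.mem_product]
    refine ⟨Finset.mem_univ _, cells_mem_Icc ((Complex.abs_re_le_norm _).trans h1), ?_⟩
    split_ifs with hw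
    · have h2 : starRingEnd ℂ (w.embedding (cells_ch w x)) = w.embedding (cells_ch w x) := by
        have := RingHom.congr_fun (InfinitePlace.isReal_iff.1 hw) (cells_ch w x)
        rwa [ComplexEmbedding.conjugate_coe_eq] at this
      have h3 : (w.embedding (cells_ch w x)).im = 0 := Complex.conj_eq_iff_im.1 h2
      rw [Finset.mem_singleton]
      change ⌊2 * (((s⁻¹ : ℝ) : ℂ) * w.embedding (cells_ch w x)).im⌋ = 0
      rw [Complex.im_ofReal_mul, h3, mul_zero, mul_zero, Int.floor_zero]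
    · exact cells_mem_Icc ((Complex.abs_im_le_norm _).trans h1)
  refine ⟨B.card, fun x => B.equivFin ⟨cd x, hmaps x⟩, hcard, fun x x' hxx => ?_⟩
  have hcode : cd x = cd x' := congrArg Subtype.val (B.equivFin.injective hxx)
  have hw : ∀ w : InfinitePlace k, w (x - x') ≤ s * (max 1 (w x) * max 1 (w x')) := by
    intro w
    have h1 := congrFun hcode w
    have h2 : decide (w x ≤ 1) = decide (w x' ≤ 1) := congrArg Prod.fst h1
    have h3 := cells_norm_lt (congrArg Prod.snd h1)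
    refine cells_dist w x x' s (by simpa using h2) ?_
    rw [← mul_sub, ← map_sub, norm_mul, InfinitePlace.norm_embedding_eq, Complex.norm_real,
      Real.norm_eq_abs, abs_of_nonneg (inv_nonneg.2 hs0.le), inv_mul_lt_iff₀ hs0, mul_one] at h3
    exact h3.le
  have e1 := RefW.denIdeal_prod_infinite k (fun w => w (x - x'))
  have e2 := RefW.denIdeal_prod_infinite k (fun w => max 1 (w x) * max 1 (w x'))
  simp only [InfinitePlace.apply] at e1 e2
  rw [← e1, ← e2]
  calc ∏ w : InfinitePlace k, w (x - x') ^ w.mult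
      ≤ ∏ w : InfinitePlace k, (s * (max 1 (w x) * max 1 (w x'))) ^ w.mult :=
        Finset.prod_le_prod (fun w _ => pow_nonneg (apply_nonneg w _) _) fun w _ =>
          pow_le_pow_left₀ (apply_nonneg w _) (hw w) _
    _ = ρ * ∏ w : InfinitePlace k, (max 1 (w x) * max 1 (w x')) ^ w.mult := by
        have e3 : ∀ w : InfinitePlace k, (s * (max 1 (w x) * max 1 (w x'))) ^ w.mult =
            s ^ w.mult * (max 1 (w x) * max 1 (w x')) ^ w.mult := fun w => mul_pow _ _ _
        rw [Finset.prod_congr rfl fun w _ => e3 w, Finset.prod_mul_distrib,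
          Finset.prod_pow_eq_pow_sum, InfinitePlace.sum_mult_eq, ← hd, hsd]

end Pool.Agent.OnePt
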