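import Pool.Agent.SS.Disc
import Pool.Agent.TW.Final

/-!
# The squarefree part of an ideal; the ideal `(c x - θ) J`
-/

set_option autoImplicit false

open Polynomial NumberField Module

namespace Pool.Agent.OnePt

/-- `c` is the squarefree part of the ideal `I` -/
def Od {R : Type} [CommRing R] (I c : Ideal R) : Prop :=
  Squarefree c ∧ ∃ t : Ideal R, t ≠ ⊥ ∧ I = c * t ^ 2

/-- the ideal `(c x - θ) J` of the ring of integers of `M`, `J` the denominator ideal of `x ∈ k` -/
def ax {k M : Type} [Field k] [NumberField k] [Field M] [NumberField M] [Algebra k M] (c : 𝓞 k)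
    (θ : 𝓞 M) (x : k) : Ideal (𝓞 M) :=
  Ideal.span {t : 𝓞 M | ∃ j ∈ RefW.denIdealOf x,
    (t : M) = (algebraMap k M ((c : k) * x) - (θ : M)) * algebraMap k M (j : k)}

end Pool.Agent.OnePt
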