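import Pool.Agent.OnePt.Defs

/-!
# Ramification: a squarefree ideal which becomes a square
-/

set_option autoImplicit false

open Polynomial NumberField Module

namespace Pool.Agent.OnePt

section

variable {k K : Type} [Field k] [NumberField k] [Field K] [NumberField K] [Algebra k K]

/-- the primes above a prime divisor -/
private theorem ram_above (c : Ideal (𝓞 k)) (hc : Squarefree c) (R : Ideal (𝓞 K))
    (h : R ^ 2 = c.map (algebraMap (𝓞 k) (𝓞 K))) (q : Ideal (𝓞 k)) (hq : q.IsMaximal)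
    (hqc : q ∣ c) : ∃ Q : Ideal (𝓞 K), Q.IsMaximal ∧ Q.comap (algebraMap (𝓞 k) (𝓞 K)) = q ∧
      Q ^ 2 ∣ q.map (algebraMap (𝓞 k) (𝓞 K)) := by
  obtain ⟨c', rfl⟩ := hqc
  have hqc' : ¬ c' ≤ q := by
    intro h1
    obtain ⟨c'', rfl⟩ := Ideal.dvd_iff_le.2 h1
    have h2 := hc q ⟨c'', by rw [mul_assoc]⟩
    exact hq.ne_top (Ideal.isUnit_iff.1 h2)
  obtain ⟨Q, hQ1, hQ2⟩ := Ideal.exists_ideal_over_maximal_of_isIntegral (S := 𝓞 K) q (by
    have hinj : Function.Injective (algebraMap (𝓞 k) (𝓞 K)) :=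
      FaithfulSMul.algebraMap_injective (𝓞 k) (𝓞 K)
    rw [(RingHom.injective_iff_ker_eq_bot _).1 hinj]
    exact bot_le)
  have hQp : Q.IsPrime := hQ1.isPrime
  refine ⟨Q, hQ1, hQ2, ?_⟩
  have hqQ : q.map (algebraMap (𝓞 k) (𝓞 K)) ≤ Q := by
    rw [Ideal.map_le_iff_le_comap, hQ2]
  have hR : R ≤ Q := by
    have h1 : R ^ 2 ≤ Q := by
      rw [h, Ideal.map_mul]
      exact Ideal.mul_le_left.trans hqQ
    exact hQp.le_of_pow_le h1
  have hR2 : Q ^ 2 ∣ q.map (algebraMap (𝓞 k) (𝓞 K)) * c'.map (algebraMap (𝓞 k) (𝓞 K)) := by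
    rw [← Ideal.map_mul, ← h, Ideal.dvd_iff_le]
    exact Ideal.pow_right_mono hR 2
  have hcop : IsCoprime (Q ^ 2) (c'.map (algebraMap (𝓞 k) (𝓞 K))) := by
    refine IsCoprime.pow_left ?_
    rw [Ideal.isCoprime_iff_sup_eq]
    by_contra h1
    have h2 := hQ1.eq_of_le h1 le_sup_left
    have h3 : c'.map (algebraMap (𝓞 k) (𝓞 K)) ≤ Q := by
      rw [h2]
      exact le_sup_right
    rw [Ideal.map_le_iff_le_comap, hQ2] at h3
    exact hqc' h3
  exact hcop.dvd_of_dvd_mul_right hR2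

/-- the norm of a prime above -/
private theorem ram_norm (q : Ideal (𝓞 k)) (Q : Ideal (𝓞 K)) (hQ : Q.IsMaximal)
    (hq0 : q ≠ ⊥) (h : Q.comap (algebraMap (𝓞 k) (𝓞 K)) = q) :
    Ideal.absNorm q ≤ Ideal.absNorm Q := by
  have hQ0 : Q ≠ ⊥ := by
    rintro rfl
    apply hq0
    rw [← h]
    have hinj : Function.Injective (algebraMap (𝓞 k) (𝓞 K)) :=
      FaithfulSMul.algebraMap_injective (𝓞 k) (𝓞 K)
    exact (RingHom.injective_iff_ker_eq_bot _).1 hinj
  have hfin : Finite (𝓞 K ⧸ Q) := Ideal.finiteQuotientOfFreeOfNeBot Q hQ0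
  rw [Ideal.absNorm_apply, Ideal.absNorm_apply, Submodule.cardQuot_apply, Submodule.cardQuot_apply]
  have hle : q ≤ Q.comap (algebraMap (𝓞 k) (𝓞 K)) := h.ge
  exact Nat.card_le_card_of_injective (Ideal.quotientMap Q (algebraMap (𝓞 k) (𝓞 K)) hle)
    (Ideal.quotientMap_injective' h.le)

/-- the squarefree ideal as a product -/
private theorem ram_prod (c : Ideal (𝓞 k)) (hc : Squarefree c) :
    ∃ S : Finset (Ideal (𝓞 k)), (∀ q ∈ S, q ≠ ⊥ ∧ q.IsMaximal ∧ q ∣ c) ∧ ∏ q ∈ S, q = c := by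
  classical
  have hc0 : c ≠ 0 := hc.ne_zero
  refine ⟨(UniqueFactorizationMonoid.normalizedFactors c).toFinset, ?_, ?_⟩
  · intro q hq
    rw [Multiset.mem_toFinset] at hq
    have h1 := UniqueFactorizationMonoid.prime_of_normalized_factor q hq
    have h2 : q.IsPrime := Ideal.isPrime_of_prime h1
    exact ⟨h1.ne_zero, h2.isMaximal h1.ne_zero,
      UniqueFactorizationMonoid.dvd_of_mem_normalizedFactors hq⟩
  · have h1 := (UniqueFactorizationMonoid.squarefree_iff_nodup_normalizedFactors hc0).1 hc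
    rw [Finset.prod_eq_multiset_prod, Multiset.toFinset_val, h1.dedup, Multiset.map_id']
    exact Ideal.prod_normalizedFactors_eq_self hc0

end

/-- a squarefree ideal of `k` which becomes a square in `K` divides the discriminant -/
theorem disc_ram (k K : Type) [Field k] [NumberField k] [Field K] [NumberField K] [Algebra k K]
    (c : Ideal (𝓞 k)) (hc : Squarefree c) (R : Ideal (𝓞 K))
    (h : R ^ 2 = c.map (algebraMap (𝓞 k) (𝓞 K))) :
    (Ideal.absNorm c : ℝ) * |(discr k : ℝ)| ^ finrank k K ≤ |(discr K : ℝ)| := by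
  classical
  obtain ⟨S, hS, hSc⟩ := ram_prod c hc
  have hex : ∀ q : Ideal (𝓞 k), ∃ Q : Ideal (𝓞 K), q ∈ S → Q.IsMaximal ∧
      Q.comap (algebraMap (𝓞 k) (𝓞 K)) = q ∧ Q ^ 2 ∣ q.map (algebraMap (𝓞 k) (𝓞 K)) := by
    intro q
    by_cases hq : q ∈ S
    · obtain ⟨Q, hQ⟩ := ram_above c hc R h q (hS q hq).2.1 (hS q hq).2.2
      exact ⟨Q, fun _ => hQ⟩
    · exact ⟨⊥, fun h1 => absurd h1 hq⟩
  choose Q hQ using hex
  have hdiff : ∏ q ∈ S, Q q ∣ differentIdeal (𝓞 k) (𝓞 K) := by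
    refine Finset.prod_dvd_of_coprime ?_ fun s hs => ?_
    · intro s hs t ht hst
      change IsCoprime (Q s) (Q t)
      rw [Ideal.isCoprime_iff_sup_eq]
      refine (hQ s hs).1.coprime_of_ne (hQ t ht).1 fun h1 => hst ?_
      rw [← (hQ s hs).2.1, ← (hQ t ht).2.1, h1]
    · have h1 := (hQ s hs).1
      have h2 := (hS s hs).2.1
      have h3 := pow_sub_one_dvd_differentIdeal (𝓞 k) (Q s) 2 (hS s hs).1 (hQ s hs).2.2
      simpa using h3
  have hdisc : (discr K).natAbs = Ideal.absNorm (differentIdeal (𝓞 k) (𝓞 K)) *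
      (discr k).natAbs ^ finrank k K :=
    natAbs_discr_eq_absNorm_differentIdeal_mul_natAbs_discr_pow k (𝓞 k) K (𝓞 K)
  have hdiff0 : Ideal.absNorm (differentIdeal (𝓞 k) (𝓞 K)) ≠ 0 := by
    intro h
    rw [h, zero_mul] at hdisc
    exact discr_ne_zero K (Int.natAbs_eq_zero.1 hdisc)
  have hnorm : Ideal.absNorm c ≤ Ideal.absNorm (differentIdeal (𝓞 k) (𝓞 K)) := by
    calc Ideal.absNorm c = ∏ q ∈ S, Ideal.absNorm q := by rw [← hSc, map_prod]
      _ ≤ ∏ q ∈ S, Ideal.absNorm (Q q) := by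
          refine Finset.prod_le_prod' fun s hs => ?_
          exact ram_norm s (Q s) (hQ s hs).1 (hS s hs).1 (hQ s hs).2.1
      _ = Ideal.absNorm (∏ q ∈ S, Q q) := by rw [map_prod]
      _ ≤ _ := Nat.le_of_dvd (Nat.pos_of_ne_zero hdiff0) (map_dvd _ hdiff)
  have h1 : |(discr K : ℝ)| = ((discr K).natAbs : ℝ) := by
    rw [Nat.cast_natAbs, Int.cast_abs]
  have h2 : |(discr k : ℝ)| = ((discr k).natAbs : ℝ) := by
    rw [Nat.cast_natAbs, Int.cast_abs]
  rw [h1, h2, hdisc]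
  push_cast
  refine mul_le_mul_of_nonneg_right ?_ (by positivity)
  exact_mod_cast hnorm

theorem two_le (k K : Type) [Field k] [NumberField k] [Field K] [NumberField K] [Algebra k K]
    (c : Ideal (𝓞 k)) (hc : Squarefree c) (hc1 : c ≠ ⊤) (R : Ideal (𝓞 K))
    (h : R ^ 2 = c.map (algebraMap (𝓞 k) (𝓞 K))) : 2 ≤ finrank k K := by
  classical
  obtain ⟨S, hS, hSc⟩ := ram_prod c hc
  obtain ⟨q, hq⟩ : S.Nonempty := by
    by_contra h1
    rw [Finset.not_nonempty_iff_eq_empty] at h1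
    rw [h1, Finset.prod_empty, Ideal.one_eq_top] at hSc
    exact hc1 hSc.symm
  obtain ⟨Q, hQ1, hQ2, hQ3⟩ := ram_above c hc R h q (hS q hq).2.1 (hS q hq).2.2
  have h1 := ram_norm q Q hQ1 (hS q hq).1 hQ2
  have h2 : Ideal.absNorm Q ^ 2 ∣ Ideal.absNorm q ^ finrank k K := by
    have h3 := map_dvd Ideal.absNorm hQ3
    rwa [map_pow, Ideal.absNorm_algebraMap, ← IsFractionRing.finrank_eq (𝓞 k) k (𝓞 K) K] at h3
  have hq0 : Ideal.absNorm q ≠ 0 := by
    rw [Ne, Ideal.absNorm_eq_zero_iff]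
    exact (hS q hq).1
  have hq1 : Ideal.absNorm q ≠ 1 := by
    rw [Ne, Ideal.absNorm_eq_one_iff]
    exact (hS q hq).2.1.ne_top
  have h3 : Ideal.absNorm q ^ 2 ≤ Ideal.absNorm q ^ finrank k K :=
    (Nat.pow_le_pow_left h1 2).trans (Nat.le_of_dvd (by positivity) h2)
  exact (Nat.pow_le_pow_iff_right (by omega)).1 h3

end Pool.Agent.OnePt
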