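import Pool.Agent.OnePt.Alg
import Pool.Agent.OnePt.Ram

/-!
# The discriminant of the points over `k`

HINTS. Write `J = denIdealOf x`, `n = f.natDegree`, `v = f(x)`. Choose `j₀ ∈ J`, `j₀ ≠ 0`
(`(RefW.denIdeal_norm_le x).1 : denIdealOf x ≠ ⊥`). There is `b : 𝓞 k` with `b = v * j₀ ^ (2 n)` in
`k` (`SS.eval_int f x n le_rfl` gives `v * j₀ ^ n` integral), and `Y : 𝓞 K` with
`Y = y * j₀ ^ n` in `K`, integral because `Y ^ 2 = b`. As sets `zf f x = v J ^ n` (definition of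
`SS.zid`, `SS.mem_zid`), so `span {b} * J ^ (2 n) = span {j₀ ^ (2 n)} * (zf f x * J ^ n)
= span {j₀ ^ (2 n)} * (c * t ^ 2)`. (Proof of the first equality: `span {b} * J ^ n =
span {j₀ ^ (2 n)} * zf f x` elementwise.) Map to `𝓞 K`: with `P = span {Y} * (J ^ n).map` and
`Q = (span {j₀ ^ n} * t).map` we get `P ^ 2 = Q ^ 2 * c.map`, `Q ≠ 0`. So `Q ∣ P`
(`pow_dvd_pow_iff` for ideals), `P = Q * R`, and `R ^ 2 = c.map`. Use `disc_ram`, `two_le`.
-/

set_option autoImplicit false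

open Polynomial NumberField Module

namespace Pool.Agent.OnePt

theorem disc_x (k K : Type) [Field k] [NumberField k] [Field K] [NumberField K] [Algebra k K]
    (f : (𝓞 k)[X]) (x : k) (y : K)
    (hy : y ^ 2 = algebraMap k K (aeval x (f.map (algebraMap (𝓞 k) k))))
    (h0 : aeval x (f.map (algebraMap (𝓞 k) k)) ≠ 0) (c : Ideal (𝓞 k))
    (hc : Od (SS.zf f x * RefW.denIdealOf x ^ f.natDegree) c) :
    (Ideal.absNorm c : ℝ) * |(discr k : ℝ)| ^ finrank k K ≤ |(discr K : ℝ)| ∧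
      (c ≠ ⊤ → 2 ≤ finrank k K) := by
  obtain ⟨hsq, t, ht, hI⟩ := hc
  have hJ0 : RefW.denIdealOf x ≠ ⊥ := (RefW.denIdeal_norm_le x).1
  obtain ⟨j₀, hj₀, hj₀0⟩ := Submodule.exists_mem_ne_zero_of_ne_bot hJ0
  have hpow : ∀ (a : 𝓞 k) (m : ℕ), ((a ^ m : 𝓞 k) : k) = (a : k) ^ m := fun _ _ => rfl
  obtain ⟨t₁, ht₁⟩ := SS.eval_int f x f.natDegree le_rfl (j₀ ^ f.natDegree)
    (Ideal.pow_mem_pow hj₀ _)
  have e1 : Ideal.span {t₁ * j₀ ^ f.natDegree} * RefW.denIdealOf x ^ f.natDegree =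
      Ideal.span {(j₀ ^ f.natDegree) ^ 2} * SS.zf f x := by
    ext w
    rw [Ideal.mem_span_singleton_mul, Ideal.mem_span_singleton_mul]
    constructor
    · rintro ⟨z, hz, rfl⟩
      obtain ⟨s, hs⟩ := SS.eval_int f x f.natDegree le_rfl z hz
      refine ⟨s, ⟨z, hz, hs⟩, ?_⟩
      apply RingOfIntegers.ext
      change ((j₀ ^ f.natDegree : 𝓞 k) : k) ^ 2 * (s : k) =
        (t₁ : k) * ((j₀ ^ f.natDegree : 𝓞 k) : k) * (z : k)
      rw [hs, ht₁]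
      ring
    · rintro ⟨s, ⟨z, hz, hs⟩, rfl⟩
      refine ⟨z, hz, ?_⟩
      apply RingOfIntegers.ext
      change (t₁ : k) * ((j₀ ^ f.natDegree : 𝓞 k) : k) * (z : k) =
        ((j₀ ^ f.natDegree : 𝓞 k) : k) ^ 2 * (s : k)
      rw [hs, ht₁]
      ring
  have e2 : ((algebraMap (𝓞 k) (𝓞 K) (t₁ * j₀ ^ f.natDegree) : 𝓞 K) : K) =
      (y * algebraMap k K ((j₀ ^ f.natDegree : 𝓞 k) : k)) ^ 2 := by
    have e3 : ((algebraMap (𝓞 k) (𝓞 K) (t₁ * j₀ ^ f.natDegree) : 𝓞 K) : K) =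
        algebraMap k K ((t₁ : k) * ((j₀ ^ f.natDegree : 𝓞 k) : k)) := rfl
    rw [e3, ht₁, mul_pow, hy, map_mul, map_mul]
    ring
  have hint : IsIntegral ℤ (y * algebraMap k K ((j₀ ^ f.natDegree : 𝓞 k) : k)) := by
    refine IsIntegral.of_pow (n := 2) two_pos ?_
    rw [← e2]
    exact RingOfIntegers.isIntegral_coe _
  obtain ⟨Y, hY⟩ : ∃ Y : 𝓞 K,
      (Y : K) = y * algebraMap k K ((j₀ ^ f.natDegree : 𝓞 k) : k) := ⟨⟨_, hint⟩, rfl⟩
  have hY2 : Y ^ 2 = algebraMap (𝓞 k) (𝓞 K) (t₁ * j₀ ^ f.natDegree) := by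
    apply RingOfIntegers.ext
    rw [e2, ← hY]
    rfl
  have hPQ : (Ideal.span {Y} *
      (RefW.denIdealOf x ^ f.natDegree).map (algebraMap (𝓞 k) (𝓞 K))) ^ 2 =
      ((Ideal.span {j₀ ^ f.natDegree} * t).map (algebraMap (𝓞 k) (𝓞 K))) ^ 2 *
        c.map (algebraMap (𝓞 k) (𝓞 K)) := by
    calc (Ideal.span {Y} *
          (RefW.denIdealOf x ^ f.natDegree).map (algebraMap (𝓞 k) (𝓞 K))) ^ 2
        = ((Ideal.span {t₁ * j₀ ^ f.natDegree} * RefW.denIdealOf x ^ f.natDegree) *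
            RefW.denIdealOf x ^ f.natDegree).map (algebraMap (𝓞 k) (𝓞 K)) := by
          rw [mul_pow, Ideal.span_singleton_pow, hY2, Ideal.map_mul, Ideal.map_mul,
            Ideal.map_span, Set.image_singleton]
          ring
      _ = (Ideal.span {(j₀ ^ f.natDegree) ^ 2} * (c * t ^ 2)).map
            (algebraMap (𝓞 k) (𝓞 K)) := by
          rw [e1, mul_assoc, hI]
      _ = _ := by
          rw [← Ideal.span_singleton_pow, Ideal.map_mul, Ideal.map_mul, Ideal.map_mul,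
            Ideal.map_pow, Ideal.map_pow]
          ring
  have hinj : Function.Injective (algebraMap (𝓞 k) (𝓞 K)) :=
    FaithfulSMul.algebraMap_injective (𝓞 k) (𝓞 K)
  have hQ0 : (Ideal.span {j₀ ^ f.natDegree} * t).map (algebraMap (𝓞 k) (𝓞 K)) ≠ 0 := by
    intro h
    have h1 : Ideal.span {j₀ ^ f.natDegree} * t = ⊥ :=
      (Ideal.map_eq_bot_iff_of_injective hinj).1 h
    rcases Ideal.mul_eq_bot.1 h1 with h2 | h2
    · rw [Ideal.span_singleton_eq_bot] at h2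
      exact hj₀0 (eq_zero_of_pow_eq_zero h2)
    · exact ht h2
  have hdvd : (Ideal.span {j₀ ^ f.natDegree} * t).map (algebraMap (𝓞 k) (𝓞 K)) ∣
      Ideal.span {Y} * (RefW.denIdealOf x ^ f.natDegree).map (algebraMap (𝓞 k) (𝓞 K)) := by
    refine (UniqueFactorizationMonoid.pow_dvd_pow_iff_dvd two_ne_zero).1 ?_
    rw [hPQ]
    exact dvd_mul_right _ _
  obtain ⟨R, hR⟩ := hdvd
  have hR2 : R ^ 2 = c.map (algebraMap (𝓞 k) (𝓞 K)) := by
    rw [hR, mul_pow] at hPQ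
    exact mul_left_cancel₀ (pow_ne_zero 2 hQ0) hPQ
  exact ⟨disc_ram k K c hsq R hR2, fun h => two_le k K c hsq h R hR2⟩

end Pool.Agent.OnePt
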