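import Pool.Agent.OnePt.Alg

/-!
# The squarefree part of the ideal of a product

HINTS. Constants as in the proof of `SS.disc_ge_aux` (SS/Disc.lean): the factors are nonzero and
pairwise coprime over `k` (see `SS.disc_ge'`), `SS.exists_bezout` gives
`A i j * fs i + B i j * fs j = C (d i j)`, and `b = (∏ leading coefficients) * ∏ ∏ d i j ≠ 0`.
Write `J = denIdealOf x`, `n = (∏ fs i).natDegree = ∑ (fs i).natDegree`, `z i = zf (fs i) x`.

1. `zf (∏ i, fs i) x = ∏ i, z i` (`v J ^ n` is the product of the `v_i J ^ n_i`; show first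
   `zid (u * v) (n + m) x = zid u n x * zid v m x` when the elements `u j`, `v j` are integral, see
   `SS.eval_int`).
2. `b ∈ cs i ⊔ cs j` for `i ≠ j` and `b ∈ cs i ⊔ cinf`: the ideal `cs i ⊔ cs j` divides the
   squarefree `cs i`, so it is squarefree, so it is the product of distinct primes and it is enough
   that `b` lies in every prime ideal `q ≥ cs i ⊔ cs j` (for `⊤` nothing to prove). For such a `q`
   `z i ≤ cs i ≤ q` and `z j ≤ q`. If `J ≤ q` then `SS.lead_mem` gives the leading coefficient, so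
   `b`, in `q`; otherwise choose `j₀ ∈ J`, `j₀ ∉ q` and use `SS.common_mem`. For `cinf` (`J ≤ cinf`)
   use `SS.lead_mem`.
3. With `z i = cs i * t i ^ 2`, `J = cinf * s ^ 2`: if `n` is even, `z * J ^ n` is
   `(∏ cs i) * (..) ^ 2`; if `n` is odd it is `(∏ cs i) * cinf * (..) ^ 2`. It is also `c * t ^ 2`.
   `sq_dvd` (with `X = c`) gives `cs i ∣ c * ∏ (the others)`; also `cs i ∣ c * cs i`; so
   `cs i ∣ c * (cs i ⊔ ∏ others)`, and `b ^ r ∈ cs i ⊔ ∏ others` (`r + 1` = number of ideals), so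
   `cs i ∣ c * span {b} ^ r`; same for `cinf`. `prod_dvd` gives the product, take norms:
   `C = |N b| ^ (r + (r + 1) ^ 2)`.
-/

set_option autoImplicit false

open Polynomial NumberField Module

namespace Pool.Agent.OnePt

section

variable {k : Type} [Field k] [NumberField k]

private theorem fac_int_mul (x : k) (u v : k) (n m : ℕ)
    (hu : ∀ j ∈ (RefW.denIdealOf x) ^ n, ∃ t : 𝓞 k, (t : k) = u * (j : k))
    (hv : ∀ j ∈ (RefW.denIdealOf x) ^ m, ∃ t : 𝓞 k, (t : k) = v * (j : k)) :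
    ∀ j ∈ (RefW.denIdealOf x) ^ n * (RefW.denIdealOf x) ^ m,
      ∃ w ∈ SS.zid u n x * SS.zid v m x, (w : k) = u * v * (j : k) := by
  intro j hj
  refine Submodule.mul_induction_on hj ?_ ?_
  · intro a ha b hb
    obtain ⟨s, hs⟩ := hu a ha
    obtain ⟨t, ht⟩ := hv b hb
    refine ⟨s * t, Ideal.mul_mem_mul ⟨a, ha, hs⟩ ⟨b, hb, ht⟩, ?_⟩
    have e1 : ((s * t : 𝓞 k) : k) = (s : k) * (t : k) := rfl
    have e2 : ((a * b : 𝓞 k) : k) = (a : k) * (b : k) := rfl
    rw [e1, e2, hs, ht]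
    ring
  · rintro a b ⟨s, hs, hs'⟩ ⟨t, ht, ht'⟩
    refine ⟨s + t, Ideal.add_mem _ hs ht, ?_⟩
    have e1 : ((s + t : 𝓞 k) : k) = (s : k) + (t : k) := rfl
    have e2 : ((a + b : 𝓞 k) : k) = (a : k) + (b : k) := rfl
    rw [e1, e2, hs', ht']
    ring

private theorem fac_zid_mul (x : k) (u v : k) (n m : ℕ)
    (hu : ∀ j ∈ (RefW.denIdealOf x) ^ n, ∃ t : 𝓞 k, (t : k) = u * (j : k))
    (hv : ∀ j ∈ (RefW.denIdealOf x) ^ m, ∃ t : 𝓞 k, (t : k) = v * (j : k)) :
    SS.zid (u * v) (n + m) x = SS.zid u n x * SS.zid v m x := by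
  refine le_antisymm ?_ ?_
  · rintro w ⟨j, hj, hw⟩
    rw [pow_add] at hj
    obtain ⟨w', hw', hw''⟩ := fac_int_mul x u v n m hu hv j hj
    have h1 : w = w' := by
      apply RingOfIntegers.ext
      rw [hw, hw'']
    rw [h1]
    exact hw'
  · rw [Ideal.mul_le]
    rintro a ⟨j, hj, ha⟩ b ⟨l, hl, hb⟩
    refine ⟨j * l, ?_, ?_⟩
    · rw [pow_add]
      exact Ideal.mul_mem_mul hj hl
    · have e1 : ((a * b : 𝓞 k) : k) = (a : k) * (b : k) := rfl
      have e2 : ((j * l : 𝓞 k) : k) = (j : k) * (l : k) := rfl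
      rw [e1, e2, ha, hb]
      ring

private theorem fac_zid_prod (x : k) {r : ℕ} (y : Fin r → k) (n : Fin r → ℕ)
    (hy : ∀ i, ∀ j ∈ (RefW.denIdealOf x) ^ n i, ∃ t : 𝓞 k, (t : k) = y i * (j : k))
    (S : Finset (Fin r)) :
    SS.zid (∏ i ∈ S, y i) (∑ i ∈ S, n i) x = ∏ i ∈ S, SS.zid (y i) (n i) x ∧
      ∀ j ∈ (RefW.denIdealOf x) ^ (∑ i ∈ S, n i), ∃ t : 𝓞 k,
        (t : k) = (∏ i ∈ S, y i) * (j : k) := by
  classical
  induction S using Finset.induction_on with
  | empty =>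
    simp only [Finset.prod_empty, Finset.sum_empty]
    constructor
    · rw [Ideal.one_eq_top, eq_top_iff]
      intro w _
      exact ⟨w, by simp, by simp⟩
    · intro j hj
      exact ⟨j, by simp⟩
  | insert a S ha ih =>
    rw [Finset.prod_insert ha, Finset.sum_insert ha, Finset.prod_insert ha]
    refine ⟨?_, ?_⟩
    · rw [fac_zid_mul x _ _ _ _ (hy a) ih.2, ih.1]
    · intro j hj
      rw [pow_add] at hj
      obtain ⟨w, -, hw⟩ := fac_int_mul x _ _ _ _ (hy a) ih.2 j hj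
      exact ⟨w, hw⟩

private theorem fac_mem {R : Type} [CommRing R] [IsDedekindDomain R] (I : Ideal R)
    (hI : Squarefree I) (b : R) (h : ∀ q : Ideal R, q.IsPrime → I ≤ q → b ∈ q) : b ∈ I := by
  have h1 : b ∈ I.radical := by
    rw [Ideal.radical_eq_sInf, Submodule.mem_sInf]
    rintro q ⟨h2, h3⟩
    exact h q h3 h2
  obtain ⟨n, hn⟩ := h1
  rcases Nat.eq_zero_or_pos n with h0 | h0
  · subst h0
    rw [pow_zero] at hn
    rw [(Ideal.eq_top_iff_one I).2 hn]
    exact Submodule.mem_top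
  · have h2 : I ∣ Ideal.span {b} ^ n := by
      rw [Ideal.span_singleton_pow, Ideal.dvd_span_singleton]
      exact hn
    rw [hI.dvd_pow_iff_dvd h0.ne'] at h2
    exact Ideal.dvd_span_singleton.1 h2

private theorem fac_sup {R : Type} [CommRing R] {ι : Type} [DecidableEq ι] (E : Ideal R)
    (e : ι → Ideal R) (b : R) (S : Finset ι) (h : ∀ j ∈ S, b ∈ E ⊔ e j) :
    Ideal.span {b} ^ S.card ≤ E ⊔ ∏ j ∈ S, e j := by
  induction S using Finset.induction_on with
  | empty => simp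
  | insert a S ha ih =>
    rw [Finset.card_insert_of_notMem ha, Finset.prod_insert ha, pow_succ']
    have h1 : Ideal.span {b} ≤ E ⊔ e a := by
      rw [Ideal.span_singleton_le_iff_mem]
      exact h a (Finset.mem_insert_self a S)
    have h2 := ih fun j hj => h j (Finset.mem_insert_of_mem hj)
    refine (Ideal.mul_mono h1 h2).trans ?_
    rw [Ideal.sup_mul, Ideal.mul_sup, Ideal.mul_sup]
    refine sup_le (sup_le ?_ ?_) (sup_le ?_ ?_)
    · exact Ideal.mul_le_left.trans le_sup_left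
    · exact Ideal.mul_le_left.trans le_sup_left
    · exact Ideal.mul_le_right.trans le_sup_left
    · exact le_sup_right

private theorem fac_norm {ι : Type} [Fintype ι] [DecidableEq ι] (e : ι → Ideal (𝓞 k))
    (c T T' : Ideal (𝓞 k)) (b : 𝓞 k) (hb : b ≠ 0) (hc : Squarefree c)
    (he : ∀ i, Squarefree (e i)) (hT' : T' ≠ ⊥) (h : c * T ^ 2 = (∏ i, e i) * T' ^ 2)
    (hbe : ∀ i j, i ≠ j → b ∈ e i ⊔ e j) :
    ∏ i, Ideal.absNorm (e i) ≤ Ideal.absNorm c *
      Ideal.absNorm (Ideal.span {b}) ^ (Fintype.card ι + Fintype.card ι ^ 2) := by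
  have h1 : ∀ i ∈ Finset.univ, e i ∣ c * Ideal.span {b} ^ Fintype.card ι := by
    intro i _
    have h2 : e i ∣ c * ∏ j ∈ Finset.univ.erase i, e j :=
      sq_dvd c T (e i) _ T' (he i) hT' (by
        rw [h, Finset.mul_prod_erase Finset.univ e (Finset.mem_univ i)])
    have h3 : e i ∣ c * (e i ⊔ ∏ j ∈ Finset.univ.erase i, e j) := by
      rw [Ideal.mul_sup, Ideal.dvd_iff_le]
      refine sup_le Ideal.mul_le_right ?_
      exact Ideal.dvd_iff_le.1 h2
    refine h3.trans (mul_dvd_mul_left _ ?_)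
    rw [Ideal.dvd_iff_le]
    refine le_trans (Ideal.pow_le_pow_right ?_) (fac_sup (e i) e b (Finset.univ.erase i) ?_)
    · exact Finset.card_le_univ _
    · intro j hj
      exact hbe i j (Finset.ne_of_mem_erase hj).symm
  have h2 := prod_dvd Finset.univ e c b (Fintype.card ι) h1 fun i _ j _ hij => hbe i j hij
  rw [Finset.card_univ] at h2
  have h3 := map_dvd Ideal.absNorm h2
  rw [map_prod, map_mul, map_pow] at h3
  refine Nat.le_of_dvd (Nat.pos_of_ne_zero (mul_ne_zero ?_ (pow_ne_zero _ ?_))) h3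
  · rw [Ne, Ideal.absNorm_eq_zero_iff]
    exact hc.ne_zero
  · rw [Ne, Ideal.absNorm_eq_zero_iff, Ideal.span_singleton_eq_bot]
    exact hb

end

theorem fac_ge (k : Type) [Field k] [NumberField k] {r : ℕ} (fs : Fin r → (𝓞 k)[X])
    (hsq : Squarefree ((∏ i, fs i).map (algebraMap (𝓞 k) k))) : ∃ C : ℝ, 1 ≤ C ∧
    ∀ x : k, aeval x ((∏ i, fs i).map (algebraMap (𝓞 k) k)) ≠ 0 →
      ∀ (c cinf : Ideal (𝓞 k)) (cs : Fin r → Ideal (𝓞 k)),
        Od (SS.zf (∏ i, fs i) x * RefW.denIdealOf x ^ (∏ i, fs i).natDegree) c →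
        (∀ i, Od (SS.zf (fs i) x) (cs i)) → Od (RefW.denIdealOf x) cinf →
        (∏ i, (Ideal.absNorm (cs i) : ℝ)) ≤ C * Ideal.absNorm c ∧
        (Odd (∏ i, fs i).natDegree →
          (∏ i, (Ideal.absNorm (cs i) : ℝ)) * Ideal.absNorm cinf ≤ C * Ideal.absNorm c) := by
  classical
  have hne : ∀ i, fs i ≠ 0 := by
    intro i h
    apply hsq.ne_zero
    rw [Finset.prod_eq_zero (Finset.mem_univ i) h, Polynomial.map_zero]
  have hco : ∀ i j, i ≠ j → IsCoprime ((fs i).map (algebraMap (𝓞 k) k))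
      ((fs j).map (algebraMap (𝓞 k) k)) := by
    intro i j hij
    have h1 : fs i * fs j ∣ ∏ i, fs i := by
      rw [← Finset.mul_prod_erase Finset.univ fs (Finset.mem_univ i)]
      exact mul_dvd_mul_left _ (Finset.dvd_prod_of_mem fs
        (Finset.mem_erase.2 ⟨Ne.symm hij, Finset.mem_univ j⟩))
    have h2 := hsq.squarefree_of_dvd (Polynomial.map_dvd (algebraMap (𝓞 k) k) h1)
    rw [Polynomial.map_mul] at h2
    exact (IsRelPrime.of_squarefree_mul h2).isCoprime
  -- the constants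
  have hbez : ∀ i j : Fin r, ∃ (A B : (𝓞 k)[X]) (d : 𝓞 k), d ≠ 0 ∧
      (i ≠ j → A * fs i + B * fs j = C d) := by
    intro i j
    by_cases hij : i = j
    · exact ⟨0, 0, 1, one_ne_zero, fun h => absurd hij h⟩
    · obtain ⟨A, B, d, hd, h⟩ := SS.exists_bezout (fs i) (fs j) (hco i j hij)
      exact ⟨A, B, d, hd, fun _ => h⟩
  choose A B d hd hAB using hbez
  set b : 𝓞 k := (∏ i, (fs i).leadingCoeff) * ∏ i, ∏ j, d i j with hb
  have hb0 : b ≠ 0 := by
    refine mul_ne_zero (Finset.prod_ne_zero_iff.2 fun i _ => leadingCoeff_ne_zero.2 (hne i)) ?_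
    exact Finset.prod_ne_zero_iff.2 fun i _ => Finset.prod_ne_zero_iff.2 fun j _ => hd i j
  have hbl : ∀ i, (fs i).leadingCoeff ∣ b := fun i =>
    (Finset.dvd_prod_of_mem (fun i => (fs i).leadingCoeff) (Finset.mem_univ i)).mul_right _
  have hbd : ∀ i j, i ≠ j → d i j ∣ b := fun i j _ =>
    ((Finset.dvd_prod_of_mem (fun j => d i j) (Finset.mem_univ j)).trans
      (Finset.dvd_prod_of_mem (fun i => ∏ j, d i j) (Finset.mem_univ i))).mul_left _
  set Nb : ℕ := Ideal.absNorm (Ideal.span {b}) with hNb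
  have hNb1 : 1 ≤ Nb := by
    rw [Nat.one_le_iff_ne_zero, hNb, Ne, Ideal.absNorm_eq_zero_iff, Ideal.span_singleton_eq_bot]
    exact hb0
  refine ⟨(Nb : ℝ) ^ ((r + 1) + (r + 1) ^ 2), ?_, ?_⟩
  · exact one_le_pow₀ (by exact_mod_cast hNb1)
  intro x _ c cinf cs hc hcs hcinf
  have hJ0 : RefW.denIdealOf x ≠ ⊥ := (RefW.denIdeal_norm_le x).1
  obtain ⟨hc1, T, hT0, hT⟩ := hc
  obtain ⟨hi1, s, hs0, hs⟩ := hcinf
  choose hcs1 t ht0 ht using hcs
  -- the primes
  have hzle : ∀ i, SS.zf (fs i) x ≤ cs i := by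
    intro i
    rw [ht i]
    exact Ideal.mul_le_left
  have hJle : RefW.denIdealOf x ≤ cinf := by
    rw [hs]
    exact Ideal.mul_le_left
  have hb1 : ∀ i, ∀ q : Ideal (𝓞 k), q.IsPrime → RefW.denIdealOf x ≤ q → cs i ≤ q → b ∈ q := by
    intro i q hq h1 h2
    have := hq
    have h3 : (fs i).leadingCoeff ∈ q := SS.lead_mem (fs i) x q h1 ((hzle i).trans h2)
    exact Ideal.mem_of_dvd _ (hbl i) h3
  have hbij : ∀ i j, i ≠ j → b ∈ cs i ⊔ cs j := by
    intro i j hij
    have hsf : Squarefree (cs i ⊔ cs j) :=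
      (hcs1 i).squarefree_of_dvd (Ideal.dvd_iff_le.2 le_sup_left)
    refine fac_mem _ hsf b fun q hq hle => ?_
    have hi : cs i ≤ q := le_sup_left.trans hle
    have hj : cs j ≤ q := le_sup_right.trans hle
    by_cases hJ : RefW.denIdealOf x ≤ q
    · exact hb1 i q hq hJ hi
    · obtain ⟨j₀, hj₀, hj₀q⟩ := SetLike.not_le_iff_exists.1 hJ
      obtain ⟨u, hu⟩ := SS.eval_int (fs i) x _ le_rfl _ (Ideal.pow_mem_pow hj₀ _)
      obtain ⟨v, hv⟩ := SS.eval_int (fs j) x _ le_rfl _ (Ideal.pow_mem_pow hj₀ _)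
      have huq : u ∈ q := hi (hzle i ⟨j₀ ^ (fs i).natDegree, Ideal.pow_mem_pow hj₀ _, hu⟩)
      have hvq : v ∈ q := hj (hzle j ⟨j₀ ^ (fs j).natDegree, Ideal.pow_mem_pow hj₀ _, hv⟩)
      have h3 : d i j ∈ q := SS.common_mem (fs i) (fs j) (A i j) (B i j) (d i j) (hAB i j hij)
        x q j₀ hj₀ hj₀q _ _ u v hu hv huq hvq
      exact Ideal.mem_of_dvd _ (hbd i j hij) h3
  have hbinf : ∀ i, b ∈ cs i ⊔ cinf := by
    intro i
    have hsf : Squarefree (cs i ⊔ cinf) :=
      (hcs1 i).squarefree_of_dvd (Ideal.dvd_iff_le.2 le_sup_left)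
    refine fac_mem _ hsf b fun q hq hle => ?_
    exact hb1 i q hq (hJle.trans (le_sup_right.trans hle)) (le_sup_left.trans hle)
  -- the product formula
  have hdeg : (∏ i, fs i).natDegree = ∑ i, (fs i).natDegree :=
    natDegree_prod _ _ fun i _ => hne i
  have hz : SS.zf (∏ i, fs i) x = ∏ i, SS.zf (fs i) x := by
    have h1 := (fac_zid_prod x (fun i => aeval x ((fs i).map (algebraMap (𝓞 k) k)))
      (fun i => (fs i).natDegree) (fun i => SS.eval_int (fs i) x _ le_rfl) Finset.univ).1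
    change SS.zid (aeval x ((∏ i, fs i).map (algebraMap (𝓞 k) k))) (∏ i, fs i).natDegree x = _
    rw [hdeg, Polynomial.map_prod, map_prod]
    exact h1
  have hz' : SS.zf (∏ i, fs i) x = (∏ i, cs i) * (∏ i, t i) ^ 2 := by
    rw [hz, ← Finset.prod_pow, ← Finset.prod_mul_distrib]
    exact Finset.prod_congr rfl fun i _ => ht i
  have ht0' : ∏ i, t i ≠ ⊥ := Finset.prod_ne_zero_iff.2 fun i _ => ht0 i
  have hcpos : (0 : ℝ) ≤ Ideal.absNorm c := Nat.cast_nonneg _
  have hNbR : (1 : ℝ) ≤ Nb := by exact_mod_cast hNb1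
  rcases Nat.even_or_odd' (∏ i, fs i).natDegree with ⟨m, hm | hm⟩
  · -- even degree
    have h1 : c * T ^ 2 = (∏ i, cs i) * ((∏ i, t i) * RefW.denIdealOf x ^ m) ^ 2 := by
      rw [← hT, hz', hm]
      ring
    have h2 := fac_norm cs c T ((∏ i, t i) * RefW.denIdealOf x ^ m) b hb0 hc1 hcs1
      (mul_ne_zero ht0' (pow_ne_zero _ hJ0)) h1 hbij
    rw [Fintype.card_fin, ← hNb] at h2
    refine ⟨?_, fun hodd => ?_⟩
    · have h3 : (∏ i, (Ideal.absNorm (cs i) : ℝ)) ≤
          Ideal.absNorm c * (Nb : ℝ) ^ (r + r ^ 2) := by exact_mod_cast h2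
      refine h3.trans ?_
      rw [mul_comm]
      refine mul_le_mul_of_nonneg_right (pow_le_pow_right₀ hNbR ?_) hcpos
      nlinarith
    · rw [hm] at hodd
      exact absurd hodd (by simp)
  · -- odd degree
    have h1 : c * T ^ 2 = (∏ i : Option (Fin r), Option.elim i cinf cs) *
        ((∏ i, t i) * s * RefW.denIdealOf x ^ m) ^ 2 := by
      rw [Fintype.prod_option]
      simp only [Option.elim]
      have h3 : RefW.denIdealOf x ^ (2 * m + 1) =
          cinf * s ^ 2 * RefW.denIdealOf x ^ (2 * m) := by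
        rw [← hs, pow_succ']
      rw [← hT, hz', hm, h3]
      ring
    have h2 := fac_norm (fun i : Option (Fin r) => Option.elim i cinf cs) c T
      ((∏ i, t i) * s * RefW.denIdealOf x ^ m) b hb0 hc1 (by
        rintro (_ | i)
        · exact hi1
        · exact hcs1 i)
      (mul_ne_zero (mul_ne_zero ht0' hs0) (pow_ne_zero _ hJ0)) h1 (by
        rintro (_ | i) (_ | j) hij
        · exact absurd rfl hij
        · rw [sup_comm]
          exact hbinf j
        · exact hbinf i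
        · exact hbij i j fun h => hij (by rw [h]))
    rw [Fintype.prod_option, Fintype.card_option, Fintype.card_fin, ← hNb] at h2
    simp only [Option.elim] at h2
    have h3 : (∏ i, (Ideal.absNorm (cs i) : ℝ)) * Ideal.absNorm cinf ≤
        (Nb : ℝ) ^ ((r + 1) + (r + 1) ^ 2) * Ideal.absNorm c := by
      rw [mul_comm, mul_comm ((Nb : ℝ) ^ _)]
      exact_mod_cast h2
    refine ⟨le_trans ?_ h3, fun _ => h3⟩
    have h4 : (1 : ℝ) ≤ Ideal.absNorm cinf := by
      have h5 : Ideal.absNorm cinf ≠ 0 := by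
        rw [Ne, Ideal.absNorm_eq_zero_iff]
        exact hi1.ne_zero
      exact_mod_cast Nat.one_le_iff_ne_zero.2 h5
    exact le_mul_of_one_le_right (Finset.prod_nonneg fun i _ => Nat.cast_nonneg _) h4

end Pool.Agent.OnePt
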