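import Pool.Agent.OnePt.Index
import Pool.Agent.OnePt.Cells

/-!
# The number of points with `(c x - θ) J` in a given ideal

HINTS. Let `x ≠ x'` be in the set, `J, J'` the denominator ideals, `cc = w.comap` (an ideal of `𝓞 k`).
For `j ∈ J`, `j' ∈ J'` the number `c (x - x') j j'` lies in `cc` (it is integral and in `𝓞 M` equal
to `j' ((c x - θ) j) - j ((c x' - θ) j')`). So the ideal `I = c (x - x') J J'` of `𝓞 k` (integral:
`SS.zid`-like set; or use fractional ideals) is contained in `cc`, nonzero, so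
`absNorm cc ≤ absNorm I = |N c| |N (x - x')| absNorm J absNorm J'` (compare `SS.absNorm_zid`), and by
`SS.height_den` (`H(x) = absNorm J * ∏ max 1 ‖σ x‖`)
`absNorm cc ≤ |N c| H(x) H(x') ∏ ‖σ (x - x')‖ / (∏ max 1 ‖σ x‖ max 1 ‖σ x'‖)`. With
`cells` for `ρ = min 1 (absNorm cc / (2 |N c| B ^ 2))` two points in the same cell are equal, so
the number of points is at most `C / ρ ≤ C (1 + 2 |N c| B ^ 2 / absNorm cc)`, and
`absNorm w ≤ C' absNorm cc` by `index_le` (if there is no point there is nothing to prove).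
-/

set_option autoImplicit false

open Polynomial NumberField Module Height

namespace Pool.Agent.OnePt

section

variable {L : Type} [Field L] [NumberField L]

/-- the multiples of `y` in the ring of integers -/
private def gapIdeal (y : L) (I : Ideal (𝓞 L)) : Ideal (𝓞 L) where
  carrier := {w | ∃ j ∈ I, (w : L) = y * (j : L)}
  add_mem' := by
    rintro a b ⟨s, hs, hs'⟩ ⟨t, ht, ht'⟩
    refine ⟨s + t, Ideal.add_mem _ hs ht, ?_⟩
    have e1 : ((s + t : 𝓞 L) : L) = (s : L) + (t : L) := rfl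
    have e2 : ((a + b : 𝓞 L) : L) = (a : L) + (b : L) := rfl
    rw [e1, e2, hs', ht']
    ring
  zero_mem' := ⟨0, Ideal.zero_mem _, by simp⟩
  smul_mem' := by
    rintro c b ⟨t, ht, ht'⟩
    refine ⟨c * t, Ideal.mul_mem_left _ _ ht, ?_⟩
    have e1 : ((c * t : 𝓞 L) : L) = (c : L) * (t : L) := rfl
    have e2 : ((c • b : 𝓞 L) : L) = (c : L) * (b : L) := rfl
    rw [e1, e2, ht']
    ring

open scoped nonZeroDivisors in
private theorem gap_absNorm (y : L) (I : Ideal (𝓞 L))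
    (hint : ∀ j ∈ I, ∃ t : 𝓞 L, (t : L) = y * (j : L)) :
    (Ideal.absNorm (gapIdeal y I) : ℚ) = |Algebra.norm ℚ y| * (Ideal.absNorm I : ℚ) := by
  have h1 : ((gapIdeal y I : Ideal (𝓞 L)) : FractionalIdeal (𝓞 L)⁰ L) =
      FractionalIdeal.spanSingleton (𝓞 L)⁰ y *
        ((I : Ideal (𝓞 L)) : FractionalIdeal (𝓞 L)⁰ L) := by
    ext z
    rw [FractionalIdeal.mem_coeIdeal, FractionalIdeal.mem_singleton_mul]
    constructor
    · rintro ⟨w, ⟨j, hj, hw⟩, rfl⟩
      exact ⟨j, (FractionalIdeal.mem_coeIdeal _).2 ⟨j, hj, rfl⟩, hw⟩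
    · rintro ⟨z', hz', rfl⟩
      obtain ⟨j, hj, rfl⟩ := (FractionalIdeal.mem_coeIdeal _).1 hz'
      obtain ⟨t, ht⟩ := hint j hj
      exact ⟨t, ⟨j, hj, ht⟩, ht⟩
  have h2 := congrArg FractionalIdeal.absNorm h1
  rw [map_mul, FractionalIdeal.coeIdeal_absNorm, FractionalIdeal.coeIdeal_absNorm,
    FractionalIdeal.absNorm_span_singleton] at h2
  exact h2

private theorem gap_prod_norm (y : L) :
    ∏ σ : L →+* ℂ, ‖σ y‖ = ((|Algebra.norm ℚ y| : ℚ) : ℝ) := by
  have h4 := InfinitePlace.prod_eq_abs_norm y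
  rw [RefW.denIdeal_prod_infinite L (fun v => v y)] at h4
  simp only [InfinitePlace.apply] at h4
  exact h4

/-- an ideal which contains all multiples -/
private theorem gap_le (y : L) (hy : y ≠ 0) (I cc : Ideal (𝓞 L)) (hI : I ≠ ⊥)
    (h : ∀ j ∈ I, ∃ t ∈ cc, (t : L) = y * (j : L)) :
    (Ideal.absNorm cc : ℝ) ≤ (∏ σ : L →+* ℂ, ‖σ y‖) * Ideal.absNorm I := by
  have h1 := gap_absNorm y I fun j hj => by
    obtain ⟨t, -, ht⟩ := h j hj
    exact ⟨t, ht⟩
  have hle : gapIdeal y I ≤ cc := by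
    rintro w ⟨j, hj, hw⟩
    obtain ⟨t, ht, ht'⟩ := h j hj
    have : w = t := RingOfIntegers.ext (by rw [hw]; exact ht'.symm)
    rw [this]
    exact ht
  have hN : (Algebra.norm ℚ y) ≠ 0 := by
    rw [Ne, Algebra.norm_eq_zero_iff]
    exact hy
  have hI0 : Ideal.absNorm I ≠ 0 := by
    rw [Ne, Ideal.absNorm_eq_zero_iff]
    exact hI
  have hpos : 0 < Ideal.absNorm (gapIdeal y I) := by
    have h2 : (0 : ℚ) < Ideal.absNorm (gapIdeal y I) := by
      rw [h1]
      exact mul_pos (abs_pos.2 hN) (by exact_mod_cast Nat.pos_of_ne_zero hI0)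
    exact_mod_cast h2
  have h3 : Ideal.absNorm cc ≤ Ideal.absNorm (gapIdeal y I) :=
    Nat.le_of_dvd hpos (Ideal.absNorm_dvd_absNorm_of_le hle)
  have h4 : (Ideal.absNorm cc : ℝ) ≤ Ideal.absNorm (gapIdeal y I) := by exact_mod_cast h3
  refine h4.trans (le_of_eq ?_)
  have h5 := congrArg (fun z : ℚ => (z : ℝ)) h1
  simp only [Rat.cast_natCast, Rat.cast_mul] at h5
  rw [h5, gap_prod_norm]

end

/-- two points of the set -/
private theorem gap_two {k M : Type} [Field k] [NumberField k] [Field M] [NumberField M]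
    [Algebra k M] (c : 𝓞 k) (hc : c ≠ 0) (θ : 𝓞 M) (w : Ideal (𝓞 M)) {x x' : k} (hne : x ≠ x')
    (hx : ax c θ x ≤ w) (hx' : ax c θ x' ≤ w) :
    (Ideal.absNorm (w.comap (algebraMap (𝓞 k) (𝓞 M))) : ℝ) ≤
      (∏ σ : k →+* ℂ, ‖σ (c : k)‖) * (∏ σ : k →+* ℂ, ‖σ (x - x')‖) *
        ((Ideal.absNorm (RefW.denIdealOf x) : ℝ) * Ideal.absNorm (RefW.denIdealOf x')) := by
  have hcK : (c : k) ≠ 0 := by
    intro h
    exact hc (by exact_mod_cast h)
  have hJ : RefW.denIdealOf x ≠ ⊥ := (RefW.denIdeal_norm_le x).1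
  have hJ' : RefW.denIdealOf x' ≠ ⊥ := (RefW.denIdeal_norm_le x').1
  have hy : (c : k) * (x - x') ≠ 0 := mul_ne_zero hcK (sub_ne_zero.2 hne)
  have key := gap_le ((c : k) * (x - x')) hy (RefW.denIdealOf x * RefW.denIdealOf x')
    (w.comap (algebraMap (𝓞 k) (𝓞 M))) (by
      intro h
      rcases Ideal.mul_eq_bot.1 h with h | h
      · exact hJ h
      · exact hJ' h) (by
    intro u hu
    refine Submodule.mul_induction_on hu ?_ ?_
    · intro j hj j' hj'
      obtain ⟨s, hs⟩ := hj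
      obtain ⟨s', hs'⟩ := hj'
      refine ⟨c * (s * j' - s' * j), ?_, ?_⟩
      · rw [Ideal.mem_comap]
        have hA : algebraMap (𝓞 k) (𝓞 M) (c * s) - θ * algebraMap (𝓞 k) (𝓞 M) j ∈ w := by
          refine hx (Ideal.subset_span ⟨j, ⟨s, hs⟩, ?_⟩)
          have e1 : ((algebraMap (𝓞 k) (𝓞 M) (c * s) - θ * algebraMap (𝓞 k) (𝓞 M) j : 𝓞 M) : M)
              = algebraMap k M ((c : k) * (s : k)) - (θ : M) * algebraMap k M (j : k) := rfl
          rw [e1, hs, map_mul, map_mul, map_mul]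
          ring
        have hA' : algebraMap (𝓞 k) (𝓞 M) (c * s') - θ * algebraMap (𝓞 k) (𝓞 M) j' ∈ w := by
          refine hx' (Ideal.subset_span ⟨j', ⟨s', hs'⟩, ?_⟩)
          have e1 : ((algebraMap (𝓞 k) (𝓞 M) (c * s') - θ * algebraMap (𝓞 k) (𝓞 M) j' : 𝓞 M)
              : M) = algebraMap k M ((c : k) * (s' : k)) - (θ : M) * algebraMap k M (j' : k) :=
            rfl
          rw [e1, hs', map_mul, map_mul, map_mul]
          ring
        have hsum := Ideal.sub_mem _ (Ideal.mul_mem_left w (algebraMap (𝓞 k) (𝓞 M) j') hA)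
          (Ideal.mul_mem_left w (algebraMap (𝓞 k) (𝓞 M) j) hA')
        have he : algebraMap (𝓞 k) (𝓞 M) (c * (s * j' - s' * j)) =
            algebraMap (𝓞 k) (𝓞 M) j' *
              (algebraMap (𝓞 k) (𝓞 M) (c * s) - θ * algebraMap (𝓞 k) (𝓞 M) j) -
            algebraMap (𝓞 k) (𝓞 M) j *
              (algebraMap (𝓞 k) (𝓞 M) (c * s') - θ * algebraMap (𝓞 k) (𝓞 M) j') := by
          simp only [map_mul, map_sub]
          ring
        rw [he]
        exact hsum
      · have e1 : ((c * (s * j' - s' * j) : 𝓞 k) : k) =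
            (c : k) * ((s : k) * (j' : k) - (s' : k) * (j : k)) := rfl
        have e2 : ((j * j' : 𝓞 k) : k) = (j : k) * (j' : k) := rfl
        rw [e1, e2, hs, hs']
        ring
    · rintro a b ⟨s, hs, hs'⟩ ⟨t, ht, ht'⟩
      refine ⟨s + t, Ideal.add_mem _ hs ht, ?_⟩
      have e1 : ((s + t : 𝓞 k) : k) = (s : k) + (t : k) := rfl
      have e2 : ((a + b : 𝓞 k) : k) = (a : k) + (b : k) := rfl
      rw [e1, e2, hs', ht']
      ring)
  rw [map_mul Ideal.absNorm] at key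
  push_cast at key
  refine key.trans (le_of_eq ?_)
  congr 1
  rw [← Finset.prod_mul_distrib]
  refine Finset.prod_congr rfl fun σ _ => ?_
  rw [map_mul, norm_mul]

theorem gap (k M : Type) [Field k] [NumberField k] [Field M] [NumberField M] [Algebra k M]
    (c : 𝓞 k) (hc : c ≠ 0) (θ : 𝓞 M) (hθ : IntermediateField.adjoin k {(θ : M)} = ⊤) :
    ∃ C : ℝ, 0 ≤ C ∧ ∀ B : ℝ, 1 ≤ B → ∀ w : Ideal (𝓞 M), w ≠ ⊥ →
      ({x : k | mulHeight₁ x ≤ B ∧ ax c θ x ≤ w}.ncard : ℝ) ≤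
        C * (B ^ 2 / Ideal.absNorm w + 1) := by
  obtain ⟨C0, hC0, hind⟩ := index_le k M c hc θ hθ
  obtain ⟨C1, hC1, hcell⟩ := cells k
  have hcK : (c : k) ≠ 0 := by
    intro h
    exact hc (by exact_mod_cast h)
  set Nc : ℝ := ∏ σ : k →+* ℂ, ‖σ (c : k)‖ with hNc
  have hNc0 : 0 < Nc := Finset.prod_pos fun σ _ => norm_pos_iff.2 ((map_ne_zero σ).2 hcK)
  have hC0' : (0 : ℝ) < C0 := by exact_mod_cast hC0
  refine ⟨C1 * (1 + 2 * Nc * C0), by positivity, fun B hB w hw => ?_⟩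
  have hwpos : (0 : ℝ) < Ideal.absNorm w := by
    have h1 : Ideal.absNorm w ≠ 0 := by
      rw [Ne, Ideal.absNorm_eq_zero_iff]
      exact hw
    exact_mod_cast Nat.pos_of_ne_zero h1
  have hB0 : 0 < B := by linarith
  rcases Set.eq_empty_or_nonempty {x : k | mulHeight₁ x ≤ B ∧ ax c θ x ≤ w} with he | ⟨x0, hx0⟩
  · rw [he, Set.ncard_empty]
    push_cast
    positivity
  · have hwa : (Ideal.absNorm w : ℝ) ≤
        C0 * Ideal.absNorm (w.comap (algebraMap (𝓞 k) (𝓞 M))) := by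
      exact_mod_cast hind x0 w hw hx0.2
    set a : ℝ := (Ideal.absNorm (w.comap (algebraMap (𝓞 k) (𝓞 M))) : ℝ) with ha
    have ha0 : 0 < a := by
      by_contra hcon
      push Not at hcon
      have : (C0 : ℝ) * a ≤ 0 := mul_nonpos_of_nonneg_of_nonpos hC0'.le hcon
      linarith
    have hD : 0 < 2 * Nc * B ^ 2 := by positivity
    set ρ : ℝ := min 1 (a / (2 * Nc * B ^ 2)) with hρ
    have hρ0 : 0 < ρ := lt_min one_pos (div_pos ha0 hD)
    have hρ1 : ρ ≤ 1 := min_le_left _ _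
    have hρ2 : ρ ≤ a / (2 * Nc * B ^ 2) := min_le_right _ _
    obtain ⟨N, F, hN, hF⟩ := hcell ρ hρ0 hρ1
    have hinj : Set.InjOn F {x : k | mulHeight₁ x ≤ B ∧ ax c θ x ≤ w} := by
      intro x hx x' hx' hFx
      by_contra hne
      have h1 := gap_two c hc θ w hne hx.2 hx'.2
      rw [← ha, ← hNc] at h1
      have h2 := hF x x' hFx
      have hHx := SS.height_den x
      have hHx' := SS.height_den x'
      set n1 : ℝ := (Ideal.absNorm (RefW.denIdealOf x) : ℝ) with hn1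
      set n2 : ℝ := (Ideal.absNorm (RefW.denIdealOf x') : ℝ) with hn2
      have hn10 : 0 ≤ n1 := Nat.cast_nonneg _
      have hn20 : 0 ≤ n2 := Nat.cast_nonneg _
      rw [Finset.prod_mul_distrib] at h2
      set m1 : ℝ := ∏ σ : k →+* ℂ, max 1 ‖σ x‖ with hm1
      set m2 : ℝ := ∏ σ : k →+* ℂ, max 1 ‖σ x'‖ with hm2
      have hm10 : 0 ≤ m1 := Finset.prod_nonneg fun σ _ => le_trans zero_le_one (le_max_left _ _)
      have hm20 : 0 ≤ m2 := Finset.prod_nonneg fun σ _ => le_trans zero_le_one (le_max_left _ _)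
      have hxB : n1 * m1 ≤ B := by rw [← hHx]; exact hx.1
      have hxB' : n2 * m2 ≤ B := by rw [← hHx']; exact hx'.1
      have h3 : (n1 * m1) * (n2 * m2) ≤ B * B :=
        mul_le_mul hxB hxB' (mul_nonneg hn20 hm20) hB0.le
      have h4 : a ≤ Nc * (ρ * (m1 * m2)) * (n1 * n2) := by
        refine h1.trans ?_
        exact mul_le_mul_of_nonneg_right (mul_le_mul_of_nonneg_left h2 hNc0.le)
          (mul_nonneg hn10 hn20)
      have h5 : Nc * (ρ * (m1 * m2)) * (n1 * n2) = Nc * ρ * ((n1 * m1) * (n2 * m2)) := by ring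
      have h6 : Nc * ρ * ((n1 * m1) * (n2 * m2)) ≤ Nc * ρ * (B * B) :=
        mul_le_mul_of_nonneg_left h3 (mul_nonneg hNc0.le hρ0.le)
      have h7 : Nc * ρ * (B * B) ≤ a / 2 := by
        have h8 : Nc * ρ * (B * B) ≤ Nc * (a / (2 * Nc * B ^ 2)) * (B * B) :=
          mul_le_mul_of_nonneg_right (mul_le_mul_of_nonneg_left hρ2 hNc0.le) (by positivity)
        refine h8.trans (le_of_eq ?_)
        field_simp
      linarith
    have hcard : {x : k | mulHeight₁ x ≤ B ∧ ax c θ x ≤ w}.ncard ≤ N := by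
      rw [← hinj.ncard_image]
      refine (Set.ncard_le_ncard (Set.subset_univ _) Set.finite_univ).trans ?_
      rw [Set.ncard_univ, Nat.card_fin]
    have hinv : 1 / ρ ≤ 1 + 2 * Nc * B ^ 2 / a := by
      rw [hρ]
      rcases le_total 1 (a / (2 * Nc * B ^ 2)) with h | h
      · rw [min_eq_left h, div_one]
        have : 0 ≤ 2 * Nc * B ^ 2 / a := by positivity
        linarith
      · rw [min_eq_right h, one_div_div]
        linarith
    have hainv : B ^ 2 / a ≤ C0 * (B ^ 2 / Ideal.absNorm w) := by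
      rw [← mul_div_assoc, div_le_div_iff₀ ha0 hwpos]
      have := mul_le_mul_of_nonneg_left hwa (by positivity : (0 : ℝ) ≤ B ^ 2)
      linarith
    have hq : 0 ≤ B ^ 2 / (Ideal.absNorm w : ℝ) := by positivity
    calc ({x : k | mulHeight₁ x ≤ B ∧ ax c θ x ≤ w}.ncard : ℝ) ≤ N := by exact_mod_cast hcard
      _ ≤ C1 / ρ := hN
      _ = C1 * (1 / ρ) := by ring
      _ ≤ C1 * (1 + 2 * Nc * B ^ 2 / a) := mul_le_mul_of_nonneg_left hinv (by linarith)
      _ = C1 * (1 + 2 * Nc * (B ^ 2 / a)) := by ring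
      _ ≤ C1 * (1 + 2 * Nc * (C0 * (B ^ 2 / Ideal.absNorm w))) := by
          refine mul_le_mul_of_nonneg_left ?_ (by linarith)
          have := mul_le_mul_of_nonneg_left hainv (by positivity : (0 : ℝ) ≤ 2 * Nc)
          linarith
      _ ≤ C1 * (1 + 2 * Nc * C0) * (B ^ 2 / Ideal.absNorm w + 1) := by
          rw [mul_assoc C1]
          refine mul_le_mul_of_nonneg_left ?_ (by linarith)
          have h9 : 0 ≤ 2 * Nc * C0 := by positivity
          nlinarith

end Pool.Agent.OnePt
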