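import Pool.Agent.OnePt.Defs
import Pool.Agent.SFD.GoodX

/-!
# The norm of the ideal of the value at a point over `k`
-/

set_option autoImplicit false

open Polynomial NumberField IntermediateField Module Height

namespace Pool.Agent.OnePt

section

variable {k : Type} [Field k] [NumberField k]

/-- the proximity of a point over `k` at the infinite places -/
theorem proximity_k (p : Fin 0 → ℕ) [∀ t, Fact (p t).Prime] (g : k[X]) (q : ℕ) (x : k)
    (hx : aeval x g ≠ 0) :
    finrank ℚ k * AA.proximity p g q (algebraMap k (AlgebraicClosure k) x) =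
      ∑ σ : k →+* ℂ, (q * Real.log (max 1 ‖σ x‖) - Real.log ‖σ (aeval x g)‖) := by
  set z : AlgebraicClosure k := algebraMap k (AlgebraicClosure k) x with hz
  set L := IntermediateField.adjoin k {z} with hL
  have hgen : AdjoinSimple.gen k z = algebraMap k L x := Subtype.ext (by
        rw [IntermediateField.AdjoinSimple.coe_gen]
        rfl)
  have hfr : finrank k L = 1 := TW.finrank_of_algebraMap x
  have hfrQ : finrank ℚ L = finrank ℚ k := by
    have := finrank_mul_finrank ℚ k L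
    rw [hfr, mul_one] at this
    exact this.symm
  have hbij : Function.Bijective (algebraMap k L) := by
    refine ⟨(algebraMap k L).injective, ?_⟩
    have h1 : (⊥ : Subalgebra k L) = ⊤ := Subalgebra.bot_eq_top_of_finrank_eq_one hfr
    intro w
    have h2 : w ∈ (⊥ : Subalgebra k L) := by
      rw [h1]
      trivial
    obtain ⟨u, hu⟩ := h2
    exact ⟨u, hu⟩
  let e : k ≃+* L := RingEquiv.ofBijective (algebraMap k L) hbij
  let E : (L →+* ℂ) ≃ (k →+* ℂ) :=
    { toFun := fun σ => σ.comp (e : k →+* L)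
      invFun := fun σ => σ.comp (e.symm : L →+* k)
      left_inv := fun σ => by
        ext w
        simp
      right_inv := fun σ => by
        ext w
        simp }
  have hn : (finrank ℚ k : ℝ) ≠ 0 := by
    have : 0 < finrank ℚ k := finrank_pos
    exact_mod_cast this.ne'
  unfold AA.proximity SST.proxK
  rw [hfrQ, mul_div_cancel₀ _ hn, Finset.univ_eq_empty (α := Fin 0), Finset.sum_empty, add_zero]
  refine Fintype.sum_equiv E _ _ fun σ => ?_
  have h1 : ∀ u : k, (E σ) u = σ (algebraMap k L u) := fun u => rfl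
  rw [hgen, aeval_algebraMap_apply, h1, h1]
  have h3 : (0 : ℝ) < max 1 ‖σ (algebraMap k L x)‖ := lt_of_lt_of_le one_pos (le_max_left _ _)
  rw [Real.log_div (by
    rw [norm_ne_zero_iff]
    exact (map_ne_zero σ).2 ((_root_.map_ne_zero _).2 hx)) (by positivity), Real.log_pow]
  ring

/-- the height of a point over `k` -/
theorem height_k (x : k) : finrank ℚ k * AA.height (algebraMap k (AlgebraicClosure k) x) =
    logHeight₁ x := by
  rw [TW.height_algebraMap]
  have hn : (finrank ℚ k : ℝ) ≠ 0 := by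
    have : 0 < finrank ℚ k := finrank_pos
    exact_mod_cast this.ne'
  field_simp

theorem relHeight_k (x : k) : AA.relHeight (algebraMap k (AlgebraicClosure k) x) =
    Real.exp (logHeight₁ x) := by
  rw [SFD.relHeight_eq _ 1 (TW.finrank_of_algebraMap x), Nat.cast_one, mul_one, height_k]

/-- the elements of small height are finitely many -/
theorem finite_k (T : ℝ) : {x : k | logHeight₁ x ≤ T}.Finite :=
  NumberField.finite_setOfPred_logHeight₁_le k T

/-- the values have integral multiples -/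
theorem hint_k (φ : (𝓞 k)[X]) (x : k) : ∀ j ∈ (RefW.denIdealOf x) ^ φ.natDegree,
    ∃ t : 𝓞 k, (t : k) = aeval x (φ.map (algebraMap (𝓞 k) k)) * (j : k) := by
  intro j hj
  obtain ⟨t, ht⟩ := SS.eval_integral (x := x) φ.natDegree φ le_rfl j hj
  refine ⟨t, ?_⟩
  rw [ht, aeval_map_algebraMap]

/-- the logarithm of the norm of the ideal of the value -/
theorem log_zf (p : Fin 0 → ℕ) [∀ t, Fact (p t).Prime] (φ : (𝓞 k)[X]) (x : k)
    (hx : aeval x (φ.map (algebraMap (𝓞 k) k)) ≠ 0) :
    Real.log (Ideal.absNorm (SS.zf φ x)) = φ.natDegree * logHeight₁ x -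
      finrank ℚ k * AA.proximity p (φ.map (algebraMap (𝓞 k) k)) φ.natDegree
        (algebraMap k (AlgebraicClosure k) x) := by
  rw [proximity_k p _ _ x hx]
  exact SS.log_zid x φ.natDegree _ hx (hint_k φ x)

/-- few points have a value whose ideal has a small norm -/
theorem near_k (φ : (𝓞 k)[X]) (hφ : Squarefree (φ.map (algebraMap (𝓞 k) k))) (a η : ℝ)
    (ha0 : 0 ≤ a) (ha2 : a ≤ 2) (hη : 0 < η) : ∃ C : ℝ, 0 ≤ C ∧ ∀ T : ℝ, 0 ≤ T →
      ({x : k | logHeight₁ x ≤ T ∧ aeval x (φ.map (algebraMap (𝓞 k) k)) ≠ 0 ∧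
        Real.log (Ideal.absNorm (SS.zf φ x)) ≤ (φ.natDegree - a) * logHeight₁ x}.ncard : ℝ) ≤
        C * Real.exp ((2 - a + η) * T) := by
  let p : Fin 0 → ℕ := fun t => t.elim0
  have hpp : ∀ t, Fact (p t).Prime := fun t => t.elim0
  have hpi : Function.Injective p := fun t => t.elim0
  obtain ⟨C, h⟩ := TW.near_all_one k p hpi (φ.map (algebraMap (𝓞 k) k)) hφ
    φ.natDegree (Or.inl (natDegree_map_eq_of_injective RingOfIntegers.coe_injective φ).symm)
    1 le_rfl a η ha0 ha2 hη
  refine ⟨|C|, abs_nonneg _, fun T hT => ?_⟩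
  obtain ⟨f1, c1⟩ := h (Real.exp T) (Real.one_le_exp hT)
  have hn : (0 : ℝ) < finrank ℚ k := Nat.cast_pos.2 finrank_pos
  have hmaps : Set.MapsTo (algebraMap k (AlgebraicClosure k))
      {x : k | logHeight₁ x ≤ T ∧ aeval x (φ.map (algebraMap (𝓞 k) k)) ≠ 0 ∧
        Real.log (Ideal.absNorm (SS.zf φ x)) ≤ (φ.natDegree - a) * logHeight₁ x}
      {x : AlgebraicClosure k | finrank k (IntermediateField.adjoin k {x}) = 1 ∧
        AA.relHeight x ≤ Real.exp T ∧ aeval x (φ.map (algebraMap (𝓞 k) k)) ≠ 0 ∧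
        a * AA.height x ≤ AA.proximity p (φ.map (algebraMap (𝓞 k) k)) φ.natDegree x} := by
    rintro x ⟨h1, h2, h3⟩
    refine ⟨TW.finrank_of_algebraMap x, ?_, ?_, ?_⟩
    · rw [relHeight_k]
      exact Real.exp_le_exp.2 h1
    · rw [aeval_algebraMap_apply]
      exact (_root_.map_ne_zero _).2 h2
    · rw [log_zf p φ x h2] at h3
      have h4 := height_k x
      have h5 : (finrank ℚ k : ℝ) * (a * AA.height (algebraMap k (AlgebraicClosure k) x)) ≤
          finrank ℚ k * AA.proximity p (φ.map (algebraMap (𝓞 k) k)) φ.natDegree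
            (algebraMap k (AlgebraicClosure k) x) := by
        calc (finrank ℚ k : ℝ) * (a * AA.height (algebraMap k (AlgebraicClosure k) x)) =
            a * (finrank ℚ k * AA.height (algebraMap k (AlgebraicClosure k) x)) := by ring
          _ = a * logHeight₁ x := by rw [h4]
          _ ≤ _ := by linarith
      exact le_of_mul_le_mul_left h5 hn
  have h2 := Set.ncard_le_ncard_of_injOn _ hmaps (algebraMap k (AlgebraicClosure k)).injective.injOn
    f1
  have h3 : Real.exp T ^ (((1 : ℕ) : ℝ) + 1 - a + η) = Real.exp ((2 - a + η) * T) := by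
    rw [← Real.exp_mul]
    congr 1
    push_cast
    ring
  rw [h3] at c1
  calc _ ≤ _ := (Nat.cast_le (α := ℝ)).2 h2
    _ ≤ C * Real.exp ((2 - a + η) * T) := c1
    _ ≤ _ := mul_le_mul_of_nonneg_right (le_abs_self _) (Real.exp_pos _).le

/-- the number of points of small height -/
theorem count_k (k : Type) [Field k] [NumberField k] : ∃ C : ℝ, 0 ≤ C ∧ ∀ T : ℝ, 0 ≤ T →
      ({x : k | logHeight₁ x ≤ T}.ncard : ℝ) ≤ C * Real.exp (3 * T) := by
  obtain ⟨C, hC, h⟩ := near_k (1 : (𝓞 k)[X]) (by rw [Polynomial.map_one]; exact squarefree_one) 0 1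
    le_rfl zero_le_two one_pos
  refine ⟨C, hC, fun T hT => ?_⟩
  have h1 := h T hT
  have h2 : {x : k | logHeight₁ x ≤ T} ⊆ {x : k | logHeight₁ x ≤ T ∧
      aeval x ((1 : (𝓞 k)[X]).map (algebraMap (𝓞 k) k)) ≠ 0 ∧
        Real.log (Ideal.absNorm (SS.zf (1 : (𝓞 k)[X]) x)) ≤
          ((1 : (𝓞 k)[X]).natDegree - 0) * logHeight₁ x} := by
    intro x hx
    refine ⟨hx, ?_, ?_⟩
    · rw [Polynomial.map_one, map_one]
      exact one_ne_zero
    · let p : Fin 0 → ℕ := fun t => t.elim0
      have hpp : ∀ t, Fact (p t).Prime := fun t => t.elim0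
      have h0 : aeval x ((1 : (𝓞 k)[X]).map (algebraMap (𝓞 k) k)) ≠ 0 := by
        rw [Polynomial.map_one, map_one]
        exact one_ne_zero
      rw [log_zf p 1 x h0, proximity_k p _ _ x h0]
      simp
  have h3 : (2 : ℝ) - 0 + 1 = 3 := by norm_num
  rw [h3] at h1
  refine le_trans ?_ h1
  exact (Nat.cast_le (α := ℝ)).2 (Set.ncard_le_ncard h2 ((finite_k T).subset fun _ hx => hx.1))

/-- the norm of the ideal of the value is not much larger than the power of the height -/
theorem log_zf_le (φ : (𝓞 k)[X]) : ∃ C : ℝ, 0 ≤ C ∧ ∀ x : k,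
    aeval x (φ.map (algebraMap (𝓞 k) k)) ≠ 0 →
    Real.log (Ideal.absNorm (SS.zf φ x)) ≤ φ.natDegree * logHeight₁ x + C := by
  classical
  set g := φ.map (algebraMap (𝓞 k) k) with hg
  set n := φ.natDegree with hn
  have hgn : g.natDegree ≤ n := natDegree_map_le
  let A : (k →+* ℂ) → ℝ := fun σ => 1 + ∑ i ∈ Finset.range (n + 1), ‖σ (g.coeff i)‖
  have hA1 : ∀ σ, 1 ≤ A σ := fun σ => by
    have : 0 ≤ ∑ i ∈ Finset.range (n + 1), ‖σ (g.coeff i)‖ :=
      Finset.sum_nonneg fun _ _ => norm_nonneg _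
    show 1 ≤ 1 + ∑ i ∈ Finset.range (n + 1), ‖σ (g.coeff i)‖
    linarith
  refine ⟨∑ σ, Real.log (A σ), Finset.sum_nonneg fun σ _ => Real.log_nonneg (hA1 σ),
    fun x hx => ?_⟩
  have h1 := SS.log_zid x n _ hx (hint_k φ x)
  have h2 : ∀ σ : k →+* ℂ, Real.log ‖σ (aeval x g)‖ ≤
      n * Real.log (max 1 ‖σ x‖) + Real.log (A σ) := by
    intro σ
    have hM : 1 ≤ max 1 ‖σ x‖ := le_max_left _ _
    have hM0 : 0 < max 1 ‖σ x‖ := lt_of_lt_of_le one_pos hM
    have hA0 : 0 < A σ := lt_of_lt_of_le one_pos (hA1 σ)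
    rw [← Real.log_pow, ← Real.log_mul (by positivity) hA0.ne']
    refine Real.log_le_log ?_ ?_
    · rw [norm_pos_iff]
      exact (map_ne_zero σ).2 hx
    · rw [aeval_eq_sum_range' (n := n + 1) (by omega), map_sum]
      calc ‖∑ i ∈ Finset.range (n + 1), σ (g.coeff i • x ^ i)‖ ≤
          ∑ i ∈ Finset.range (n + 1), ‖σ (g.coeff i • x ^ i)‖ := norm_sum_le _ _
        _ ≤ ∑ i ∈ Finset.range (n + 1), ‖σ (g.coeff i)‖ * max 1 ‖σ x‖ ^ n := by
            refine Finset.sum_le_sum fun i hi => ?_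
            rw [smul_eq_mul, map_mul, map_pow, norm_mul, norm_pow]
            refine mul_le_mul_of_nonneg_left ?_ (norm_nonneg _)
            calc ‖σ x‖ ^ i ≤ max 1 ‖σ x‖ ^ i :=
                  pow_le_pow_left₀ (norm_nonneg _) (le_max_right _ _) i
              _ ≤ max 1 ‖σ x‖ ^ n := pow_le_pow_right₀ hM (by
                  rw [Finset.mem_range] at hi
                  omega)
        _ = (∑ i ∈ Finset.range (n + 1), ‖σ (g.coeff i)‖) * max 1 ‖σ x‖ ^ n := by
            rw [Finset.sum_mul]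
        _ ≤ max 1 ‖σ x‖ ^ n * A σ := by
            rw [mul_comm]
            refine mul_le_mul_of_nonneg_left ?_ (by positivity)
            show _ ≤ 1 + ∑ i ∈ Finset.range (n + 1), ‖σ (g.coeff i)‖
            linarith
  have h3 : Real.log (Ideal.absNorm (SS.zf φ x)) = n * logHeight₁ x -
      ∑ σ : k →+* ℂ, (n * Real.log (max 1 ‖σ x‖) - Real.log ‖σ (aeval x g)‖) := h1
  rw [h3]
  have h4 : -∑ σ : k →+* ℂ, Real.log (A σ) ≤
      ∑ σ : k →+* ℂ, (n * Real.log (max 1 ‖σ x‖) - Real.log ‖σ (aeval x g)‖) := by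
    rw [← Finset.sum_neg_distrib]
    refine Finset.sum_le_sum fun σ _ => ?_
    have := h2 σ
    linarith
  linarith

end

end Pool.Agent.OnePt
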