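import Pool.Agent.OnePt.Defs

/-!
# An ideal which contains `(c x - θ) J` is almost an ideal of `k`

HINTS. Let `O = 𝓞 k`, `J = denIdealOf x`, `n = [M : k]`, `f : O → 𝓞 M` the algebra map and `S` the
subset `f(O) + w` of `𝓞 M` (a subring). (1) For `j ∈ J`: `θ f(j) ∈ S`, because
`c x j ∈ O` and `(c x - θ) j ∈ w`; products: `θ ^ i * f(j) ∈ S` for `j ∈ J ^ i` (`w` is an ideal of
`𝓞 M`, `θ f(j) = f(c x j) - (..)`), so `f(j) * O[θ] ⊆ S` for `j ∈ J ^ (n - 1)`, where `O[θ]` is
spanned by `θ ^ i`, `i < n`. (2) There is `d₀ : 𝓞 k`, `d₀ ≠ 0` (or a natural number), depending only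
on `k`, `M`, `θ` with `d₀ * 𝓞 M ⊆ O[θ]` (the powers `θ ^ i`, `i < n`, are a basis of `M` over `k`,
`𝓞 M` is finitely generated over `O`: common denominator of the coordinates). (3)
`c ∈ f(J) 𝓞 M + w`: by `SS.den_coprime` `1 = j₁ + j₂ x`, so `c = c j₁ + c x j₂` and
`c x j₂ = θ j₂ + (an element of w)`. So `c ^ (n - 1) ∈ J ^ (n - 1) 𝓞 M + w`. (4) For all
`y : 𝓞 M`: `d₀ c ^ (n - 1) y ∈ S`: `c ^ (n - 1) = ∑ f(j_i) u_i + w'` and
`d₀ y u_i f(j_i) ∈ f(j_i) O[θ] ⊆ S`. (5) So the index of `S` in `𝓞 M` is at most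
`C = absNorm (span {f (d₀ c ^ (n - 1))})` and `absNorm w = [𝓞 M : S] [S : w] ≤
C * #(O ⧸ w.comap f)`: use additive subgroups (`AddSubgroup.index`, `relIndex`,
`Submodule.cardQuot`, `Ideal.absNorm_apply`), `S ⧸ w ≃ O ⧸ w.comap f`.
-/

set_option autoImplicit false

open Polynomial NumberField Module

namespace Pool.Agent.OnePt

/-- the elements which are integers of `k` modulo `w` -/
private def idxS {R T : Type} [CommRing R] [CommRing T] (f : R →+* T) (w : Ideal T) :
    Subring T where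
  carrier := {z | ∃ r : R, z - f r ∈ w}
  mul_mem' := by
    rintro a b ⟨r, hr⟩ ⟨s, hs⟩
    refine ⟨r * s, ?_⟩
    have h : a * b - f (r * s) = (a - f r) * b + f r * (b - f s) := by
      rw [map_mul]
      ring
    rw [h]
    exact Ideal.add_mem _ (Ideal.mul_mem_right _ _ hr) (Ideal.mul_mem_left _ _ hs)
  one_mem' := ⟨1, by rw [map_one, sub_self]; exact Ideal.zero_mem w⟩
  add_mem' := by
    rintro a b ⟨r, hr⟩ ⟨s, hs⟩
    refine ⟨r + s, ?_⟩
    have h : a + b - f (r + s) = (a - f r) + (b - f s) := by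
      rw [map_add]
      ring
    rw [h]
    exact Ideal.add_mem _ hr hs
  zero_mem' := ⟨0, by rw [map_zero, sub_self]; exact Ideal.zero_mem w⟩
  neg_mem' := by
    rintro a ⟨r, hr⟩
    refine ⟨-r, ?_⟩
    have h : -a - f (-r) = -(a - f r) := by
      rw [map_neg]
      ring
    rw [h]
    exact neg_mem hr

private theorem idx_f {R T : Type} [CommRing R] [CommRing T] (f : R →+* T) (w : Ideal T) (r : R) :
    f r ∈ idxS f w := ⟨r, by rw [sub_self]; exact Ideal.zero_mem w⟩

private theorem idx_w {R T : Type} [CommRing R] [CommRing T] (f : R →+* T) (w : Ideal T) {z : T}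
    (hz : z ∈ w) : z ∈ idxS f w := ⟨0, by rwa [map_zero, sub_zero]⟩

/-- the norm of an ideal whose order is almost everything -/
private theorem idx_norm {R T : Type} [CommRing R] [IsDedekindDomain R] [Module.Free ℤ R]
    [Module.Finite ℤ R] [CommRing T] [IsDedekindDomain T] [Module.Free ℤ T]
    [Module.Finite ℤ T] [CharZero T] (f : R →+* T) (w : Ideal T) (a : T) (ha : a ≠ 0)
    (h : ∀ y : T, a * y ∈ idxS f w) :
    Ideal.absNorm w ≤ Ideal.absNorm (Ideal.span {a}) * Ideal.absNorm (w.comap f) := by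
  have e1 : ∀ I : Ideal T, Ideal.absNorm I = I.toAddSubgroup.index := fun I => rfl
  have e2 : ∀ I : Ideal R, Ideal.absNorm I = I.toAddSubgroup.index := fun I => rfl
  have hw : w.toAddSubgroup ≤ (idxS f w).toAddSubgroup := fun z hz => idx_w f w hz
  have h1 := AddSubgroup.relIndex_mul_index hw
  have ha' : (Ideal.span {a}).toAddSubgroup ≤ (idxS f w).toAddSubgroup := by
    intro z hz
    obtain ⟨y, rfl⟩ := Ideal.mem_span_singleton'.1 hz
    have h2 := h y
    rw [mul_comm] at h2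
    exact h2
  have h2 : (idxS f w).toAddSubgroup.index ∣ Ideal.absNorm (Ideal.span {a}) := by
    rw [e1]
    exact AddSubgroup.index_dvd_of_le ha'
  have h3 : Ideal.absNorm (Ideal.span {a}) ≠ 0 := by
    rw [Ne, Ideal.absNorm_eq_zero_iff, Ideal.span_singleton_eq_bot]
    exact ha
  have h4 := Nat.le_of_dvd (Nat.pos_of_ne_zero h3) h2
  have h5 : w.toAddSubgroup.relIndex (idxS f w).toAddSubgroup = Ideal.absNorm (w.comap f) := by
    have h6 : (idxS f w).toAddSubgroup = f.toAddMonoidHom.range ⊔ w.toAddSubgroup := by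
      apply le_antisymm
      · rintro z ⟨r, hr⟩
        have h7 : z = f r + (z - f r) := by ring
        rw [h7]
        exact AddSubgroup.add_mem_sup ⟨r, rfl⟩ hr
      · refine sup_le ?_ hw
        rintro z ⟨r, rfl⟩
        exact idx_f f w r
    rw [h6, AddSubgroup.relIndex_sup_right, e2]
    exact (AddSubgroup.index_comap w.toAddSubgroup f.toAddMonoidHom).symm
  rw [e1 w, ← h1, h5, mul_comm]
  exact Nat.mul_le_mul_right _ h4

private theorem idx_single (k M : Type) [Field k] [NumberField k] [Field M] [NumberField M]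
    [Algebra k M] (θ : 𝓞 M) (hθ : IntermediateField.adjoin k {(θ : M)} = ⊤) (y : 𝓞 M) :
    ∃ (d : 𝓞 k) (p : (𝓞 k)[X]), d ≠ 0 ∧ algebraMap (𝓞 k) (𝓞 M) d * y = aeval θ p := by
  have hint : IsIntegral k (θ : M) := Algebra.IsIntegral.isIntegral _
  have h1 : (y : M) ∈ Algebra.adjoin k {(θ : M)} := by
    rw [← IntermediateField.adjoin_simple_toSubalgebra_of_isAlgebraic hint.isAlgebraic, hθ]
    exact IntermediateField.mem_top
  rw [Algebra.adjoin_singleton_eq_range_aeval] at h1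
  obtain ⟨q, hq⟩ := h1
  have hq' : aeval (θ : M) q = (y : M) := hq
  obtain ⟨b, hbm, hb⟩ := IsLocalization.integerNormalization_spec (nonZeroDivisors (𝓞 k)) q
  refine ⟨b, IsLocalization.integerNormalization (nonZeroDivisors (𝓞 k)) q,
    nonZeroDivisors.ne_zero hbm, ?_⟩
  apply RingOfIntegers.ext
  have h2 : ((aeval θ (IsLocalization.integerNormalization (nonZeroDivisors (𝓞 k)) q) : 𝓞 M) : M)
      = aeval (θ : M) ((IsLocalization.integerNormalization (nonZeroDivisors (𝓞 k)) q).map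
        (algebraMap (𝓞 k) k)) := by
    rw [aeval_map_algebraMap]
    exact (aeval_algebraMap_apply M θ _).symm
  have h3 : (IsLocalization.integerNormalization (nonZeroDivisors (𝓞 k)) q).map
      (algebraMap (𝓞 k) k) = C (b : k) * q := by
    rw [hb]
    ext n
    rw [coeff_smul, coeff_C_mul]
    exact Algebra.smul_def b (q.coeff n)
  rw [h2, h3, map_mul, hq', aeval_C]
  rfl

/-- a common denominator -/
private theorem idx_den (k M : Type) [Field k] [NumberField k] [Field M] [NumberField M]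
    [Algebra k M] (θ : 𝓞 M) (hθ : IntermediateField.adjoin k {(θ : M)} = ⊤) :
    ∃ (d : 𝓞 k) (N : ℕ), d ≠ 0 ∧ ∀ y : 𝓞 M, ∃ p : (𝓞 k)[X], p.natDegree ≤ N ∧
      algebraMap (𝓞 k) (𝓞 M) d * y = aeval θ p := by
  classical
  choose D P hD hP using idx_single k M θ hθ
  obtain ⟨s, hs⟩ := (Module.Finite.fg_top : (⊤ : Submodule ℤ (𝓞 M)).FG)
  refine ⟨∏ y ∈ s, D y, s.sup fun y => (P y).natDegree, ?_, fun y => ?_⟩
  · exact Finset.prod_ne_zero_iff.2 fun y _ => hD y
  · have hy : y ∈ Submodule.span ℤ (s : Set (𝓞 M)) := by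
      rw [hs]
      exact Submodule.mem_top
    induction hy using Submodule.span_induction with
    | mem x hx =>
      have hx' : x ∈ s := hx
      refine ⟨C (∏ z ∈ s.erase x, D z) * P x, ?_, ?_⟩
      · refine (natDegree_C_mul_le _ _).trans ?_
        exact Finset.le_sup (f := fun y => (P y).natDegree) hx'
      · rw [← Finset.mul_prod_erase s D hx', map_mul, map_mul, aeval_C, ← hP]
        ring
    | zero => exact ⟨0, by simp, by simp⟩
    | add x z _ _ hx hz =>
      obtain ⟨p, hp, hp'⟩ := hx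
      obtain ⟨r, hr, hr'⟩ := hz
      exact ⟨p + r, natDegree_add_le_of_degree_le hp hr, by rw [mul_add, hp', hr', map_add]⟩
    | smul n x _ hx =>
      obtain ⟨p, hp, hp'⟩ := hx
      refine ⟨n • p, (natDegree_smul_le n p).trans hp, ?_⟩
      rw [map_zsmul, ← hp', mul_smul_comm]

private theorem idx_pow {R : Type} [CommRing R] (A w : Ideal R) (n : ℕ) :
    (A ⊔ w) ^ n ≤ A ^ n ⊔ w := by
  induction n with
  | zero => rw [pow_zero, pow_zero]; exact le_sup_left
  | succ n ih =>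
    rw [pow_succ, pow_succ]
    refine (Ideal.mul_mono ih le_rfl).trans ?_
    rw [Ideal.sup_mul, Ideal.mul_sup]
    refine sup_le (sup_le le_sup_left (Ideal.mul_le_right.trans le_sup_right)) ?_
    exact Ideal.mul_le_left.trans le_sup_right

/-- the multiples of the powers of `θ` -/
private theorem idx_theta {k M : Type} [Field k] [NumberField k] [Field M] [NumberField M]
    [Algebra k M] (c : 𝓞 k) (θ : 𝓞 M) (x : k) (w : Ideal (𝓞 M)) (hw : ax c θ x ≤ w) (n : ℕ) :
    ∀ j ∈ (RefW.denIdealOf x) ^ n,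
      θ ^ n * algebraMap (𝓞 k) (𝓞 M) j ∈ idxS (algebraMap (𝓞 k) (𝓞 M)) w := by
  induction n with
  | zero =>
    intro j _
    rw [pow_zero, one_mul]
    exact idx_f _ w j
  | succ n ih =>
    intro j hj
    rw [pow_succ] at hj
    refine Submodule.mul_induction_on hj ?_ ?_
    · intro a ha b hb
      have h1 : θ * algebraMap (𝓞 k) (𝓞 M) b ∈ idxS (algebraMap (𝓞 k) (𝓞 M)) w := by
        obtain ⟨t, ht⟩ := SS.mem_den.1 hb
        refine ⟨c * t, ?_⟩
        rw [← neg_mem_iff]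
        apply hw
        refine Ideal.subset_span ⟨b, hb, ?_⟩
        have e1 : ((-(θ * algebraMap (𝓞 k) (𝓞 M) b - algebraMap (𝓞 k) (𝓞 M) (c * t)) : 𝓞 M) : M)
            = algebraMap k M ((c : k) * (t : k)) - (θ : M) * algebraMap k M (b : k) := by
          rw [neg_sub]
          rfl
        rw [e1, ht, map_mul, map_mul, map_mul]
        ring
      have h2 : θ ^ (n + 1) * algebraMap (𝓞 k) (𝓞 M) (a * b) =
          (θ ^ n * algebraMap (𝓞 k) (𝓞 M) a) * (θ * algebraMap (𝓞 k) (𝓞 M) b) := by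
        rw [map_mul]
        ring
      rw [h2]
      exact mul_mem (ih a ha) h1
    · intro a b ha hb
      rw [map_add, mul_add]
      exact add_mem ha hb

theorem index_le (k M : Type) [Field k] [NumberField k] [Field M] [NumberField M] [Algebra k M]
    (c : 𝓞 k) (hc : c ≠ 0) (θ : 𝓞 M) (hθ : IntermediateField.adjoin k {(θ : M)} = ⊤) :
    ∃ C : ℕ, 0 < C ∧ ∀ (x : k) (w : Ideal (𝓞 M)), w ≠ ⊥ → ax c θ x ≤ w →
      Ideal.absNorm w ≤ C * Ideal.absNorm (w.comap (algebraMap (𝓞 k) (𝓞 M))) := by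
  obtain ⟨d, N, hd, hden⟩ := idx_den k M θ hθ
  have hinj : Function.Injective (algebraMap (𝓞 k) (𝓞 M)) :=
    FaithfulSMul.algebraMap_injective (𝓞 k) (𝓞 M)
  have ha : algebraMap (𝓞 k) (𝓞 M) (d * c ^ N) ≠ 0 := by
    rw [Ne, map_eq_zero_iff _ hinj]
    exact mul_ne_zero hd (pow_ne_zero N hc)
  refine ⟨Ideal.absNorm (Ideal.span {algebraMap (𝓞 k) (𝓞 M) (d * c ^ N)}), ?_, ?_⟩
  · rw [Nat.pos_iff_ne_zero, Ne, Ideal.absNorm_eq_zero_iff, Ideal.span_singleton_eq_bot]
    exact ha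
  intro x w _ hw
  refine idx_norm _ w _ ha fun y => ?_
  -- the ideal of all `z` with `d z 𝓞 M ⊆ S`
  let I : Ideal (𝓞 M) :=
    { carrier := {z | ∀ y : 𝓞 M, algebraMap (𝓞 k) (𝓞 M) d * y * z ∈
        idxS (algebraMap (𝓞 k) (𝓞 M)) w}
      add_mem' := by
        intro a b ha hb y
        rw [mul_add]
        exact add_mem (ha y) (hb y)
      zero_mem' := by
        intro y
        rw [mul_zero]
        exact zero_mem _
      smul_mem' := by
        intro a b hb y
        have h := hb (y * a)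
        rw [smul_eq_mul]
        have e : algebraMap (𝓞 k) (𝓞 M) d * y * (a * b) =
            algebraMap (𝓞 k) (𝓞 M) d * (y * a) * b := by ring
        rw [e]
        exact h }
  have hwI : w ≤ I := fun z hz y => idx_w _ w (Ideal.mul_mem_left _ _ hz)
  have hJI : ((RefW.denIdealOf x) ^ N).map (algebraMap (𝓞 k) (𝓞 M)) ≤ I := by
    rw [Ideal.map_le_iff_le_comap]
    intro j hj y
    obtain ⟨p, hp, hpy⟩ := hden y
    rw [hpy, aeval_eq_sum_range' (n := N + 1) (by omega), Finset.sum_mul]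
    refine sum_mem fun i hi => ?_
    rw [Finset.mem_range] at hi
    rw [Algebra.smul_def, mul_assoc]
    exact mul_mem (idx_f _ w _) (idx_theta c θ x w hw i j (Ideal.pow_le_pow_right (by omega) hj))
  have hcI : algebraMap (𝓞 k) (𝓞 M) c ∈
      (RefW.denIdealOf x).map (algebraMap (𝓞 k) (𝓞 M)) ⊔ w := by
    obtain ⟨j₁, hj₁, j₂, hj₂, t, ht, h1⟩ := SS.den_coprime x
    have h2 : algebraMap (𝓞 k) (𝓞 M) c =
        (algebraMap (𝓞 k) (𝓞 M) c * algebraMap (𝓞 k) (𝓞 M) j₁ +
          θ * algebraMap (𝓞 k) (𝓞 M) j₂) +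
        (algebraMap (𝓞 k) (𝓞 M) (c * t) - θ * algebraMap (𝓞 k) (𝓞 M) j₂) := by
      have h3 := congrArg (algebraMap (𝓞 k) (𝓞 M)) h1
      rw [map_add, map_one] at h3
      rw [map_mul]
      linear_combination (-(algebraMap (𝓞 k) (𝓞 M) c)) * h3
    rw [h2]
    refine Submodule.add_mem_sup ?_ ?_
    · exact Ideal.add_mem _ (Ideal.mul_mem_left _ _ (Ideal.mem_map_of_mem _ hj₁))
        (Ideal.mul_mem_left _ _ (Ideal.mem_map_of_mem _ hj₂))
    · apply hw
      refine Ideal.subset_span ⟨j₂, hj₂, ?_⟩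
      have e1 : ((algebraMap (𝓞 k) (𝓞 M) (c * t) - θ * algebraMap (𝓞 k) (𝓞 M) j₂ : 𝓞 M) : M)
          = algebraMap k M ((c : k) * (t : k)) - (θ : M) * algebraMap k M (j₂ : k) := rfl
      rw [e1, ht, map_mul, map_mul, map_mul]
      ring
  have hcN : algebraMap (𝓞 k) (𝓞 M) (c ^ N) ∈ I := by
    have h1 := idx_pow _ w N (Ideal.pow_mem_pow hcI N)
    rw [← Ideal.map_pow, ← map_pow] at h1
    exact (sup_le hJI hwI) h1
  have h1 := hcN y
  have e : algebraMap (𝓞 k) (𝓞 M) (d * c ^ N) * y =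
      algebraMap (𝓞 k) (𝓞 M) d * y * algebraMap (𝓞 k) (𝓞 M) (c ^ N) := by
    rw [map_mul]
    ring
  rw [e]
  exact h1

end Pool.Agent.OnePt
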