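import Pool.Agent.OnePt.Alg
import Pool.Agent.OnePt.Index

/-!
# The ideal `(c x - θ) J` of `M = k(e)` and the ideal `φ(x) J ^ n` of `k`

HINTS. `n = φ.natDegree = [M : k]`, `c = φ.leadingCoeff`, `θ = c e`, `J = denIdealOf x`,
`a = ax c θ x`, `z = zf φ x = φ(x) J ^ n`. (1) Choose `j₀ ∈ J`, `j₀ ≠ 0`, `τ : 𝓞 M`,
`τ = (c x - θ) j₀` (nonzero: otherwise `e ∈ k`, `e = x`, `φ(x) = 0`). Elementwise
`a * span {j₀} = span {τ} * J.map`. Relative norm (`Ideal.relNorm (𝓞 k)`):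
`relNorm a * span {j₀} ^ n = span {N τ} * J ^ n` (relNorm of `J.map` is `J ^ n`:
`Ideal.relNorm_algebraMap`-like lemma; `Ideal.relNorm_singleton`), and
`N_{M/k}(c x - θ) = c ^ (n - 1) φ(x)`: the norm of `x - e` is the value at `x` of the minimal
polynomial of `e` (compare `split`, `res_eq` in SS/Divis.lean), `φ = c * minpoly`. So
`relNorm a = span {c} ^ (n - 1) * z`. Absolute norms: `Ideal.absNorm_relNorm`-like lemma (absNorm
of the relNorm is the absNorm), or directly from `SS.absNorm_zid`. This is the first claim. (2)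
`a = ρ * v ^ 2`: `span {c} ^ (n - 1) * z = relNorm ρ * (relNorm v) ^ 2`. With `z = c₀ t ^ 2`:
`(relNorm ρ * ..)`. For `absNorm c₀ ≤ C absNorm ρ`: `sq_dvd` with
`X = span {c} ^ (n - 1) * relNorm ρ` (multiply the equation by `span {c} ^ (n - 1)`), `c₀`
squarefree: `c₀ ∣ X`, norms. (3) For `absNorm ρ ≤ C absNorm c₀`: `g = ρ.comap` is squarefree (`ρ`
is a product of distinct primes, so a radical ideal, so `g` is a radical ideal of a Dedekind
domain, nonzero), `relNorm ρ ≤ g` (`Ideal.relNorm_le_comap`), so `relNorm ρ = g * b`, and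
`absNorm ρ ≤ C₁ absNorm g` by `index_le` (`a ≤ ρ`), so `absNorm b ≤ C₁`. Now
`span {c} ^ (n - 1) * c₀ * t ^ 2 = g * b * (relNorm v) ^ 2` and `sq_dvd` gives
`g ∣ span {c} ^ (n - 1) * c₀ * b`, norms: `absNorm g ≤ |N c| ^ (n - 1) absNorm c₀ C₁`.

-/

set_option autoImplicit false

open Polynomial NumberField Module

namespace Pool.Agent.OnePt

/-- the norm of `x - e` -/
private theorem Rel_norm {k M : Type} [Field k] [Field M] [Algebra k M] [FiniteDimensional k M]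
    (f : k[X]) (hf : Irreducible f) (e : M) (he : aeval e f = 0)
    (hdeg : finrank k M = f.natDegree) (x : k) :
    f.leadingCoeff * Algebra.norm k (algebraMap k M x - e) = aeval x f := by
  have hf0 : f.leadingCoeff ≠ 0 := leadingCoeff_ne_zero.2 hf.ne_zero
  have hint : IsIntegral k e := Algebra.IsIntegral.isIntegral e
  have hmin := minpoly.eq_of_irreducible hf he
  set p := (Algebra.lmul k M e).charpoly with hp
  have hpm : p.Monic := LinearMap.charpoly_monic _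
  have hpd : p.natDegree = finrank k M := LinearMap.charpoly_natDegree _
  have hpe : aeval e p = 0 := by
    have h1 : aeval (Algebra.lmul k M e) p = 0 := LinearMap.aeval_self_charpoly _
    rw [aeval_algHom_apply] at h1
    have h2 := congrArg (fun g : Module.End k M => g 1) h1
    simpa using h2
  have hd : (minpoly k e).natDegree = f.natDegree := by
    rw [← hmin, natDegree_mul_C (inv_ne_zero hf0)]
  have hpq : p = minpoly k e := by
    refine (eq_of_monic_of_dvd_of_natDegree_le (minpoly.monic hint) hpm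
      (minpoly.dvd k e hpe) ?_)
    rw [hpd, hdeg, hd]
  have hfp : f = C f.leadingCoeff * p := by
    rw [hpq, ← hmin, mul_comm f, ← mul_assoc, ← C_mul, mul_inv_cancel₀ hf0, C_1, one_mul]
  have h3 : Algebra.norm k (algebraMap k M x - e) = p.eval x := by
    rw [hp, LinearMap.eval_charpoly, Algebra.norm_apply, map_sub, AlgHom.commutes]
  rw [h3]
  conv_rhs => rw [hfp]
  rw [coe_aeval_eq_eval, eval_mul, eval_C]

/-- a squarefree ideal is radical and so is its trace -/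
private theorem Rel_sq {R S : Type} [CommRing R] [IsDedekindDomain R] [CommRing S]
    [IsDedekindDomain S] (f : R →+* S) (ρ : Ideal S) (hρ : Squarefree ρ)
    (hne : ρ.comap f ≠ ⊥) : Squarefree (ρ.comap f) := by
  have h1 : IsRadical ρ := hρ.isRadical
  have h2 : ∀ (b : S) (m : ℕ), b ^ m ∈ ρ → b ∈ ρ := by
    intro b m hb
    have h3 : ρ ∣ Ideal.span {b} ^ m := by
      rw [Ideal.span_singleton_pow, Ideal.dvd_span_singleton]
      exact hb
    exact Ideal.dvd_span_singleton.1 (h1 m _ h3)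
  refine (isRadical_iff_squarefree_of_ne_zero hne).1 ?_
  intro m y hy
  rw [Ideal.dvd_iff_le] at hy ⊢
  intro b hb
  have h4 : b ^ m ∈ ρ.comap f := hy (Ideal.pow_mem_pow hb m)
  rw [Ideal.mem_comap, map_pow] at h4
  exact h2 _ m h4

/-- the relative norm of the ideal `(c x - θ) J` -/
private theorem Rel_key (k M : Type) [Field k] [NumberField k] [Field M] [NumberField M]
    [Algebra k M] (φ : (𝓞 k)[X]) (hφ : Irreducible (φ.map (algebraMap (𝓞 k) k))) (e : M)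
    (he : aeval e (φ.map (algebraMap (𝓞 k) k)) = 0) (hdeg : finrank k M = φ.natDegree)
    (θ : 𝓞 M) (hθe : (θ : M) = algebraMap k M (φ.leadingCoeff : k) * e) (x : k) :
    Ideal.relNorm (𝓞 k) (ax φ.leadingCoeff θ x) =
      Ideal.span {φ.leadingCoeff} ^ (φ.natDegree - 1) * SS.zf φ x := by
  set c := φ.leadingCoeff with hc
  set n := φ.natDegree with hn
  have hinj : Function.Injective (algebraMap (𝓞 k) k) := RingOfIntegers.coe_injective
  have hdφ : (φ.map (algebraMap (𝓞 k) k)).natDegree = n := natDegree_map_eq_of_injective hinj φ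
  have hlφ : (φ.map (algebraMap (𝓞 k) k)).leadingCoeff = (c : k) :=
    leadingCoeff_map_of_injective hinj φ
  have hn1 : 1 ≤ n := by
    rw [← hdφ]
    exact hφ.natDegree_pos
  have hc0 : c ≠ 0 := by
    intro h
    have h1 : (φ.map (algebraMap (𝓞 k) k)).leadingCoeff = 0 := by rw [hlφ, h]; rfl
    exact hφ.ne_zero (leadingCoeff_eq_zero.1 h1)
  have hJ0 : RefW.denIdealOf x ≠ ⊥ := (RefW.denIdeal_norm_le x).1
  obtain ⟨j₀, hj₀, hj₀0⟩ := Submodule.exists_mem_ne_zero_of_ne_bot hJ0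
  have hfin : finrank (𝓞 k) (𝓞 M) = n := by
    rw [← IsFractionRing.finrank_eq (𝓞 k) k (𝓞 M) M, hdeg]
  have hcoe : ∀ r : 𝓞 k, ((algebraMap (𝓞 k) (𝓞 M) r : 𝓞 M) : M) = algebraMap k M (r : k) := by
    intro r
    change algebraMap (𝓞 M) M (algebraMap (𝓞 k) (𝓞 M) r) = algebraMap k M (algebraMap (𝓞 k) k r)
    rw [← IsScalarTower.algebraMap_apply (𝓞 k) (𝓞 M) M,
      ← IsScalarTower.algebraMap_apply (𝓞 k) k M]
  have hmulM : ∀ a b : 𝓞 M, ((a * b : 𝓞 M) : M) = (a : M) * (b : M) := fun _ _ => rfl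
  have hsubM : ∀ a b : 𝓞 M, ((a - b : 𝓞 M) : M) = (a : M) - (b : M) := fun _ _ => rfl
  have hmulk : ∀ a b : 𝓞 k, ((a * b : 𝓞 k) : k) = (a : k) * (b : k) := fun _ _ => rfl
  -- the elements `(c x - θ) j`
  have hel : ∀ j ∈ RefW.denIdealOf x, ∃ t : 𝓞 M,
      (t : M) = (algebraMap k M ((c : k) * x) - (θ : M)) * algebraMap k M (j : k) := by
    rintro j ⟨t, ht⟩
    refine ⟨algebraMap (𝓞 k) (𝓞 M) (c * t) - θ * algebraMap (𝓞 k) (𝓞 M) j, ?_⟩
    rw [hsubM, hcoe, hmulM, hcoe, hmulk, ht, map_mul, map_mul, map_mul]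
    ring
  obtain ⟨τ, hτ⟩ := hel j₀ hj₀
  have hmem : ∀ (t : 𝓞 M) (j : 𝓞 k), j ∈ RefW.denIdealOf x →
      (t : M) = (algebraMap k M ((c : k) * x) - (θ : M)) * algebraMap k M (j : k) →
      t ∈ ax c θ x := fun t j hj ht => Ideal.subset_span ⟨j, hj, ht⟩
  -- the ideal identity upstairs
  have hup : ax c θ x * Ideal.span {algebraMap (𝓞 k) (𝓞 M) j₀} =
      Ideal.span {τ} * (RefW.denIdealOf x).map (algebraMap (𝓞 k) (𝓞 M)) := by
    refine le_antisymm ?_ ?_
    · rw [ax, Ideal.span_mul_span, Ideal.span_le]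
      intro w hw
      obtain ⟨t, ⟨j, hj, ht⟩, u, hu, hw⟩ := Set.mem_mul.1 hw
      rw [Set.mem_singleton_iff] at hu
      have h1 : t * algebraMap (𝓞 k) (𝓞 M) j₀ = τ * algebraMap (𝓞 k) (𝓞 M) j := by
        apply RingOfIntegers.ext
        rw [hmulM, hmulM, hcoe, hcoe, ht, hτ]
        ring
      rw [← hw, hu]
      change t * algebraMap (𝓞 k) (𝓞 M) j₀ ∈ _
      rw [h1]
      exact Ideal.mul_mem_mul (Ideal.mem_span_singleton_self τ)
        (Ideal.mem_map_of_mem _ hj)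
    · rw [Ideal.map, Ideal.span_mul_span, Ideal.span_le]
      intro w hw
      obtain ⟨u, hu, v, ⟨j, hj, hv⟩, hw⟩ := Set.mem_mul.1 hw
      rw [Set.mem_singleton_iff] at hu
      obtain ⟨t, ht⟩ := hel j hj
      have h1 : t * algebraMap (𝓞 k) (𝓞 M) j₀ = τ * algebraMap (𝓞 k) (𝓞 M) j := by
        apply RingOfIntegers.ext
        rw [hmulM, hmulM, hcoe, hcoe, ht, hτ]
        ring
      rw [← hw, hu, ← hv]
      change τ * algebraMap (𝓞 k) (𝓞 M) j ∈ _
      rw [← h1]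
      exact Ideal.mul_mem_mul (hmem t j hj ht) (Ideal.mem_span_singleton_self _)
  -- the element downstairs
  have hjn : j₀ ^ n ∈ (RefW.denIdealOf x) ^ n := Ideal.pow_mem_pow hj₀ n
  obtain ⟨w₀, hw₀⟩ := SS.eval_int φ x n le_rfl _ hjn
  have hdown : SS.zf φ x * Ideal.span {j₀} ^ n =
      Ideal.span {w₀} * (RefW.denIdealOf x) ^ n := by
    rw [Ideal.span_singleton_pow]
    refine le_antisymm ?_ ?_
    · rw [Ideal.mul_le]
      rintro w ⟨j, hj, hw⟩ u hu
      obtain ⟨u', rfl⟩ := Ideal.mem_span_singleton.1 hu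
      have h1 : w * (j₀ ^ n * u') = w₀ * (u' * j) := by
        apply RingOfIntegers.ext
        rw [hmulk, hmulk, hmulk, hmulk, hw, hw₀]
        ring
      rw [h1]
      exact Ideal.mul_mem_mul (Ideal.mem_span_singleton_self _) (Ideal.mul_mem_left _ _ hj)
    · rw [Ideal.mul_le]
      intro u hu j hj
      obtain ⟨u', rfl⟩ := Ideal.mem_span_singleton.1 hu
      obtain ⟨w, hw⟩ := SS.eval_int φ x n le_rfl _ hj
      have h1 : w₀ * u' * j = (u' * w) * j₀ ^ n := by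
        apply RingOfIntegers.ext
        rw [hmulk, hmulk, hmulk, hmulk, hw, hw₀]
        ring
      rw [h1]
      exact Ideal.mul_mem_mul (Ideal.mul_mem_left _ _ ⟨j, hj, hw⟩)
        (Ideal.mem_span_singleton_self _)
  -- the norm of `τ`
  have hN : Algebra.intNorm (𝓞 k) (𝓞 M) τ = c ^ (n - 1) * w₀ := by
    apply hinj
    rw [Algebra.algebraMap_intNorm (A := 𝓞 k) (K := k) (L := M) (B := 𝓞 M)]
    have h1 : algebraMap (𝓞 M) M τ = algebraMap k M ((c : k) * (j₀ : k)) *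
        (algebraMap k M x - e) := by
      change (τ : M) = _
      rw [hτ, hθe, map_mul, map_mul]
      ring
    have h2 := Rel_norm (φ.map (algebraMap (𝓞 k) k)) hφ e he (by rw [hdφ, hdeg]) x
    rw [hlφ] at h2
    rw [h1, map_mul, Algebra.norm_algebraMap, hdeg, map_mul, map_pow]
    have h3 : algebraMap (𝓞 k) k w₀ = aeval x (φ.map (algebraMap (𝓞 k) k)) * (j₀ : k) ^ n := hw₀
    have h4 : (c : k) ^ n = (c : k) ^ (n - 1) * (c : k) := by
      rw [← pow_succ, Nat.sub_add_cancel hn1]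
    rw [h3, ← h2, mul_pow, h4]
    ring
  have hrel := congrArg (Ideal.relNorm (𝓞 k)) hup
  have hmap : Ideal.span {algebraMap (𝓞 k) (𝓞 M) j₀} =
      (Ideal.span {j₀}).map (algebraMap (𝓞 k) (𝓞 M)) := by
    rw [Ideal.map_span, Set.image_singleton]
  rw [map_mul, map_mul, hmap, Ideal.relNorm_algebraMap, Ideal.relNorm_algebraMap, hfin,
    Ideal.relNorm_singleton, hN, ← Ideal.span_singleton_mul_span_singleton, mul_assoc, ← hdown,
    ← mul_assoc, ← Ideal.span_singleton_pow] at hrel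
  have hne : (Ideal.span {j₀} : Ideal (𝓞 k)) ^ n ≠ 0 := by
    refine pow_ne_zero _ ?_
    rw [Ne, Ideal.zero_eq_bot, Ideal.span_singleton_eq_bot]
    exact hj₀0
  exact mul_right_cancel₀ hne hrel

theorem rel (k M : Type) [Field k] [NumberField k] [Field M] [NumberField M] [Algebra k M]
    (φ : (𝓞 k)[X]) (hφ : Irreducible (φ.map (algebraMap (𝓞 k) k))) (e : M)
    (he : aeval e (φ.map (algebraMap (𝓞 k) k)) = 0) (hdeg : finrank k M = φ.natDegree)
    (θ : 𝓞 M) (hθe : (θ : M) = algebraMap k M (φ.leadingCoeff : k) * e)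
    (hθ : IntermediateField.adjoin k {(θ : M)} = ⊤) :
    ∃ C : ℝ, 1 ≤ C ∧ ∀ x : k, aeval x (φ.map (algebraMap (𝓞 k) k)) ≠ 0 →
      Ideal.absNorm (ax φ.leadingCoeff θ x) =
        (Algebra.norm ℤ φ.leadingCoeff).natAbs ^ (φ.natDegree - 1) *
          Ideal.absNorm (SS.zf φ x) ∧
      ∀ (ρ v : Ideal (𝓞 M)) (c₀ : Ideal (𝓞 k)), Squarefree ρ → v ≠ ⊥ →
        ax φ.leadingCoeff θ x = ρ * v ^ 2 → Od (SS.zf φ x) c₀ →
        (Ideal.absNorm c₀ : ℝ) ≤ C * Ideal.absNorm ρ ∧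
        (Ideal.absNorm ρ : ℝ) ≤ C * Ideal.absNorm c₀ := by
  have hinj : Function.Injective (algebraMap (𝓞 k) k) := RingOfIntegers.coe_injective
  have hlφ : (φ.map (algebraMap (𝓞 k) k)).leadingCoeff = (φ.leadingCoeff : k) :=
    leadingCoeff_map_of_injective hinj φ
  have hc0 : φ.leadingCoeff ≠ 0 := by
    intro h
    have h1 : (φ.map (algebraMap (𝓞 k) k)).leadingCoeff = 0 := by rw [hlφ, h]; rfl
    exact hφ.ne_zero (leadingCoeff_eq_zero.1 h1)
  obtain ⟨C₁, hC₁, hC⟩ := index_le k M φ.leadingCoeff hc0 θ hθ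
  set P : ℕ := (Algebra.norm ℤ φ.leadingCoeff).natAbs ^ (φ.natDegree - 1) with hP
  have hP0 : 0 < P := by
    refine pow_pos (Int.natAbs_pos.2 ?_) _
    rw [Ne, Algebra.norm_eq_zero_iff]
    exact hc0
  have hPn : Ideal.absNorm (Ideal.span {φ.leadingCoeff} ^ (φ.natDegree - 1)) = P := by
    rw [map_pow, Ideal.absNorm_span_singleton]
  refine ⟨((C₁ ^ 2 * P : ℕ) : ℝ), ?_, ?_⟩
  · exact_mod_cast Nat.one_le_iff_ne_zero.2 (by positivity)
  intro x hx
  have hkey := Rel_key k M φ hφ e he hdeg θ hθe x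
  have hz0 : SS.zf φ x ≠ ⊥ := by
    obtain ⟨j₀, hj₀, hj₀0⟩ := Submodule.exists_mem_ne_zero_of_ne_bot (RefW.denIdeal_norm_le x).1
    obtain ⟨w, hw⟩ := SS.eval_int φ x φ.natDegree le_rfl _ (Ideal.pow_mem_pow hj₀ φ.natDegree)
    intro h
    have h1 : w ∈ SS.zf φ x := ⟨_, Ideal.pow_mem_pow hj₀ _, hw⟩
    rw [h] at h1
    have h2 : w = 0 := h1
    rw [h2] at hw
    have h3 : ((j₀ ^ φ.natDegree : 𝓞 k) : k) ≠ 0 := by
      intro h4
      exact pow_ne_zero _ hj₀0 (hinj (by rw [map_zero]; exact h4))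
    have h5 : ((0 : 𝓞 k) : k) = 0 := rfl
    rw [h5] at hw
    exact mul_ne_zero hx h3 hw.symm
  have habs : Ideal.absNorm (ax φ.leadingCoeff θ x) = P * Ideal.absNorm (SS.zf φ x) := by
    rw [← Ideal.absNorm_relNorm (R := 𝓞 k), hkey, map_mul, hPn]
  refine ⟨habs, ?_⟩
  intro ρ v c₀ hρ hv ha hod
  obtain ⟨hc₀, t, ht, hzt⟩ := hod
  have hrn0 : ∀ I : Ideal (𝓞 M), I ≠ ⊥ → Ideal.relNorm (𝓞 k) I ≠ ⊥ := fun I hI h =>
    hI (Ideal.relNorm_eq_bot_iff.1 h)
  have ha0 : ax φ.leadingCoeff θ x ≠ ⊥ := by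
    intro h
    have h1 : Ideal.absNorm (ax φ.leadingCoeff θ x) = 0 := by rw [h]; exact Ideal.absNorm_bot
    rw [habs] at h1
    rcases Nat.mul_eq_zero.1 h1 with h2 | h2
    · exact hP0.ne' h2
    · exact hz0 (Ideal.absNorm_eq_zero_iff.1 h2)
  have hρ0 : ρ ≠ ⊥ := by
    rintro rfl
    apply ha0
    rw [ha]
    exact zero_mul _
  have hvr : Ideal.relNorm (𝓞 k) v ≠ ⊥ := hrn0 v hv
  have heq : Ideal.relNorm (𝓞 k) ρ * (Ideal.relNorm (𝓞 k) v) ^ 2 =
      Ideal.span {φ.leadingCoeff} ^ (φ.natDegree - 1) * (c₀ * t ^ 2) := by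
    rw [← hzt, ← hkey, ha, map_mul, map_pow]
  have hρn : Ideal.absNorm (Ideal.relNorm (𝓞 k) ρ) = Ideal.absNorm ρ :=
    Ideal.absNorm_relNorm (R := 𝓞 k) (S := 𝓞 M) (I := ρ)
  have hρpos : 0 < Ideal.absNorm ρ :=
    Nat.pos_of_ne_zero fun h => hρ0 (Ideal.absNorm_eq_zero_iff.1 h)
  have hc₀0 : c₀ ≠ ⊥ := hc₀.ne_zero
  have hcpos : 0 < Ideal.absNorm c₀ :=
    Nat.pos_of_ne_zero fun h => hc₀0 (Ideal.absNorm_eq_zero_iff.1 h)
  constructor
  · have h1 := sq_dvd (Ideal.relNorm (𝓞 k) ρ) (Ideal.relNorm (𝓞 k) v) c₀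
      (Ideal.span {φ.leadingCoeff} ^ (φ.natDegree - 1)) t hc₀ ht (by rw [heq]; ring)
    have h2 := map_dvd Ideal.absNorm h1
    rw [map_mul, hρn, hPn] at h2
    have h3 : Ideal.absNorm c₀ ≤ Ideal.absNorm ρ * P := Nat.le_of_dvd (by positivity) h2
    have h4 : Ideal.absNorm c₀ ≤ (C₁ ^ 2 * P) * Ideal.absNorm ρ := by
      calc Ideal.absNorm c₀ ≤ Ideal.absNorm ρ * P := h3
        _ = 1 * (P * Ideal.absNorm ρ) := by ring
        _ ≤ C₁ ^ 2 * (P * Ideal.absNorm ρ) :=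
          Nat.mul_le_mul_right _ (Nat.one_le_pow _ _ hC₁)
        _ = _ := by ring
    exact_mod_cast h4
  · set g := ρ.comap (algebraMap (𝓞 k) (𝓞 M)) with hg
    have hgle : Ideal.relNorm (𝓞 k) ρ ≤ g := Ideal.relNorm_le_comap (𝓞 k) ρ
    have hg0 : g ≠ ⊥ := by
      intro h
      rw [h, le_bot_iff] at hgle
      exact hrn0 ρ hρ0 hgle
    have hgs : Squarefree g := Rel_sq _ ρ hρ hg0
    obtain ⟨b, hb⟩ := Ideal.dvd_iff_le.2 hgle
    have hgpos : 0 < Ideal.absNorm g :=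
      Nat.pos_of_ne_zero fun h => hg0 (Ideal.absNorm_eq_zero_iff.1 h)
    have h1 : Ideal.absNorm ρ ≤ C₁ * Ideal.absNorm g := hC x ρ hρ0 (by
      rw [ha]
      exact Ideal.mul_le_left)
    have h2 : Ideal.absNorm ρ = Ideal.absNorm g * Ideal.absNorm b := by
      rw [← hρn, hb, map_mul]
    have h3 : Ideal.absNorm b ≤ C₁ := by
      rw [h2, mul_comm C₁] at h1
      exact Nat.le_of_mul_le_mul_left h1 hgpos
    have hbpos : 0 < Ideal.absNorm b := by
      rcases Nat.eq_zero_or_pos (Ideal.absNorm b) with h | h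
      · rw [h, mul_zero] at h2
        omega
      · exact h
    have h4 := sq_dvd (Ideal.span {φ.leadingCoeff} ^ (φ.natDegree - 1) * c₀) t g b
      (Ideal.relNorm (𝓞 k) v) hgs hvr (by rw [← hb, heq]; ring)
    have h5 := map_dvd Ideal.absNorm h4
    rw [map_mul, map_mul, hPn] at h5
    have h6 : Ideal.absNorm g ≤ P * Ideal.absNorm c₀ * Ideal.absNorm b :=
      Nat.le_of_dvd (by positivity) h5
    have h7 : Ideal.absNorm ρ ≤ (C₁ ^ 2 * P) * Ideal.absNorm c₀ := by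
      calc Ideal.absNorm ρ ≤ C₁ * Ideal.absNorm g := h1
        _ ≤ C₁ * (P * Ideal.absNorm c₀ * Ideal.absNorm b) := Nat.mul_le_mul_left _ h6
        _ ≤ C₁ * (P * Ideal.absNorm c₀ * C₁) :=
          Nat.mul_le_mul_left _ (Nat.mul_le_mul_left _ h3)
        _ = _ := by ring
    exact_mod_cast h7

end Pool.Agent.OnePt
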