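import Pool.Agent.OnePt.Gap
import Pool.Agent.SS.Ideals

/-!
# Few points with a large square divisor

HINTS. The set is contained in the union over the natural numbers `t` with `Z ≤ t ≤ V` and over the
ideals `v` with `absNorm v = t` (`SS.card_norm M η`: at most `C₁ t ^ η` of them) of the
sets of `gap` for `w = v ^ 2`, `absNorm w = t ^ 2`. So its cardinality is at most
`∑_{Z ≤ t ≤ V} C₁ t ^ η C (B ^ 2 / t ^ 2 + 1)
≤ C C₁ (B ^ 2 Z ^ (-1/2) ∑ t ^ (-5/4) + V * V ^ η)`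
(for `t ≥ Z`, `η ≤ 1/4`: `t ^ (η - 2) ≤ Z ^ (-1/2) t ^ (-5/4)`; the series converges,
`Real.summable_nat_rpow`; the number of `t` with `1 ≤ t ≤ V` is at most `V`). The sets are finite
(`NumberField.finite_setOfPred_logHeight₁_le`, see `TW.ptsF_finite`).
-/

set_option autoImplicit false

open Polynomial NumberField Module Height

namespace Pool.Agent.OnePt

private theorem sumV_finite (k M : Type) [Field k] [NumberField k] [Field M] [NumberField M]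
    [Algebra k M] (c : 𝓞 k) (θ : 𝓞 M) (B : ℝ) (w : Ideal (𝓞 M)) :
    {x : k | mulHeight₁ x ≤ B ∧ ax c θ x ≤ w}.Finite := by
  refine (NumberField.finite_setOfPred_logHeight₁_le k (Real.log B)).subset fun x hx => ?_
  change logHeight₁ x ≤ Real.log B
  rw [logHeight₁]
  exact Real.log_le_log (lt_of_lt_of_le one_pos (one_le_mulHeight₁ x)) hx.1

theorem sum_v (k M : Type) [Field k] [NumberField k] [Field M] [NumberField M] [Algebra k M]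
    (c : 𝓞 k) (hc : c ≠ 0) (θ : 𝓞 M) (hθ : IntermediateField.adjoin k {(θ : M)} = ⊤) (η : ℝ)
    (hη : 0 < η) (hη4 : η ≤ 1 / 4) :
    ∃ C : ℝ, 0 ≤ C ∧ ∀ B Z V : ℝ, 1 ≤ B → 1 ≤ Z → 1 ≤ V →
      ({x : k | mulHeight₁ x ≤ B ∧ ∃ v : Ideal (𝓞 M), v ≠ ⊥ ∧ ax c θ x ≤ v ^ 2 ∧
        Z ≤ Ideal.absNorm v ∧ (Ideal.absNorm v : ℝ) ≤ V}.ncard : ℝ) ≤
        C * (B ^ 2 * Z ^ (-(1 / 2) : ℝ) + V ^ (1 + η)) := by
  classical
  obtain ⟨C₀, hC₀, hgap⟩ := gap k M c hc θ hθ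
  obtain ⟨C₁, hC₁, hcard⟩ := SS.card_norm M η hη
  have hsum : Summable (fun t : ℕ => (t : ℝ) ^ (-(5 / 4) : ℝ)) :=
    Real.summable_nat_rpow.2 (by norm_num)
  have hnn : ∀ t : ℕ, 0 ≤ (t : ℝ) ^ (-(5 / 4) : ℝ) := fun t =>
    Real.rpow_nonneg (Nat.cast_nonneg t) _
  set S₀ : ℝ := ∑' t : ℕ, (t : ℝ) ^ (-(5 / 4) : ℝ) with hS₀
  have hS₀0 : 0 ≤ S₀ := tsum_nonneg hnn
  refine ⟨C₀ * C₁ * (S₀ + 1), by positivity, fun B Z V hB hZ hV => ?_⟩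
  have hB0 : 0 ≤ B := by linarith
  have hZ0 : 0 < Z := by linarith
  have hV0 : 0 < V := by linarith
  set T : Finset ℕ := Finset.Icc ⌈Z⌉₊ ⌊V⌋₊ with hT
  have hTm : ∀ t ∈ T, 1 ≤ t ∧ Z ≤ t ∧ (t : ℝ) ≤ V := by
    intro t ht
    rw [hT, Finset.mem_Icc] at ht
    have h1 : Z ≤ t := Nat.ceil_le.1 ht.1
    have h2 : (t : ℝ) ≤ V := (Nat.le_floor_iff hV0.le).1 ht.2
    refine ⟨?_, h1, h2⟩
    have h3 : (1 : ℝ) ≤ t := hZ.trans h1
    exact_mod_cast h3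
  let A : Ideal (𝓞 M) → Finset k := fun w => (sumV_finite k M c θ B w).toFinset
  have hA : ∀ w : Ideal (𝓞 M), w ≠ ⊥ → ((A w).card : ℝ) ≤
      C₀ * (B ^ 2 / Ideal.absNorm w + 1) := by
    intro w hw
    have h1 := hgap B hB w hw
    rwa [← Set.ncard_coe_finset, Set.Finite.coe_toFinset]
  let J : ℕ → Finset (Ideal (𝓞 M)) := fun t =>
    if h : 1 ≤ t then (hcard t h).1.toFinset else ∅
  have hJ : ∀ t, 1 ≤ t → ((J t).card : ℝ) ≤ C₁ * (t : ℝ) ^ η := by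
    intro t ht
    have h1 := (hcard t ht).2
    have h2 : J t = (hcard t ht).1.toFinset := dif_pos ht
    rw [h2, ← Set.ncard_coe_finset, Set.Finite.coe_toFinset]
    exact h1
  have hJm : ∀ t, 1 ≤ t → ∀ v, v ∈ J t ↔ Ideal.absNorm v = t := by
    intro t ht v
    have h2 : J t = (hcard t ht).1.toFinset := dif_pos ht
    rw [h2, Set.Finite.mem_toFinset]
    rfl
  -- the covering
  have hsub : {x : k | mulHeight₁ x ≤ B ∧ ∃ v : Ideal (𝓞 M), v ≠ ⊥ ∧ ax c θ x ≤ v ^ 2 ∧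
      Z ≤ Ideal.absNorm v ∧ (Ideal.absNorm v : ℝ) ≤ V} ⊆
      ((T.biUnion fun t => (J t).biUnion fun v => A (v ^ 2) : Finset k) : Set k) := by
    rintro x ⟨hx, v, hv, hxv, hZv, hvV⟩
    have h1 : Ideal.absNorm v ∈ T := by
      rw [hT, Finset.mem_Icc]
      exact ⟨Nat.ceil_le.2 hZv, (Nat.le_floor_iff hV0.le).2 hvV⟩
    rw [Finset.mem_coe, Finset.mem_biUnion]
    refine ⟨Ideal.absNorm v, h1, ?_⟩
    rw [Finset.mem_biUnion]
    refine ⟨v, (hJm _ (hTm _ h1).1 v).2 rfl, ?_⟩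
    rw [Set.Finite.mem_toFinset]
    exact ⟨hx, hxv⟩
  have hcount : ({x : k | mulHeight₁ x ≤ B ∧ ∃ v : Ideal (𝓞 M), v ≠ ⊥ ∧ ax c θ x ≤ v ^ 2 ∧
      Z ≤ Ideal.absNorm v ∧ (Ideal.absNorm v : ℝ) ≤ V}.ncard : ℝ) ≤
      ∑ t ∈ T, ∑ v ∈ J t, ((A (v ^ 2)).card : ℝ) := by
    have h1 := Set.ncard_le_ncard hsub (Finset.finite_toSet _)
    rw [Set.ncard_coe_finset] at h1
    have h2 : (T.biUnion fun t => (J t).biUnion fun v => A (v ^ 2)).card ≤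
        ∑ t ∈ T, ∑ v ∈ J t, (A (v ^ 2)).card :=
      Finset.card_biUnion_le.trans (Finset.sum_le_sum fun t _ => Finset.card_biUnion_le)
    exact_mod_cast h1.trans h2
  -- the terms
  have hterm : ∀ t ∈ T, ∑ v ∈ J t, ((A (v ^ 2)).card : ℝ) ≤
      C₀ * C₁ * (B ^ 2 * (Z ^ (-(1 / 2) : ℝ) * (t : ℝ) ^ (-(5 / 4) : ℝ)) + V ^ η) := by
    intro t ht
    obtain ⟨ht1, htZ, htV⟩ := hTm t ht
    have ht0 : (0 : ℝ) < t := by exact_mod_cast ht1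
    have h1 : ∀ v ∈ J t, ((A (v ^ 2)).card : ℝ) ≤ C₀ * (B ^ 2 / (t : ℝ) ^ 2 + 1) := by
      intro v hv
      have hvt : Ideal.absNorm v = t := (hJm t ht1 v).1 hv
      have hv0 : v ≠ ⊥ := by
        rintro rfl
        rw [Ideal.absNorm_bot] at hvt
        omega
      have h2 := hA (v ^ 2) (pow_ne_zero 2 hv0)
      rw [map_pow, hvt, Nat.cast_pow] at h2
      exact h2
    have h2 := Finset.sum_le_sum h1
    rw [Finset.sum_const, nsmul_eq_mul] at h2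
    refine h2.trans ?_
    have h3 : ((J t).card : ℝ) * (C₀ * (B ^ 2 / (t : ℝ) ^ 2 + 1)) ≤
        (C₁ * (t : ℝ) ^ η) * (C₀ * (B ^ 2 / (t : ℝ) ^ 2 + 1)) :=
      mul_le_mul_of_nonneg_right (hJ t ht1) (by positivity)
    refine h3.trans ?_
    have h4 : (t : ℝ) ^ η * (B ^ 2 / (t : ℝ) ^ 2) ≤
        B ^ 2 * (Z ^ (-(1 / 2) : ℝ) * (t : ℝ) ^ (-(5 / 4) : ℝ)) := by
      have h5 : (t : ℝ) ^ η * (B ^ 2 / (t : ℝ) ^ 2) = B ^ 2 * (t : ℝ) ^ (η - 2) := by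
        rw [Real.rpow_sub ht0, Real.rpow_two]
        ring
      rw [h5]
      refine mul_le_mul_of_nonneg_left ?_ (by positivity)
      have h6 : (t : ℝ) ^ (η - 2) = (t : ℝ) ^ (η - 3 / 4) * (t : ℝ) ^ (-(5 / 4) : ℝ) := by
        rw [← Real.rpow_add ht0]
        congr 1
        ring
      rw [h6]
      refine mul_le_mul_of_nonneg_right ?_ (hnn t)
      calc (t : ℝ) ^ (η - 3 / 4) ≤ (t : ℝ) ^ (-(1 / 2) : ℝ) :=
            Real.rpow_le_rpow_of_exponent_le (hZ.trans htZ) (by linarith)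
        _ ≤ Z ^ (-(1 / 2) : ℝ) := Real.rpow_le_rpow_of_nonpos hZ0 htZ (by norm_num)
    have h7 : (t : ℝ) ^ η ≤ V ^ η := Real.rpow_le_rpow ht0.le htV hη.le
    calc C₁ * (t : ℝ) ^ η * (C₀ * (B ^ 2 / (t : ℝ) ^ 2 + 1))
        = C₀ * C₁ * ((t : ℝ) ^ η * (B ^ 2 / (t : ℝ) ^ 2) + (t : ℝ) ^ η) := by ring
      _ ≤ _ := mul_le_mul_of_nonneg_left (add_le_add h4 h7) (by positivity)
  refine hcount.trans ((Finset.sum_le_sum hterm).trans ?_)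
  rw [← Finset.mul_sum, Finset.sum_add_distrib, ← Finset.mul_sum, ← Finset.mul_sum,
    Finset.sum_const, nsmul_eq_mul]
  have h8 : ∑ t ∈ T, (t : ℝ) ^ (-(5 / 4) : ℝ) ≤ S₀ := hsum.sum_le_tsum T fun t _ => hnn t
  have h9 : (T.card : ℝ) ≤ V := by
    have h10 : T.card ≤ ⌊V⌋₊ := by
      have h11 : T ⊆ Finset.Icc 1 ⌊V⌋₊ := by
        intro t ht
        have h12 := ht
        rw [hT, Finset.mem_Icc] at h12
        rw [Finset.mem_Icc]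
        exact ⟨(hTm t ht).1, h12.2⟩
      have h13 : (Finset.Icc 1 ⌊V⌋₊).card = ⌊V⌋₊ := by
        rw [Nat.card_Icc]
        omega
      exact (Finset.card_le_card h11).trans h13.le
    exact (Nat.cast_le.2 h10).trans (Nat.floor_le hV0.le)
  have h14 : (T.card : ℝ) * V ^ η ≤ V ^ (1 + η) := by
    rw [Real.rpow_add hV0, Real.rpow_one]
    exact mul_le_mul_of_nonneg_right h9 (Real.rpow_nonneg hV0.le _)
  have h15 : B ^ 2 * (Z ^ (-(1 / 2) : ℝ) * ∑ t ∈ T, (t : ℝ) ^ (-(5 / 4) : ℝ)) ≤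
      (B ^ 2 * Z ^ (-(1 / 2) : ℝ)) * S₀ := by
    rw [← mul_assoc]
    exact mul_le_mul_of_nonneg_left h8
      (mul_nonneg (by positivity) (Real.rpow_nonneg hZ0.le _))
  have h16 : 0 ≤ B ^ 2 * Z ^ (-(1 / 2) : ℝ) :=
    mul_nonneg (by positivity) (Real.rpow_nonneg hZ0.le _)
  have h17 : 0 ≤ V ^ (1 + η) := Real.rpow_nonneg hV0.le _
  calc C₀ * C₁ * (B ^ 2 * (Z ^ (-(1 / 2) : ℝ) * ∑ t ∈ T, (t : ℝ) ^ (-(5 / 4) : ℝ)) +
        (T.card : ℝ) * V ^ η)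
      ≤ C₀ * C₁ * ((S₀ + 1) * (B ^ 2 * Z ^ (-(1 / 2) : ℝ) + V ^ (1 + η))) := by
        refine mul_le_mul_of_nonneg_left ?_ (by positivity)
        nlinarith [mul_nonneg hS₀0 h17]
    _ = _ := by ring

end Pool.Agent.OnePt
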