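import Pool.Agent.OnePt.Alg
import Pool.Agent.SS.Ideals
import Pool.Agent.TW.Main
import Pool.Agent.TW.Final

/-!
# Few points with a small squarefree part: classes modulo squares

HINTS. Write `J = denIdealOf x`, `n = φ.natDegree`, `v = φ(x)`. For every `x` with `v ≠ 0` choose
`j ∈ J`, `j ≠ 0`, and `a x : 𝓞 k` with `a x = v * j ^ (2 n)` (integral by `SS.eval_int`), so
`a x ≠ 0` and `span {a x} * J ^ (2 n) = span {j ^ (2 n)} * (zf φ x * J ^ n)` (elementwise from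
`SS.mem_zid`). With the squarefree part `c` of `zf φ x * J ^ n`:
`span {a x} * (J ^ n) ^ 2 = c * (span {j ^ n} * t) ^ 2`, so by `sq_dvd` twice the squarefree part of
`span {a x}` (write `span {a x} = e * s ^ 2`, `exists_od`) is `e = c`: `e ∣ c`, `c ∣ e`.
So `span {a x} = c * s ^ 2`. The class of `a x` modulo squares depends only on (1) the ideal `c`,
(2) the class of `s` in the class group, (3) a unit modulo squares: if `s`, `s'` are in the same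
class then `x₁ s = x₂ s'` with elements `x₁, x₂ ≠ 0` (`ClassGroup.mk0_eq_mk0_iff`), so
`x₁ ^ 2 * a x = u * x₂ ^ 2 * a x'` with a unit `u`: see `rel_of_code` and the use of the units
modulo squares (finitely many classes) in Pool/Agent/TW/SqClass.lean; copy what is private there.
So the number of classes is at most `C₁ * #{c : absNorm c ≤ U}`, and
`#{c ≠ 0 : absNorm c ≤ U} ≤ ∑_{t ≤ U} C₂ t ^ η ≤ C₂ U ^ (1 + η)` (`SS.card_norm` in SS/Ideals.lean).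
If `φ(x)` and `φ(x')` differ by a nonzero square of `k` then `x ∈ TW.ptsF φ' (φ(x')) T` with
`φ' = φ.map ..` (`TW.ptsF f δ T = {x | logHeight₁ x ≤ T ∧ ∃ y ≠ 0, δ * y ^ 2 = f.eval x}`), and
`TW.twist_le` bounds the number of such `x` by `C₃ * exp (η T)`, uniformly in `δ`. Sum over the
classes (`AA.UpperAux.ncard_le_of_fiber`, used in TW/Main.lean `small_count`, the same pattern).
-/

set_option autoImplicit false

open Polynomial NumberField Module Height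

namespace Pool.Agent.OnePt

private abbrev UQ (L : Type) [Field L] [NumberField L] : Type :=
  (𝓞 L)ˣ ⧸ (powMonoidHom 2 : (𝓞 L)ˣ →* (𝓞 L)ˣ).range

private theorem finite_UQ (L : Type) [Field L] [NumberField L] : Finite (UQ L) := by
  have h0 : Group.FG (𝓞 L)ˣ := Group.fg_iff_monoid_fg.2 inferInstance
  have h1 : Group.FG (UQ L) := QuotientGroup.fg _
  refine CommGroup.finite_of_fg_isMulTorsion (G := UQ L) ?_
  intro q
  induction q using QuotientGroup.induction_on with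
  | H u =>
    rw [isOfFinOrder_iff_pow_eq_one]
    refine ⟨2, two_pos, ?_⟩
    rw [← QuotientGroup.mk_pow, QuotientGroup.eq_one_iff]
    exact ⟨u, rfl⟩

/-- an integer in the class of the value, with the squarefree part -/
private theorem Twist_span (k : Type) [Field k] [NumberField k] (φ : (𝓞 k)[X]) (x : k)
    (hv : aeval x (φ.map (algebraMap (𝓞 k) k)) ≠ 0) (c : Ideal (𝓞 k))
    (hc : Od (SS.zf φ x * RefW.denIdealOf x ^ φ.natDegree) c) :
    ∃ (a : 𝓞 k) (t : k) (s : Ideal (𝓞 k)), a ≠ 0 ∧ t ≠ 0 ∧ s ≠ ⊥ ∧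
      (a : k) = aeval x (φ.map (algebraMap (𝓞 k) k)) * t ^ 2 ∧ Ideal.span {a} = c * s ^ 2 := by
  set v : k := aeval x (φ.map (algebraMap (𝓞 k) k)) with hvdef
  set J := RefW.denIdealOf x with hJ
  set n := φ.natDegree with hn
  have hJ0 : J ≠ ⊥ := (RefW.denIdeal_norm_le x).1
  obtain ⟨j, hj, hj0⟩ := Submodule.exists_mem_ne_zero_of_ne_bot hJ0
  have hjk : (j : k) ≠ 0 := by
    intro h
    exact hj0 (by exact_mod_cast h)
  have hjn : j ^ n ∈ J ^ n := Ideal.pow_mem_pow hj n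
  obtain ⟨w, hw⟩ := SS.eval_int φ x n le_rfl _ hjn
  have e0 : ((j ^ n : 𝓞 k) : k) = (j : k) ^ n := rfl
  have hw' : (w : k) = v * (j : k) ^ n := by rw [hw, e0]
  have h1 : Ideal.span {w} * J ^ n = Ideal.span {j ^ n} * SS.zf φ x := by
    refine le_antisymm ?_ ?_
    · rw [Ideal.mul_le]
      intro r hr i hi
      obtain ⟨b, rfl⟩ := Ideal.mem_span_singleton'.1 hr
      obtain ⟨z, hz⟩ := SS.eval_int φ x n le_rfl _ hi
      have h2 : b * w * i = b * (j ^ n * z) := by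
        apply RingOfIntegers.ext
        change (b : k) * (w : k) * (i : k) = (b : k) * ((j : k) ^ n * (z : k))
        rw [hw', hz]
        ring
      rw [h2]
      refine Ideal.mul_mem_left _ _ (Ideal.mul_mem_mul (Ideal.mem_span_singleton_self _) ?_)
      exact ⟨i, hi, hz⟩
    · rw [Ideal.mul_le]
      intro r hr z hz
      obtain ⟨b, rfl⟩ := Ideal.mem_span_singleton'.1 hr
      obtain ⟨i, hi, hz⟩ := hz
      have h2 : b * j ^ n * z = b * (w * i) := by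
        apply RingOfIntegers.ext
        change (b : k) * (j : k) ^ n * (z : k) = (b : k) * ((w : k) * (i : k))
        rw [hw', hz]
        ring
      rw [h2]
      exact Ideal.mul_mem_left _ _ (Ideal.mul_mem_mul (Ideal.mem_span_singleton_self _) hi)
  obtain ⟨hcs, t, ht, hct⟩ := hc
  set a : 𝓞 k := w * j ^ n with ha
  have hak : (a : k) = v * ((j : k) ^ n) ^ 2 := by
    change (w : k) * (j : k) ^ n = _
    rw [hw']
    ring
  have ha0 : a ≠ 0 := by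
    intro h
    rw [h] at hak
    have h3 : v * ((j : k) ^ n) ^ 2 = 0 := by
      rw [← hak]
      rfl
    exact mul_ne_zero hv (pow_ne_zero _ (pow_ne_zero _ hjk)) h3
  have hspan0 : (Ideal.span {a} : Ideal (𝓞 k)) ≠ ⊥ := by
    rw [Ne, Ideal.span_singleton_eq_bot]
    exact ha0
  obtain ⟨e, he, s, hs, hes⟩ := exists_od _ hspan0
  have hj1 : (Ideal.span {j ^ n} : Ideal (𝓞 k)) ≠ 0 := by
    rw [Ne, Ideal.zero_eq_bot, Ideal.span_singleton_eq_bot]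
    exact pow_ne_zero _ hj0
  have h3 : e * (s * J ^ n) ^ 2 = c * (Ideal.span {j ^ n} * t) ^ 2 := by
    calc e * (s * J ^ n) ^ 2 = (e * s ^ 2) * (J ^ n) ^ 2 := by ring
      _ = Ideal.span {a} * (J ^ n) ^ 2 := by rw [hes]
      _ = (Ideal.span {w} * J ^ n) * (Ideal.span {j ^ n} * J ^ n) := by
          rw [ha, ← Ideal.span_singleton_mul_span_singleton]
          ring
      _ = Ideal.span {j ^ n} ^ 2 * (SS.zf φ x * J ^ n) := by
          rw [h1]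
          ring
      _ = _ := by
          rw [hct]
          ring
  have h4 : (s * J ^ n) ≠ ⊥ := mul_ne_zero hs (pow_ne_zero _ hJ0)
  have h5 : (Ideal.span {j ^ n} * t) ≠ ⊥ := mul_ne_zero hj1 ht
  have h6 : c ∣ e := by
    have := sq_dvd e (s * J ^ n) c 1 (Ideal.span {j ^ n} * t) hcs h5 (by rw [mul_one]; exact h3)
    rwa [mul_one] at this
  have h7 : e ∣ c := by
    have := sq_dvd c (Ideal.span {j ^ n} * t) e 1 (s * J ^ n) he h4
      (by rw [mul_one]; exact h3.symm)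
    rwa [mul_one] at this
  have h8 : e = c := le_antisymm (Ideal.dvd_iff_le.1 h6) (Ideal.dvd_iff_le.1 h7)
  exact ⟨a, (j : k) ^ n, s, ha0, pow_ne_zero _ hjk, hs, hak, by rw [hes, h8]⟩

/-- two integers with the same data differ by a unit and a square -/
private theorem Twist_rel {L : Type} [Field L] [NumberField L] (a b : 𝓞 L)
    (c s s' : Ideal (𝓞 L)) (hs : s ≠ ⊥) (hs' : s' ≠ ⊥) (ha : Ideal.span {a} = c * s ^ 2)
    (hb : Ideal.span {b} = c * s' ^ 2)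
    (hcl : ClassGroup.mk0 ⟨s, mem_nonZeroDivisors_of_ne_zero hs⟩ =
      ClassGroup.mk0 ⟨s', mem_nonZeroDivisors_of_ne_zero hs'⟩) :
    ∃ (u : (𝓞 L)ˣ) (x y : 𝓞 L), x ≠ 0 ∧ y ≠ 0 ∧ x ^ 2 * a * u = y ^ 2 * b := by
  obtain ⟨x, y, hx, hy, hxy⟩ := ClassGroup.mk0_eq_mk0_iff.1 hcl
  have hxy' : Ideal.span {x} * s = Ideal.span {y} * s' := hxy
  have h4 : Ideal.span {x ^ 2 * a} = Ideal.span {y ^ 2 * b} := by
    rw [← Ideal.span_singleton_mul_span_singleton, ← Ideal.span_singleton_mul_span_singleton,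
      ← Ideal.span_singleton_pow, ← Ideal.span_singleton_pow, ha, hb]
    calc Ideal.span {x} ^ 2 * (c * s ^ 2) = c * (Ideal.span {x} * s) ^ 2 := by ring
      _ = c * (Ideal.span {y} * s') ^ 2 := by rw [hxy']
      _ = _ := by ring
  obtain ⟨u, hu⟩ := Ideal.span_singleton_eq_span_singleton.1 h4
  exact ⟨u, x, y, hx, hy, hu⟩

/-- a representative of the integers with given data -/
private theorem Twist_rep {L : Type} [Field L] [NumberField L] (c : Ideal (𝓞 L))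
    (γ : ClassGroup (𝓞 L)) : ∃ ρ : 𝓞 L, ρ ≠ 0 ∧
      ∀ (a : 𝓞 L) (s : Ideal (𝓞 L)) (hs : s ≠ ⊥), a ≠ 0 → Ideal.span {a} = c * s ^ 2 →
        ClassGroup.mk0 ⟨s, mem_nonZeroDivisors_of_ne_zero hs⟩ = γ →
        ∃ (u : (𝓞 L)ˣ) (x y : 𝓞 L), x ≠ 0 ∧ y ≠ 0 ∧ x ^ 2 * a * u = y ^ 2 * ρ := by
  by_cases h : ∃ (b : 𝓞 L) (s' : Ideal (𝓞 L)) (hs' : s' ≠ ⊥), b ≠ 0 ∧
      Ideal.span {b} = c * s' ^ 2 ∧ ClassGroup.mk0 ⟨s', mem_nonZeroDivisors_of_ne_zero hs'⟩ = γ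
  · obtain ⟨b, s', hs', hb0, hb, hγ⟩ := h
    refine ⟨b, hb0, fun a s hs _ ha hcl => ?_⟩
    exact Twist_rel a b c s s' hs hs' ha hb (hcl.trans hγ.symm)
  · refine ⟨1, one_ne_zero, fun a s hs ha0 ha hcl => ?_⟩
    exact absurd ⟨a, s, hs, ha0, ha, hcl⟩ h

/-- the number of ideals of bounded norm -/
private theorem Twist_ideals (k : Type) [Field k] [NumberField k] (η : ℝ) (hη : 0 < η) :
    ∃ C : ℝ, 0 ≤ C ∧ ∀ U : ℝ, 1 ≤ U →
      {c : Ideal (𝓞 k) | c ≠ 0 ∧ (Ideal.absNorm c : ℝ) ≤ U}.Finite ∧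
      ({c : Ideal (𝓞 k) | c ≠ 0 ∧ (Ideal.absNorm c : ℝ) ≤ U}.ncard : ℝ) ≤
        C * U ^ (1 + η) := by
  obtain ⟨C, hC, hCt⟩ := SS.card_norm k η hη
  refine ⟨C, hC.le, fun U hU => ?_⟩
  have hU0 : 0 < U := by linarith
  have h1 := AA.UpperAux.ncard_le_of_fiber
    {c : Ideal (𝓞 k) | c ≠ 0 ∧ (Ideal.absNorm c : ℝ) ≤ U} (fun c => Ideal.absNorm c)
    (Set.Icc 1 ⌊U⌋₊) (Set.finite_Icc _ _) ?_ (C * U ^ η) ?_
  · refine ⟨h1.1, h1.2.trans ?_⟩
    have h2 : ((Set.Icc 1 ⌊U⌋₊).ncard : ℝ) ≤ U := by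
      have h3 : (Set.Icc 1 ⌊U⌋₊).ncard = ⌊U⌋₊ := by
        rw [← Finset.coe_Icc, Set.ncard_coe_finset, Nat.card_Icc]
        omega
      rw [h3]
      exact Nat.floor_le hU0.le
    calc ((Set.Icc 1 ⌊U⌋₊).ncard : ℝ) * (C * U ^ η) ≤ U * (C * U ^ η) :=
          mul_le_mul_of_nonneg_right h2 (by positivity)
      _ = C * U ^ (1 + η) := by
          rw [Real.rpow_add hU0, Real.rpow_one]
          ring
  · rintro c ⟨hc0, hc⟩
    refine ⟨?_, Nat.le_floor hc⟩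
    rw [Nat.one_le_iff_ne_zero, Ne, Ideal.absNorm_eq_zero_iff]
    exact hc0
  · rintro t ⟨ht1, ht2⟩
    obtain ⟨h2, h3⟩ := hCt t ht1
    have hsub : {c : Ideal (𝓞 k) | c ≠ 0 ∧ (Ideal.absNorm c : ℝ) ≤ U} ∩
        (fun c => Ideal.absNorm c) ⁻¹' {t} ⊆ {w : Ideal (𝓞 k) | Ideal.absNorm w = t} := by
      rintro c ⟨_, hc⟩
      exact hc
    refine ⟨h2.subset hsub, ?_⟩
    have h4 : (({c : Ideal (𝓞 k) | c ≠ 0 ∧ (Ideal.absNorm c : ℝ) ≤ U} ∩
        (fun c => Ideal.absNorm c) ⁻¹' {t}).ncard : ℝ) ≤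
        ({w : Ideal (𝓞 k) | Ideal.absNorm w = t}.ncard : ℝ) := by
      exact_mod_cast Set.ncard_le_ncard hsub h2
    refine h4.trans (h3.trans (mul_le_mul_of_nonneg_left ?_ hC.le))
    refine Real.rpow_le_rpow (Nat.cast_nonneg _) ?_ hη.le
    exact (Nat.le_floor_iff hU0.le).1 ht2

theorem twist_od (k : Type) [Field k] [NumberField k] (φ : (𝓞 k)[X])
    (hφ : Squarefree (φ.map (algebraMap (𝓞 k) k))) (hdeg : 3 ≤ φ.natDegree) (η : ℝ) (hη : 0 < η) :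
    ∃ C : ℝ, 0 ≤ C ∧ ∀ T U : ℝ, 0 ≤ T → 1 ≤ U →
      ({x : k | logHeight₁ x ≤ T ∧ aeval x (φ.map (algebraMap (𝓞 k) k)) ≠ 0 ∧
        ∃ c : Ideal (𝓞 k), Od (SS.zf φ x * RefW.denIdealOf x ^ φ.natDegree) c ∧
          (Ideal.absNorm c : ℝ) ≤ U}.ncard : ℝ) ≤ C * U ^ (1 + η) * Real.exp (η * T) := by
  classical
  have hinj : Function.Injective (algebraMap (𝓞 k) k) := RingOfIntegers.coe_injective
  set f : k[X] := φ.map (algebraMap (𝓞 k) k) with hf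
  have hdegf : f.natDegree = φ.natDegree := natDegree_map_eq_of_injective hinj φ
  obtain ⟨C₃, hC₃⟩ := TW.twist_le k f hφ (by omega) η hη
  have hC₃0 : 0 ≤ C₃ := by
    have h3 := hC₃ 0 le_rfl 1 one_ne_zero
    rw [mul_zero, Real.exp_zero, mul_one] at h3
    exact (Nat.cast_nonneg _).trans h3
  obtain ⟨C₂, hC₂0, hC₂⟩ := Twist_ideals k η hη
  have hUQ := finite_UQ k
  choose ρ hρ0 hρ using fun (c : Ideal (𝓞 k)) (γ : ClassGroup (𝓞 k)) => Twist_rep c γ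
  set C₁ : ℝ := ((Nat.card (ClassGroup (𝓞 k)) * Nat.card (UQ k) : ℕ) : ℝ) with hC₁
  have hC₁0 : 0 ≤ C₁ := Nat.cast_nonneg _
  refine ⟨C₁ * C₂ * C₃, by positivity, fun T U hT hU => ?_⟩
  set S : Set k := {x : k | logHeight₁ x ≤ T ∧ aeval x f ≠ 0 ∧
        ∃ c : Ideal (𝓞 k), Od (SS.zf φ x * RefW.denIdealOf x ^ φ.natDegree) c ∧
          (Ideal.absNorm c : ℝ) ≤ U} with hS
  obtain ⟨hI1, hI2⟩ := hC₂ U hU
  set I : Set (Ideal (𝓞 k)) := {c : Ideal (𝓞 k) | c ≠ 0 ∧ (Ideal.absNorm c : ℝ) ≤ U} with hI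
  -- the index of a point
  have hex : ∀ x : k, ∃ i : Ideal (𝓞 k) × (ClassGroup (𝓞 k) × UQ k), x ∈ S →
      i.1 ∈ I ∧ x ∈ TW.ptsF f ((ρ i.1 i.2.1 : k) * ((i.2.2.out : (𝓞 k)ˣ) : 𝓞 k)) T := by
    intro x
    by_cases hx : x ∈ S
    · obtain ⟨hx1, hx2, c, hc, hcU⟩ := hx
      obtain ⟨a, t, s, ha0, ht0, hs0, hak, hspan⟩ := Twist_span k φ x hx2 c hc
      obtain ⟨u, x₁, y₁, hx₁, hy₁, huv⟩ := hρ c _ a s hs0 ha0 hspan rfl
      set γ := ClassGroup.mk0 ⟨s, mem_nonZeroDivisors_of_ne_zero hs0⟩ with hγ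
      set q : UQ k := QuotientGroup.mk u⁻¹ with hq
      obtain ⟨w, hw⟩ : ∃ w : (𝓞 k)ˣ, q.out = u⁻¹ * w ^ 2 := by
        have h1 : (QuotientGroup.mk u⁻¹ : UQ k) = QuotientGroup.mk q.out := by
          rw [QuotientGroup.out_eq']
        obtain ⟨w, hw⟩ := (QuotientGroup.eq.1 h1 : (u⁻¹)⁻¹ * q.out ∈
          (powMonoidHom 2 : (𝓞 k)ˣ →* (𝓞 k)ˣ).range)
        refine ⟨w, ?_⟩
        have h2 : w ^ 2 = (u⁻¹)⁻¹ * q.out := hw
        rw [h2, mul_inv_cancel_left]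
      refine ⟨(c, (γ, q)), fun _ => ⟨⟨hc.1.ne_zero, hcU⟩, hx1, ?_⟩⟩
      have nz : ∀ z : 𝓞 k, z ≠ 0 → (z : k) ≠ 0 := fun z hz h => hz (by exact_mod_cast h)
      have hu0 : ((u : 𝓞 k) : k) ≠ 0 := nz _ u.ne_zero
      have hw0 : ((w : 𝓞 k) : k) ≠ 0 := nz _ w.ne_zero
      have hx10 := nz x₁ hx₁
      have hy10 := nz y₁ hy₁
      have hρk := nz _ (hρ0 c γ)
      refine ⟨(y₁ : k) / (t * x₁ * ((w : 𝓞 k) : k)), div_ne_zero hy10 (by positivity), ?_⟩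
      have c1 : (x₁ : k) ^ 2 * (aeval x f * t ^ 2) * ((u : 𝓞 k) : k) =
          (y₁ : k) ^ 2 * (ρ c γ : k) := by
        rw [← hak]
        exact_mod_cast congrArg (algebraMap (𝓞 k) k) huv
      have c2 : ((q.out : 𝓞 k) : k) * ((u : 𝓞 k) : k) = ((w : 𝓞 k) : k) ^ 2 := by
        have h1 : (q.out : 𝓞 k) * (u : 𝓞 k) = (w : 𝓞 k) ^ 2 := by
          rw [hw]
          push_cast
          rw [mul_comm, ← mul_assoc, Units.mul_inv, one_mul]
        exact_mod_cast congrArg (algebraMap (𝓞 k) k) h1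
      rw [← coe_aeval_eq_eval]
      change (ρ c γ : k) * ((q.out : 𝓞 k) : k) * _ ^ 2 = aeval x f
      rw [div_pow, ← mul_div_assoc, div_eq_iff (by positivity)]
      have h1 : ((u : 𝓞 k) : k) * ((ρ c γ : k) * ((q.out : 𝓞 k) : k) * (y₁ : k) ^ 2) =
          ((u : 𝓞 k) : k) * (aeval x f * (t * x₁ * ((w : 𝓞 k) : k)) ^ 2) := by
        calc ((u : 𝓞 k) : k) * ((ρ c γ : k) * ((q.out : 𝓞 k) : k) * (y₁ : k) ^ 2)
            = ((q.out : 𝓞 k) : k) * ((u : 𝓞 k) : k) * ((y₁ : k) ^ 2 * (ρ c γ : k)) := by ring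
          _ = ((w : 𝓞 k) : k) ^ 2 * ((x₁ : k) ^ 2 * (aeval x f * t ^ 2) * ((u : 𝓞 k) : k)) := by
              rw [c2, c1]
          _ = _ := by ring
      exact mul_left_cancel₀ hu0 h1
    · exact ⟨(⊥, (1, 1)), fun h => absurd h hx⟩
  choose g hg using hex
  have h5 := AA.UpperAux.ncard_le_of_fiber S g (I ×ˢ Set.univ)
    (hI1.prod Set.finite_univ) ?_ (C₃ * Real.exp (η * T)) ?_
  · refine h5.2.trans ?_
    have h6 : ((I ×ˢ (Set.univ : Set (ClassGroup (𝓞 k) × UQ k))).ncard : ℝ) ≤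
        C₁ * (C₂ * U ^ (1 + η)) := by
      rw [Set.ncard_prod, Set.ncard_univ, Nat.card_prod, Nat.cast_mul, mul_comm]
      exact mul_le_mul_of_nonneg_left hI2 hC₁0
    calc ((I ×ˢ (Set.univ : Set (ClassGroup (𝓞 k) × UQ k))).ncard : ℝ) *
          (C₃ * Real.exp (η * T)) ≤ (C₁ * (C₂ * U ^ (1 + η))) * (C₃ * Real.exp (η * T)) :=
          mul_le_mul_of_nonneg_right h6 (by positivity)
      _ = _ := by ring
  · intro x hx
    exact ⟨(hg x hx).1, Set.mem_univ _⟩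
  · rintro ⟨c, γ, q⟩ _
    have hδ : (ρ c γ : k) * ((q.out : (𝓞 k)ˣ) : 𝓞 k) ≠ 0 := by
      have nz : ∀ z : 𝓞 k, z ≠ 0 → (z : k) ≠ 0 := fun z hz h => hz (by exact_mod_cast h)
      exact mul_ne_zero (nz _ (hρ0 c γ)) (nz _ (Units.ne_zero _))
    have hsub : S ∩ g ⁻¹' {(c, (γ, q))} ⊆
        TW.ptsF f ((ρ c γ : k) * ((q.out : (𝓞 k)ˣ) : 𝓞 k)) T := by
      rintro x ⟨hx, hgx⟩
      have h7 := (hg x hx).2
      have h8 : g x = (c, (γ, q)) := hgx
      rw [h8] at h7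
      exact h7
    refine ⟨(TW.ptsF_finite _ _ _).subset hsub, ?_⟩
    have h6 : ((S ∩ g ⁻¹' {(c, (γ, q))}).ncard : ℝ) ≤
        ((TW.ptsF f ((ρ c γ : k) * ((q.out : (𝓞 k)ˣ) : 𝓞 k)) T).ncard : ℝ) := by
      exact_mod_cast Set.ncard_le_ncard hsub (TW.ptsF_finite _ _ _)
    exact h6.trans (hC₃ T hT _ hδ)

end Pool.Agent.OnePt
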