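import Pool.Agent.OnePt.Setup
import Pool.Agent.OnePt.NearK
import Pool.Agent.OnePt.Rel
import Pool.Agent.OnePt.SumV
import Pool.Agent.OnePt.Twist

/-!
# The squarefree part of the value of a polynomial of degree at most four
-/

set_option autoImplicit false

open Polynomial NumberField Module Height

namespace Pool.Agent.OnePt

theorem logHeight_nonneg {k : Type} [Field k] [NumberField k] (x : k) : 0 ≤ logHeight₁ x :=
  Height.zero_le_logHeight₁ x

theorem zf_ne_bot {k : Type} [Field k] [NumberField k] (φ : (𝓞 k)[X]) (x : k)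
    (hx : aeval x (φ.map (algebraMap (𝓞 k) k)) ≠ 0) : SS.zf φ x ≠ ⊥ := by
  intro h
  obtain ⟨j, hj, hj0⟩ := Submodule.exists_mem_ne_zero_of_ne_bot
    (pow_ne_zero φ.natDegree (RefW.denIdeal_norm_le x).1 : RefW.denIdealOf x ^ φ.natDegree ≠ 0)
  obtain ⟨t, ht⟩ := hint_k φ x j hj
  have h1 : t ∈ SS.zf φ x := ⟨j, hj, ht⟩
  rw [h] at h1
  have h2 : t = 0 := h1
  rw [h2] at ht
  have h3 : (j : k) ≠ 0 := fun h => hj0 (RingOfIntegers.ext h)
  exact mul_ne_zero hx h3 (by rw [← ht]; rfl)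

theorem norm_pos {R : Type} [Field R] [NumberField R] {I : Ideal (𝓞 R)} (hI : I ≠ ⊥) :
    (1 : ℝ) ≤ Ideal.absNorm I := by
  have : Ideal.absNorm I ≠ 0 := by
    rw [Ne, Ideal.absNorm_eq_zero_iff]
    exact hI
  exact_mod_cast Nat.one_le_iff_ne_zero.2 this

theorem od_ne_bot {R : Type} [Field R] [NumberField R] {I c : Ideal (𝓞 R)} (hc : Od I c) :
    c ≠ ⊥ := by
  intro h
  exact hc.1.ne_zero h

/-- the squarefree part of the value of a polynomial of degree at most four -/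
theorem good_four (k : Type) [Field k] [NumberField k] (φ : (𝓞 k)[X])
    (hφ : Irreducible (φ.map (algebraMap (𝓞 k) k))) (hn4 : φ.natDegree ≤ 4) (κ : ℝ)
    (hκ : 0 < κ) : ∃ C δ : ℝ, 0 ≤ C ∧ 0 < δ ∧ ∀ T : ℝ, 0 ≤ T →
      ({x : k | logHeight₁ x ≤ T ∧ aeval x (φ.map (algebraMap (𝓞 k) k)) ≠ 0 ∧
        ∃ c : Ideal (𝓞 k), Od (SS.zf φ x) c ∧
          Real.log (Ideal.absNorm c) < (φ.natDegree - κ) * logHeight₁ x}.ncard : ℝ) ≤
        C * Real.exp ((2 - δ) * T) := by
  classical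
  -- reduction to `κ ≤ 1`
  wlog hκ1 : κ ≤ 1 generalizing κ
  · obtain ⟨C, δ, h1, h2, h3⟩ := this 1 one_pos le_rfl
    refine ⟨C, δ, h1, h2, fun T hT => le_trans ?_ (h3 T hT)⟩
    refine (Nat.cast_le (α := ℝ)).2 (Set.ncard_le_ncard ?_
      ((finite_k T).subset fun _ hx => hx.1))
    rintro x ⟨g1, g2, c, g3, g4⟩
    refine ⟨g1, g2, c, g3, g4.trans_le ?_⟩
    exact mul_le_mul_of_nonneg_right (by linarith) (logHeight_nonneg x)
  obtain ⟨M, _, _, _, e, θ, he, hfr, hθe, hθ⟩ := setup k φ hφ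
  set n := φ.natDegree with hn
  have hφ0 : φ ≠ 0 := by
    rintro rfl
    simp at hφ
  have hlc : φ.leadingCoeff ≠ 0 := leadingCoeff_ne_zero.2 hφ0
  obtain ⟨C₁, hC₁, hrel⟩ := rel k M φ hφ e he hfr θ hθe hθ
  obtain ⟨C₂, hC₂, hsum⟩ := sum_v k M φ.leadingCoeff hlc θ hθ (1 / 16) (by norm_num)
    (by norm_num)
  obtain ⟨C₃, hC₃, hcount⟩ := count_k k
  obtain ⟨C₄, hC₄, hnear⟩ := near_k φ hφ.squarefree (κ / 4) (κ / 8) (by positivity)
    (by linarith) (by positivity)
  have htw : ∃ C : ℝ, 0 ≤ C ∧ (n = 4 → ∀ T U : ℝ, 0 ≤ T → 1 ≤ U →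
      ({x : k | logHeight₁ x ≤ T ∧ aeval x (φ.map (algebraMap (𝓞 k) k)) ≠ 0 ∧
        ∃ c : Ideal (𝓞 k), Od (SS.zf φ x * RefW.denIdealOf x ^ n) c ∧
          (Ideal.absNorm c : ℝ) ≤ U}.ncard : ℝ) ≤
            C * U ^ (1 + (1 / 4 : ℝ)) * Real.exp ((1 / 4 : ℝ) * T)) := by
    by_cases h4 : n = 4
    · obtain ⟨C, hC, h⟩ := twist_od k φ hφ.squarefree (by omega) (1 / 4) (by norm_num)
      exact ⟨C, hC, fun _ => h⟩
    · exact ⟨0, le_rfl, fun h => absurd h h4⟩
  obtain ⟨C₅, hC₅, htwist⟩ := htw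
  obtain ⟨C₆, hC₆, hup⟩ := log_zf_le φ
  set Nc : ℕ := (Algebra.norm ℤ φ.leadingCoeff).natAbs with hNc
  have hNc0 : Nc ≠ 0 := Int.natAbs_ne_zero.2 (Algebra.norm_ne_zero_iff.2 hlc)
  have hNc1 : (1 : ℝ) ≤ Nc := by exact_mod_cast Nat.one_le_iff_ne_zero.2 hNc0
  have hlNc : 0 ≤ Real.log Nc := Real.log_nonneg hNc1
  have hlC₁ : 0 ≤ Real.log C₁ := Real.log_nonneg hC₁
  -- the constants
  set L : ℝ := Real.log C₁ + n * Real.log Nc + C₆ with hL
  have hL0 : 0 ≤ L := by positivity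
  set h₀ : ℝ := 2 * L / κ + 2 * L with hh₀
  have hh₀0 : 0 ≤ h₀ := by positivity
  set δ : ℝ := κ / 32 with hδ
  have hδ0 : 0 < δ := by positivity
  set K₀ : ℝ := ({x : k | logHeight₁ x ≤ h₀}.ncard : ℝ) with hK₀
  have hK₀0 : 0 ≤ K₀ := Nat.cast_nonneg _
  set U₁ : ℝ := Real.exp L with hU₁
  have hU₁1 : 1 ≤ U₁ := Real.one_le_exp hL0
  refine ⟨K₀ + C₃ + C₄ + C₂ * 2 + C₅ * U₁ ^ (5 / 4 : ℝ), δ, by positivity, hδ0,
    fun T hT => ?_⟩
  set Q : Set k := {x : k | logHeight₁ x ≤ T ∧ aeval x (φ.map (algebraMap (𝓞 k) k)) ≠ 0 ∧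
        ∃ c : Ideal (𝓞 k), Od (SS.zf φ x) c ∧
          Real.log (Ideal.absNorm c) < (n - κ) * logHeight₁ x} with hQ
  set E₀ : Set k := {x : k | logHeight₁ x ≤ h₀} with hE₀
  set E₁ : Set k := {x : k | logHeight₁ x ≤ T / 2} with hE₁
  set E₂ : Set k := {x : k | logHeight₁ x ≤ T ∧ aeval x (φ.map (algebraMap (𝓞 k) k)) ≠ 0 ∧
        Real.log (Ideal.absNorm (SS.zf φ x)) ≤ (n - κ / 4) * logHeight₁ x} with hE₂
  set Z : ℝ := Real.exp (κ / 16 * T) with hZ
  set V : ℝ := Real.exp (7 / 4 * T) with hV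
  set E₃ : Set k := {x : k | mulHeight₁ x ≤ Real.exp T ∧ ∃ v : Ideal (𝓞 M), v ≠ ⊥ ∧
    ax φ.leadingCoeff θ x ≤ v ^ 2 ∧ Z ≤ Ideal.absNorm v ∧
    (Ideal.absNorm v : ℝ) ≤ V} with hE₃
  set E₄ : Set k := {x : k | n = 4 ∧ (logHeight₁ x ≤ T ∧
    aeval x (φ.map (algebraMap (𝓞 k) k)) ≠ 0 ∧
        ∃ c : Ideal (𝓞 k), Od (SS.zf φ x * RefW.denIdealOf x ^ n) c ∧
          (Ideal.absNorm c : ℝ) ≤ U₁ * Real.exp (T / 2))} with hE₄
  have hmul : ∀ x : k, logHeight₁ x ≤ T → mulHeight₁ x ≤ Real.exp T := by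
    intro x hx
    rw [logHeight₁_eq_log_mulHeight₁] at hx
    exact (Real.log_le_iff_le_exp (lt_of_lt_of_le one_pos (Height.one_le_mulHeight₁ _))).1 hx
  have hmul' : ∀ x : k, mulHeight₁ x ≤ Real.exp T → logHeight₁ x ≤ T := by
    intro x hx
    rw [logHeight₁_eq_log_mulHeight₁]
    exact (Real.log_le_iff_le_exp (lt_of_lt_of_le one_pos (Height.one_le_mulHeight₁ _))).2 hx
  have fin0 : E₀.Finite := finite_k _
  have fin1 : E₁.Finite := finite_k _
  have fin2 : E₂.Finite := (finite_k T).subset fun _ hx => hx.1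
  have fin3 : E₃.Finite := (finite_k T).subset fun x hx => hmul' x hx.1
  have fin4 : E₄.Finite := (finite_k T).subset fun _ hx => hx.2.1
  have hsub : Q ⊆ (E₀ ∪ E₁) ∪ (E₂ ∪ (E₃ ∪ E₄)) := by
    rintro x ⟨hxT, hφx, c, hc, hlt⟩
    by_contra hcon
    simp only [Set.mem_union, not_or] at hcon
    obtain ⟨⟨n0, n1⟩, n2, n3, n4⟩ := hcon
    set h : ℝ := logHeight₁ x with hh
    have hh0 : 0 ≤ h := logHeight_nonneg x
    have g0 : h₀ < h := not_le.1 n0
    have g1 : T / 2 < h := not_le.1 n1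
    have g2 : (n - κ / 4) * h < Real.log (Ideal.absNorm (SS.zf φ x)) := by
      by_contra g
      exact n2 ⟨hxT, hφx, not_lt.1 g⟩
    obtain ⟨r1, r2⟩ := hrel x hφx
    have hz0 := zf_ne_bot φ x hφx
    have hz1 := norm_pos hz0
    have hax0 : ax φ.leadingCoeff θ x ≠ ⊥ := by
      intro h0
      rw [h0, Ideal.absNorm_bot] at r1
      rcases Nat.mul_eq_zero.1 r1.symm with h1 | h1
      · exact pow_ne_zero _ hNc0 h1
      · rw [Ideal.absNorm_eq_zero_iff] at h1
        exact hz0 h1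
    obtain ⟨ρ, hρ, v, hv, hav⟩ := exists_od _ hax0
    obtain ⟨s1, s2⟩ := r2 ρ v c hρ hv hav hc
    have hρ1 := norm_pos (R := M) (I := ρ) (fun h0 => hρ.ne_zero h0)
    have hv1 := norm_pos hv
    have hc1 := norm_pos (od_ne_bot hc)
    have hlog : Real.log (Ideal.absNorm ρ) + 2 * Real.log (Ideal.absNorm v) =
        ((n - 1 : ℕ) : ℝ) * Real.log Nc + Real.log (Ideal.absNorm (SS.zf φ x)) := by
      have e1 : (Ideal.absNorm ρ : ℝ) * (Ideal.absNorm v : ℝ) ^ 2 =
          (Nc : ℝ) ^ (n - 1) * Ideal.absNorm (SS.zf φ x) := by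
        rw [hav, map_mul, map_pow] at r1
        exact_mod_cast r1
      have e2 := congrArg Real.log e1
      rwa [Real.log_mul (by positivity) (by positivity), Real.log_pow,
        Real.log_mul (by positivity) (by positivity), Real.log_pow, Nat.cast_ofNat] at e2
    have hn1 : ((n - 1 : ℕ) : ℝ) * Real.log Nc ≤ n * Real.log Nc :=
      mul_le_mul_of_nonneg_right (by exact_mod_cast Nat.sub_le n 1) hlNc
    have hn1' : 0 ≤ ((n - 1 : ℕ) : ℝ) * Real.log Nc := by positivity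
    have hcρ : Real.log (Ideal.absNorm c) ≤ Real.log C₁ + Real.log (Ideal.absNorm ρ) := by
      rw [← Real.log_mul (by positivity) (by positivity)]
      exact Real.log_le_log (by positivity) s1
    have hρc : Real.log (Ideal.absNorm ρ) ≤ Real.log C₁ + Real.log (Ideal.absNorm c) := by
      rw [← Real.log_mul (by positivity) (by positivity)]
      exact Real.log_le_log (by positivity) s2
    have hlρ : 0 ≤ Real.log (Ideal.absNorm ρ) := Real.log_nonneg hρ1
    have hκh : 2 * L < κ * h := by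
      have e1 : 2 * L / κ ≤ h₀ := by
        rw [hh₀]
        linarith
      have e2 : 2 * L / κ < h := lt_of_le_of_lt e1 g0
      rw [div_lt_iff₀ hκ] at e2
      linarith
    have hL1 : Real.log C₁ ≤ L := by
      rw [hL]
      have : 0 ≤ n * Real.log Nc := by positivity
      linarith
    by_cases hvZ : (Ideal.absNorm v : ℝ) < Z
    · -- no loss
      have e1 : Real.log (Ideal.absNorm v) < κ / 16 * T := by
        have := Real.log_lt_log (by positivity) hvZ
        rwa [hZ, Real.log_exp] at this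
      have e2 : Real.log (Ideal.absNorm v) < κ / 8 * h := by nlinarith
      have e3 : (n - κ) * h = (n - κ / 4) * h - κ * h * (3 / 4) := by ring
      have e4 : κ / 8 * h = κ * h * (1 / 8) := by ring
      rw [e3] at hlt
      rw [e4] at e2
      linarith
    · rw [not_lt] at hvZ
      have hle : ax φ.leadingCoeff θ x ≤ v ^ 2 := by
        rw [hav]
        exact (Ideal.mul_le_right : ρ * v ^ 2 ≤ v ^ 2)
      have hVv : V < Ideal.absNorm v := by
        by_contra g
        exact n3 ⟨hmul x hxT, v, hv, hle, hvZ, not_lt.1 g⟩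
      have e1 : 7 / 4 * T < Real.log (Ideal.absNorm v) := by
        have := Real.log_lt_log (Real.exp_pos _) hVv
        rwa [Real.log_exp] at this
      have e2 := hup x hφx
      have hnh : (n : ℝ) * h ≤ n * T := mul_le_mul_of_nonneg_left hxT (Nat.cast_nonneg _)
      have e3 : Real.log (Ideal.absNorm ρ) < (n * Real.log Nc + C₆) + (n * T - 7 / 2 * T) := by
        have e4 : Real.log (Ideal.absNorm (SS.zf φ x)) ≤ n * h + C₆ := e2
        linarith
      by_cases h4 : n = 4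
      · apply n4
        refine ⟨h4, hxT, hφx, c, ?_, ?_⟩
        · obtain ⟨hc1, t, ht, hct⟩ := hc
          refine ⟨hc1, t * RefW.denIdealOf x ^ 2, ?_, ?_⟩
          · exact mul_ne_zero ht (pow_ne_zero _ (RefW.denIdeal_norm_le x).1)
          · rw [h4, hct]
            ring
        · have e5 : Real.log (Ideal.absNorm c) ≤ L + T / 2 := by
            have e6 : (n : ℝ) * T = 4 * T := by rw [h4]; norm_num
            rw [hL]
            linarith
          have e7 := (Real.log_le_iff_le_exp (by positivity)).1 e5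
          rw [Real.exp_add] at e7
          exact e7
      · have h3 : (n : ℝ) ≤ 3 := by
          have : n ≤ 3 := by omega
          exact_mod_cast this
        have e4 : (n : ℝ) * T ≤ 3 * T := mul_le_mul_of_nonneg_right h3 hT
        have e5 : T / 2 < L := by
          rw [hL]
          linarith
        have e6 : 0 ≤ 2 * L / κ := by positivity
        rw [hh₀] at g0
        linarith
  have hfin := (fin0.union fin1).union (fin2.union (fin3.union fin4))
  have hcard : (Q.ncard : ℝ) ≤ (E₀.ncard + E₁.ncard) + (E₂.ncard + (E₃.ncard + E₄.ncard)) := by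
    have h1 : Q.ncard ≤ (E₀.ncard + E₁.ncard) + (E₂.ncard + (E₃.ncard + E₄.ncard)) :=
      (Set.ncard_le_ncard hsub hfin).trans ((Set.ncard_union_le _ _).trans
        (add_le_add (Set.ncard_union_le _ _) ((Set.ncard_union_le _ _).trans
          (Nat.add_le_add_left (Set.ncard_union_le _ _) _))))
    exact_mod_cast h1
  set X : ℝ := Real.exp ((2 - δ) * T) with hX
  have hmono : ∀ s : ℝ, s ≤ 2 - δ → Real.exp (s * T) ≤ X := fun s hs =>
    Real.exp_le_exp.2 (mul_le_mul_of_nonneg_right hs hT)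
  have c0 : (E₀.ncard : ℝ) ≤ K₀ * X := by
    refine le_mul_of_one_le_right hK₀0 ?_
    have := hmono 0 (by rw [hδ]; linarith)
    rwa [zero_mul, Real.exp_zero] at this
  have c1 : (E₁.ncard : ℝ) ≤ C₃ * X := by
    refine (hcount (T / 2) (by linarith)).trans (mul_le_mul_of_nonneg_left ?_ hC₃)
    have := hmono (3 / 2) (by rw [hδ]; linarith)
    have e : 3 * (T / 2) = 3 / 2 * T := by ring
    rwa [e]
  have c2 : (E₂.ncard : ℝ) ≤ C₄ * X :=
    (hnear T hT).trans (mul_le_mul_of_nonneg_left (hmono _ (by rw [hδ]; linarith)) hC₄)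
  have c3 : (E₃.ncard : ℝ) ≤ C₂ * 2 * X := by
    refine (hsum (Real.exp T) Z V (Real.one_le_exp hT) (Real.one_le_exp (by positivity))
      (Real.one_le_exp (by positivity))).trans ?_
    rw [mul_assoc]
    refine mul_le_mul_of_nonneg_left ?_ hC₂
    have e1 : Real.exp T ^ 2 * Z ^ (-(1 / 2) : ℝ) ≤ X := by
      rw [hZ, ← Real.exp_mul, ← Real.exp_nat_mul, ← Real.exp_add]
      have : ((2 : ℕ) : ℝ) * T + κ / 16 * T * (-(1 / 2)) = (2 - κ / 32) * T := by
        push_cast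
        ring
      rw [this]
    have e2 : V ^ (1 + (1 / 16) : ℝ) ≤ X := by
      rw [hV, ← Real.exp_mul]
      have : 7 / 4 * T * (1 + 1 / 16) = 119 / 64 * T := by ring
      rw [this]
      exact hmono _ (by rw [hδ]; linarith)
    linarith
  have c4 : (E₄.ncard : ℝ) ≤ C₅ * U₁ ^ (5 / 4 : ℝ) * X := by
    by_cases h4 : n = 4
    · have h5 := htwist h4 T (U₁ * Real.exp (T / 2)) hT (by
        have : 1 ≤ Real.exp (T / 2) := Real.one_le_exp (by positivity)
        nlinarith)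
      have h6 : (E₄.ncard : ℝ) ≤ _ := le_trans ((Nat.cast_le (α := ℝ)).2 (Set.ncard_le_ncard
        (fun x hx => hx.2) ((finite_k T).subset fun _ hx => hx.1))) h5
      refine h6.trans ?_
      rw [Real.mul_rpow (by positivity) (Real.exp_pos _).le]
      have e1 : (1 : ℝ) + 1 / 4 = 5 / 4 := by norm_num
      have e0 : Real.exp (T / 2) ^ (5 / 4 : ℝ) = Real.exp (T / 2 * (5 / 4)) :=
        (Real.exp_mul _ _).symm
      rw [e1, e0]
      have e2 : C₅ * (U₁ ^ (5 / 4 : ℝ) * Real.exp (T / 2 * (5 / 4))) *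
          Real.exp (1 / 4 * T) = C₅ * U₁ ^ (5 / 4 : ℝ) * Real.exp (7 / 8 * T) := by
        have e3 : Real.exp (7 / 8 * T) = Real.exp (T / 2 * (5 / 4)) * Real.exp (1 / 4 * T) := by
          rw [← Real.exp_add]
          congr 1
          ring
        rw [e3]
        ring
      rw [e2]
      exact mul_le_mul_of_nonneg_left (hmono _ (by rw [hδ]; linarith)) (by positivity)
    · have h5 : E₄ = ∅ := by
        rw [Set.eq_empty_iff_forall_notMem]
        rintro x ⟨h6, -⟩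
        exact h4 h6
      rw [h5, Set.ncard_empty, Nat.cast_zero]
      positivity
  calc (Q.ncard : ℝ) ≤ (E₀.ncard + E₁.ncard) + (E₂.ncard + (E₃.ncard + E₄.ncard)) := hcard
    _ ≤ (K₀ * X + C₃ * X) + (C₄ * X + (C₂ * 2 * X + C₅ * U₁ ^ (5 / 4 : ℝ) * X)) :=
      add_le_add (add_le_add c0 c1) (add_le_add c2 (add_le_add c3 c4))
    _ = _ := by ring

end Pool.Agent.OnePt
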