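import Pool.Agent.OnePt.Good

/-!
# The squarefree part of the denominator; a factor of degree at least three
-/

set_option autoImplicit false

open Polynomial NumberField Module Height

namespace Pool.Agent.OnePt

/-- the ideal of the value of `X` at the inverse is the denominator ideal -/
theorem zf_inv {k : Type} [Field k] [NumberField k] (x : k) (hx : x ≠ 0) :
    SS.zf (X : (𝓞 k)[X]) x⁻¹ = RefW.denIdealOf x := by
  have hX : aeval x⁻¹ ((X : (𝓞 k)[X]).map (algebraMap (𝓞 k) k)) = x⁻¹ := by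
    rw [Polynomial.map_X, aeval_X]
  ext w
  constructor
  · rintro ⟨j, hj, hw⟩
    rw [natDegree_X, pow_one] at hj
    rw [hX] at hw
    refine ⟨j, ?_⟩
    rw [hw]
    field_simp
  · rintro ⟨t, ht⟩
    refine ⟨t, ?_, ?_⟩
    · rw [natDegree_X, pow_one]
      refine ⟨w, ?_⟩
      rw [ht]
      field_simp
    · rw [hX, ht]
      field_simp

/-- the squarefree part of the denominator ideal -/
theorem good_den (k : Type) [Field k] [NumberField k] (κ : ℝ) (hκ : 0 < κ) :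
    ∃ C δ : ℝ, 0 ≤ C ∧ 0 < δ ∧ ∀ T : ℝ, 0 ≤ T →
      ({x : k | logHeight₁ x ≤ T ∧ ∃ c : Ideal (𝓞 k), Od (RefW.denIdealOf x) c ∧
          Real.log (Ideal.absNorm c) < (1 - κ) * logHeight₁ x}.ncard : ℝ) ≤
        C * Real.exp ((2 - δ) * T) := by
  obtain ⟨C, δ, hC, hδ, h⟩ := good_four k (X : (𝓞 k)[X]) (by
    rw [Polynomial.map_X]
    exact irreducible_X) (by rw [natDegree_X]; norm_num) κ hκ
  refine ⟨C + 1, min δ 1, by positivity, lt_min hδ one_pos, fun T hT => ?_⟩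
  have h1 := h T hT
  set Q : Set k := {x : k | logHeight₁ x ≤ T ∧ ∃ c : Ideal (𝓞 k), Od (RefW.denIdealOf x) c ∧
          Real.log (Ideal.absNorm c) < (1 - κ) * logHeight₁ x} with hQ
  set Q' : Set k := {x : k | logHeight₁ x ≤ T ∧
    aeval x ((X : (𝓞 k)[X]).map (algebraMap (𝓞 k) k)) ≠ 0 ∧
        ∃ c : Ideal (𝓞 k), Od (SS.zf (X : (𝓞 k)[X]) x) c ∧
          Real.log (Ideal.absNorm c) < ((X : (𝓞 k)[X]).natDegree - κ) * logHeight₁ x} with hQ'
  have hf : Q'.Finite := (finite_k T).subset fun _ hx => hx.1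
  have hsub : Q ⊆ {0} ∪ (fun x : k => x⁻¹) '' Q' := by
    rintro x ⟨g1, c, g2, g3⟩
    by_cases hx : x = 0
    · exact Or.inl hx
    · refine Or.inr ⟨x⁻¹, ⟨?_, ?_, c, ?_, ?_⟩, inv_inv x⟩
      · rw [Height.logHeight₁_inv]
        exact g1
      · rw [Polynomial.map_X, aeval_X]
        exact inv_ne_zero hx
      · rw [zf_inv x hx]
        exact g2
      · rw [Height.logHeight₁_inv, natDegree_X, Nat.cast_one]
        exact g3
  have h2 : Q.ncard ≤ 1 + Q'.ncard := by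
    refine (Set.ncard_le_ncard hsub ((Set.finite_singleton _).union (hf.image _))).trans
      ((Set.ncard_union_le _ _).trans ?_)
    rw [Set.ncard_singleton]
    exact Nat.add_le_add_left (Set.ncard_image_le hf) _
  have h3 : (Q.ncard : ℝ) ≤ 1 + Q'.ncard := by exact_mod_cast h2
  have h4 : Real.exp ((2 - δ) * T) ≤ Real.exp ((2 - min δ 1) * T) :=
    Real.exp_le_exp.2 (mul_le_mul_of_nonneg_right (by linarith [min_le_left δ 1]) hT)
  have h5 : 1 ≤ Real.exp ((2 - min δ 1) * T) := Real.one_le_exp (mul_nonneg (by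
    linarith [min_le_right δ 1]) hT)
  have h6 : (Q'.ncard : ℝ) ≤ C * Real.exp ((2 - min δ 1) * T) :=
    h1.trans (mul_le_mul_of_nonneg_left h4 hC)
  linarith

/-- the squarefree part of the value of a polynomial of degree at least three -/
theorem good_three (k : Type) [Field k] [NumberField k] (φ : (𝓞 k)[X])
    (hφ : Squarefree (φ.map (algebraMap (𝓞 k) k))) (hn3 : 3 ≤ φ.natDegree) (κ : ℝ)
    (hκ : 0 < κ) : ∃ C δ : ℝ, 0 ≤ C ∧ 0 < δ ∧ ∀ T : ℝ, 0 ≤ T →
      ({x : k | logHeight₁ x ≤ T ∧ aeval x (φ.map (algebraMap (𝓞 k) k)) ≠ 0 ∧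
        ∃ c : Ideal (𝓞 k), Od (SS.zf φ x * RefW.denIdealOf x ^ φ.natDegree) c ∧
          Real.log (Ideal.absNorm c) < (2 - κ) * logHeight₁ x}.ncard : ℝ) ≤
        C * Real.exp ((2 - δ) * T) := by
  wlog hκ1 : κ ≤ 1 generalizing κ
  · obtain ⟨C, δ, h1, h2, h3⟩ := this 1 one_pos le_rfl
    refine ⟨C, δ, h1, h2, fun T hT => le_trans ?_ (h3 T hT)⟩
    refine (Nat.cast_le (α := ℝ)).2 (Set.ncard_le_ncard ?_
      ((finite_k T).subset fun _ hx => hx.1))
    rintro x ⟨g1, g2, c, g3, g4⟩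
    refine ⟨g1, g2, c, g3, g4.trans_le ?_⟩
    exact mul_le_mul_of_nonneg_right (by linarith) (logHeight_nonneg x)
  obtain ⟨C, hC, h⟩ := twist_od k φ hφ hn3 (κ / 6) (by positivity)
  refine ⟨C, κ / 2, hC, by positivity, fun T hT => ?_⟩
  have h1 := h T (Real.exp ((2 - κ) * T)) hT (Real.one_le_exp (mul_nonneg (by linarith) hT))
  have h2 : Real.exp ((2 - κ) * T) ^ (1 + κ / 6) * Real.exp (κ / 6 * T) ≤
      Real.exp ((2 - κ / 2) * T) := by
    rw [← Real.exp_mul, ← Real.exp_add]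
    refine Real.exp_le_exp.2 ?_
    have : (2 - κ) * T * (1 + κ / 6) + κ / 6 * T =
        (2 - κ / 2) * T - (κ * κ / 6) * T := by ring
    rw [this]
    have : 0 ≤ κ * κ / 6 * T := by positivity
    linarith
  refine le_trans ?_ (h1.trans (by rw [mul_assoc]; exact mul_le_mul_of_nonneg_left h2 hC))
  refine (Nat.cast_le (α := ℝ)).2 (Set.ncard_le_ncard ?_
      ((finite_k T).subset fun _ hx => hx.1))
  rintro x ⟨g1, g2, c, g3, g4⟩
  refine ⟨g1, g2, c, g3, ?_⟩
  have hc1 := norm_pos (od_ne_bot g3)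
  refine (Real.log_le_iff_le_exp (by positivity)).1 ?_
  have : (2 - κ) * logHeight₁ x ≤ (2 - κ) * T :=
    mul_le_mul_of_nonneg_left g1 (by linarith)
  linarith

end Pool.Agent.OnePt
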