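import Pool.Agent.OnePt.Good2
import Pool.Agent.OnePt.Fac

/-!
# Rare properties of the elements of `k`
-/

set_option autoImplicit false

open Polynomial NumberField Module Height

namespace Pool.Agent.OnePt

/-- a rare property of the elements of `k` -/
def Rare {k : Type} [Field k] [NumberField k] (P : k → Prop) : Prop :=
  ∃ C δ : ℝ, 0 ≤ C ∧ 0 < δ ∧ ∀ T : ℝ, 0 ≤ T →
    ({x : k | logHeight₁ x ≤ T ∧ P x}.ncard : ℝ) ≤ C * Real.exp ((2 - δ) * T)

section

variable {k : Type} [Field k] [NumberField k]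

theorem Rare.mono {P Q : k → Prop} (hP : Rare P) (h : ∀ x, Q x → P x) : Rare Q := by
  obtain ⟨C, δ, hC, hδ, h1⟩ := hP
  refine ⟨C, δ, hC, hδ, fun T hT => le_trans ?_ (h1 T hT)⟩
  exact (Nat.cast_le (α := ℝ)).2 (Set.ncard_le_ncard (fun x hx => ⟨hx.1, h x hx.2⟩)
    ((finite_k T).subset fun _ hx => hx.1))

theorem Rare.or {P Q : k → Prop} (hP : Rare P) (hQ : Rare Q) : Rare fun x => P x ∨ Q x := by
  obtain ⟨C, δ, hC, hδ, h1⟩ := hP
  obtain ⟨C', δ', hC', hδ', h2⟩ := hQ
  refine ⟨C + C', min δ δ', by positivity, lt_min hδ hδ', fun T hT => ?_⟩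
  have hsub : {x : k | logHeight₁ x ≤ T ∧ (P x ∨ Q x)} ⊆
      {x : k | logHeight₁ x ≤ T ∧ P x} ∪ {x : k | logHeight₁ x ≤ T ∧ Q x} := by
    rintro x ⟨g1, g2 | g2⟩
    · exact Or.inl ⟨g1, g2⟩
    · exact Or.inr ⟨g1, g2⟩
  have h3 : ({x : k | logHeight₁ x ≤ T ∧ (P x ∨ Q x)}.ncard : ℝ) ≤
      ({x : k | logHeight₁ x ≤ T ∧ P x}.ncard : ℝ) +
        ({x : k | logHeight₁ x ≤ T ∧ Q x}.ncard : ℝ) := by
    exact_mod_cast (Set.ncard_le_ncard hsub (((finite_k T).subset fun _ hx => hx.1).union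
      ((finite_k T).subset fun _ hx => hx.1))).trans (Set.ncard_union_le _ _)
  have h4 : Real.exp ((2 - δ) * T) ≤ Real.exp ((2 - min δ δ') * T) :=
    Real.exp_le_exp.2 (mul_le_mul_of_nonneg_right (by linarith [min_le_left δ δ']) hT)
  have h5 : Real.exp ((2 - δ') * T) ≤ Real.exp ((2 - min δ δ') * T) :=
    Real.exp_le_exp.2 (mul_le_mul_of_nonneg_right (by linarith [min_le_right δ δ']) hT)
  have h6 := (h1 T hT).trans (mul_le_mul_of_nonneg_left h4 hC)
  have h7 := (h2 T hT).trans (mul_le_mul_of_nonneg_left h5 hC')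
  linarith

theorem rare_finite {P : k → Prop} (h : {x : k | P x}.Finite) : Rare P := by
  refine ⟨{x : k | P x}.ncard, 1, Nat.cast_nonneg _, one_pos, fun T hT => ?_⟩
  have h1 : ({x : k | logHeight₁ x ≤ T ∧ P x}.ncard : ℝ) ≤ {x : k | P x}.ncard :=
    (Nat.cast_le (α := ℝ)).2 (Set.ncard_le_ncard (fun x hx => hx.2) h)
  refine h1.trans (le_mul_of_one_le_right (Nat.cast_nonneg _) (Real.one_le_exp ?_))
  have : (2 - 1 : ℝ) * T = T := by ring
  rw [this]
  exact hT

theorem rare_small (h₀ : ℝ) : Rare fun x : k => logHeight₁ x ≤ h₀ :=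
  rare_finite (finite_k h₀)

theorem Rare.exists {ι : Type} (s : Finset ι) {P : ι → k → Prop} (h : ∀ i ∈ s, Rare (P i)) :
    Rare fun x => ∃ i ∈ s, P i x := by
  classical
  induction s using Finset.induction_on with
  | empty =>
    refine rare_finite ?_
    have : {x : k | ∃ i ∈ (∅ : Finset ι), P i x} = ∅ := by
      rw [Set.eq_empty_iff_forall_notMem]
      rintro x ⟨i, hi, -⟩
      simp at hi
    rw [this]
    exact Set.finite_empty
  | insert i s _ ih =>
    have h1 := ih fun j hj => h j (Finset.mem_insert_of_mem hj)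
    refine ((h i (Finset.mem_insert_self _ _)).or h1).mono ?_
    rintro x ⟨j, hj, hx⟩
    rcases Finset.mem_insert.1 hj with rfl | hj
    · exact Or.inl hx
    · exact Or.inr ⟨j, hj, hx⟩

end

/-- the squarefree part of the value at `x` of `f`, made homogeneous -/
def SqPart {k : Type} [Field k] [NumberField k] (f : (𝓞 k)[X]) (x : k) (c : Ideal (𝓞 k)) : Prop :=
  Od (SS.zf f x * RefW.denIdealOf x ^ f.natDegree) c

theorem den_ne_bot {k : Type} [Field k] [NumberField k] (x : k) : RefW.denIdealOf x ≠ ⊥ :=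
  (RefW.denIdeal_norm_le x).1

theorem log_den_le {k : Type} [Field k] [NumberField k] (x : k) (c : Ideal (𝓞 k))
    (hc : Od (RefW.denIdealOf x) c) : Real.log (Ideal.absNorm c) ≤ logHeight₁ x := by
  have h1 : (1 : ℝ) ≤ ∏ σ : k →+* ℂ, max 1 ‖σ x‖ := by
    calc (1 : ℝ) = ∏ _σ : k →+* ℂ, (1 : ℝ) := (Finset.prod_const_one).symm
      _ ≤ _ := Finset.prod_le_prod (fun _ _ => zero_le_one) fun σ _ => le_max_left _ _
  have h2 := SS.height_den x
  have hc1 := norm_pos (od_ne_bot hc)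
  have h3 : (Ideal.absNorm c : ℝ) ≤ Ideal.absNorm (RefW.denIdealOf x) := by
    obtain ⟨_, t, ht, h⟩ := hc
    have h4 : Ideal.absNorm c ∣ Ideal.absNorm (RefW.denIdealOf x) := by
      rw [h, map_mul]
      exact dvd_mul_right _ _
    have h5 : Ideal.absNorm (RefW.denIdealOf x) ≠ 0 := by
      rw [Ne, Ideal.absNorm_eq_zero_iff]
      exact den_ne_bot x
    exact_mod_cast Nat.le_of_dvd (Nat.pos_of_ne_zero h5) h4
  rw [logHeight₁_eq_log_mulHeight₁]
  refine Real.log_le_log (by positivity) ?_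
  rw [h2]
  have h6 : (0 : ℝ) ≤ Ideal.absNorm (RefW.denIdealOf x) := Nat.cast_nonneg _
  nlinarith

/-- the squarefree part of the value of a product of polynomials of degree at most four -/
theorem x_all (k : Type) [Field k] [NumberField k] {r : ℕ} (fs : Fin r → (𝓞 k)[X])
    (hsq : Squarefree ((∏ i, fs i).map (algebraMap (𝓞 k) k))) (I : Finset (Fin r))
    (hI : ∀ i ∈ I, Irreducible ((fs i).map (algebraMap (𝓞 k) k)) ∧ (fs i).natDegree ≤ 4)
    (κ : ℝ) (hκ : 0 < κ) :
    Rare fun x : k => aeval x ((∏ i, fs i).map (algebraMap (𝓞 k) k)) ≠ 0 ∧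
      ∃ c : Ideal (𝓞 k), SqPart (∏ i, fs i) x c ∧
        Real.log (Ideal.absNorm c) < (∑ i ∈ I, ((fs i).natDegree : ℝ) - κ) * logHeight₁ x := by
  classical
  obtain ⟨C, hC, hfac⟩ := fac_ge k fs hsq
  have hlC : 0 ≤ Real.log C := Real.log_nonneg hC
  set κ₁ : ℝ := κ / (2 * (I.card + 1)) with hκ₁
  have hκ₁0 : 0 < κ₁ := by positivity
  have hκI : κ₁ * I.card ≤ κ / 2 := by
    rw [hκ₁, div_mul_eq_mul_div, div_le_div_iff₀ (by positivity) two_pos]
    have : (0 : ℝ) ≤ I.card := Nat.cast_nonneg _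
    nlinarith
  have h1 : Rare fun x : k => ∃ i ∈ I, aeval x ((fs i).map (algebraMap (𝓞 k) k)) ≠ 0 ∧
        ∃ c : Ideal (𝓞 k), Od (SS.zf (fs i) x) c ∧
          Real.log (Ideal.absNorm c) < ((fs i).natDegree - κ₁) * logHeight₁ x :=
    Rare.exists I fun i hi => good_four k (fs i) (hI i hi).1 (hI i hi).2 κ₁ hκ₁0
  refine ((rare_small (2 * Real.log C / κ)).or h1).mono ?_
  rintro x ⟨hx, c, hc, hlt⟩
  by_contra hcon
  rw [not_or] at hcon
  obtain ⟨n1, n2⟩ := hcon
  rw [not_le] at n1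
  have hfi : ∀ i, aeval x ((fs i).map (algebraMap (𝓞 k) k)) ≠ 0 := by
    intro i h
    apply hx
    rw [Polynomial.map_prod, map_prod]
    exact Finset.prod_eq_zero (Finset.mem_univ i) h
  have hex : ∀ i, ∃ c : Ideal (𝓞 k), Od (SS.zf (fs i) x) c := fun i =>
    exists_od _ (zf_ne_bot (fs i) x (hfi i))
  choose cs hcs using hex
  obtain ⟨cinf, hcinf⟩ := exists_od _ (den_ne_bot x)
  obtain ⟨g1, -⟩ := hfac x hx c cinf cs hc hcs hcinf
  have hcs1 : ∀ i, (1 : ℝ) ≤ Ideal.absNorm (cs i) := fun i => norm_pos (od_ne_bot (hcs i))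
  have hc1 := norm_pos (od_ne_bot hc)
  have g2 : ∑ i, Real.log (Ideal.absNorm (cs i)) ≤ Real.log C + Real.log (Ideal.absNorm c) := by
    rw [← Real.log_prod fun i _ => (by have := hcs1 i; positivity),
      ← Real.log_mul (by positivity) (by positivity)]
    refine Real.log_le_log (Finset.prod_pos fun i _ => ?_) g1
    have := hcs1 i
    positivity
  have g3 : ∑ i ∈ I, ((fs i).natDegree - κ₁) * logHeight₁ x ≤
      ∑ i ∈ I, Real.log (Ideal.absNorm (cs i)) := by
    refine Finset.sum_le_sum fun i hi => ?_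
    by_contra g
    exact n2 ⟨i, hi, hfi i, cs i, hcs i, not_le.1 g⟩
  have g4 : ∑ i ∈ I, Real.log (Ideal.absNorm (cs i)) ≤ ∑ i, Real.log (Ideal.absNorm (cs i)) :=
    Finset.sum_le_sum_of_subset_of_nonneg (Finset.subset_univ _)
      fun i _ _ => Real.log_nonneg (hcs1 i)
  rw [← Finset.sum_mul, Finset.sum_sub_distrib, Finset.sum_const, nsmul_eq_mul] at g3
  have hh := logHeight_nonneg x
  have g5 : 2 * Real.log C < κ * logHeight₁ x := by
    rw [div_lt_iff₀ hκ] at n1
    linarith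
  have g6 : (I.card : ℝ) * κ₁ * logHeight₁ x ≤ κ / 2 * logHeight₁ x :=
    mul_le_mul_of_nonneg_right (by linarith) hh
  nlinarith

/-- the squarefree part of the value of a product of polynomials of degree at most four and of a
polynomial of degree five or six -/
theorem x_exc (k : Type) [Field k] [NumberField k] {r : ℕ} (fs : Fin r → (𝓞 k)[X])
    (hsq : Squarefree ((∏ i, fs i).map (algebraMap (𝓞 k) k))) (i₀ : Fin r)
    (hI : ∀ i, i ≠ i₀ → Irreducible ((fs i).map (algebraMap (𝓞 k) k)) ∧ (fs i).natDegree ≤ 4)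
    (h56 : (fs i₀).natDegree = 5 ∨ (fs i₀).natDegree = 6) (κ : ℝ) (hκ : 0 < κ) :
    Rare fun x : k => aeval x ((∏ i, fs i).map (algebraMap (𝓞 k) k)) ≠ 0 ∧
      ∃ c : Ideal (𝓞 k), SqPart (∏ i, fs i) x c ∧
        Real.log (Ideal.absNorm c) <
          (2 * ((((∏ i, fs i).natDegree - 1) / 2 : ℕ) : ℝ) - 2 - κ) * logHeight₁ x := by
  classical
  obtain ⟨C, hC, hfac⟩ := fac_ge k fs hsq
  have hlC : 0 ≤ Real.log C := Real.log_nonneg hC
  set I : Finset (Fin r) := Finset.univ.erase i₀ with hIdef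
  set κ₁ : ℝ := κ / (2 * (I.card + 3)) with hκ₁
  have hκ₁0 : 0 < κ₁ := by positivity
  have hκI : κ₁ * (I.card + 2) ≤ κ / 2 := by
    rw [hκ₁, div_mul_eq_mul_div, div_le_div_iff₀ (by positivity) two_pos]
    have : (0 : ℝ) ≤ I.card := Nat.cast_nonneg _
    nlinarith
  have hne : ∀ i, fs i ≠ 0 := by
    intro i h
    apply hsq.ne_zero
    rw [Finset.prod_eq_zero (Finset.mem_univ i) h, Polynomial.map_zero]
  have hsq0 : Squarefree ((fs i₀).map (algebraMap (𝓞 k) k)) := by
    refine hsq.squarefree_of_dvd (Polynomial.map_dvd _ ?_)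
    exact Finset.dvd_prod_of_mem fs (Finset.mem_univ i₀)
  have h1 : Rare fun x : k => ∃ i ∈ I, aeval x ((fs i).map (algebraMap (𝓞 k) k)) ≠ 0 ∧
        ∃ c : Ideal (𝓞 k), Od (SS.zf (fs i) x) c ∧
          Real.log (Ideal.absNorm c) < ((fs i).natDegree - κ₁) * logHeight₁ x :=
    Rare.exists I fun i hi => good_four k (fs i) (hI i (Finset.ne_of_mem_erase hi)).1
      (hI i (Finset.ne_of_mem_erase hi)).2 κ₁ hκ₁0
  have h2 : Rare fun x : k => aeval x ((fs i₀).map (algebraMap (𝓞 k) k)) ≠ 0 ∧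
        ∃ c : Ideal (𝓞 k), Od (SS.zf (fs i₀) x * RefW.denIdealOf x ^ (fs i₀).natDegree) c ∧
          Real.log (Ideal.absNorm c) < (2 - κ₁) * logHeight₁ x :=
    good_three k (fs i₀) hsq0 (by omega) κ₁ hκ₁0
  have h3 : Rare fun x : k => ∃ c : Ideal (𝓞 k), Od (RefW.denIdealOf x) c ∧
          Real.log (Ideal.absNorm c) < (1 - κ₁) * logHeight₁ x :=
    good_den k κ₁ hκ₁0
  refine (((rare_small (2 * Real.log C / κ)).or h1).or (h2.or h3)).mono ?_
  rintro x ⟨hx, c, hc, hlt⟩
  by_contra hcon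
  simp only [not_or] at hcon
  obtain ⟨⟨n1, n2⟩, n3, n4⟩ := hcon
  rw [not_le] at n1
  have hfi : ∀ i, aeval x ((fs i).map (algebraMap (𝓞 k) k)) ≠ 0 := by
    intro i h
    apply hx
    rw [Polynomial.map_prod, map_prod]
    exact Finset.prod_eq_zero (Finset.mem_univ i) h
  have hex : ∀ i, ∃ c : Ideal (𝓞 k), Od (SS.zf (fs i) x) c := fun i =>
    exists_od _ (zf_ne_bot (fs i) x (hfi i))
  choose cs hcs using hex
  obtain ⟨cinf, hcinf⟩ := exists_od _ (den_ne_bot x)
  obtain ⟨g1, g1'⟩ := hfac x hx c cinf cs hc hcs hcinf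
  have hcs1 : ∀ i, (1 : ℝ) ≤ Ideal.absNorm (cs i) := fun i => norm_pos (od_ne_bot (hcs i))
  have hc1 := norm_pos (od_ne_bot hc)
  have hcinf1 := norm_pos (od_ne_bot hcinf)
  have hprod0 : (0 : ℝ) < ∏ i, (Ideal.absNorm (cs i) : ℝ) := Finset.prod_pos fun i _ => by
    have := hcs1 i
    positivity
  have hlp : Real.log (∏ i, (Ideal.absNorm (cs i) : ℝ)) =
      ∑ i, Real.log (Ideal.absNorm (cs i)) :=
    Real.log_prod fun i _ => (by have := hcs1 i; positivity)
  have hsplit : ∑ i, Real.log (Ideal.absNorm (cs i)) = Real.log (Ideal.absNorm (cs i₀)) +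
      ∑ i ∈ I, Real.log (Ideal.absNorm (cs i)) :=
    (Finset.add_sum_erase Finset.univ (fun i => Real.log (Ideal.absNorm (cs i)))
      (Finset.mem_univ i₀)).symm
  have g2 : Real.log (Ideal.absNorm (cs i₀)) + ∑ i ∈ I, Real.log (Ideal.absNorm (cs i)) ≤
      Real.log C + Real.log (Ideal.absNorm c) := by
    rw [← hsplit, ← hlp, ← Real.log_mul (by positivity) (by positivity)]
    exact Real.log_le_log hprod0 g1
  have g2' : Odd (∏ i, fs i).natDegree → Real.log (Ideal.absNorm (cs i₀)) +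
      ∑ i ∈ I, Real.log (Ideal.absNorm (cs i)) + Real.log (Ideal.absNorm cinf) ≤
      Real.log C + Real.log (Ideal.absNorm c) := by
    intro ho
    rw [← hsplit, ← hlp, ← Real.log_mul hprod0.ne' (by positivity),
      ← Real.log_mul (by positivity) (by positivity)]
    exact Real.log_le_log (mul_pos hprod0 (by positivity)) (g1' ho)
  have g3 : ∑ i ∈ I, ((fs i).natDegree - κ₁) * logHeight₁ x ≤
      ∑ i ∈ I, Real.log (Ideal.absNorm (cs i)) := by
    refine Finset.sum_le_sum fun i hi => ?_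
    by_contra g
    exact n2 ⟨i, hi, hfi i, cs i, hcs i, not_le.1 g⟩
  rw [← Finset.sum_mul, Finset.sum_sub_distrib, Finset.sum_const, nsmul_eq_mul] at g3
  have hdeg : (∏ i, fs i).natDegree = (fs i₀).natDegree + ∑ i ∈ I, (fs i).natDegree := by
    rw [natDegree_prod _ _ fun i _ => hne i]
    exact (Finset.add_sum_erase Finset.univ (fun i => (fs i).natDegree)
      (Finset.mem_univ i₀)).symm
  set S : ℕ := ∑ i ∈ I, (fs i).natDegree with hS
  have hSR : ∑ i ∈ I, ((fs i).natDegree : ℝ) = S := by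
    rw [hS]
    push_cast
    rfl
  rw [hSR] at g3
  have hh := logHeight_nonneg x
  set h : ℝ := logHeight₁ x with hh'
  have g5 : 2 * Real.log C < κ * h := by
    rw [div_lt_iff₀ hκ] at n1
    linarith
  have g6 : (I.card : ℝ) * κ₁ * h + 2 * κ₁ * h ≤ κ / 2 * h := by
    have := mul_le_mul_of_nonneg_right hκI hh
    nlinarith
  have gden : (1 - κ₁) * h ≤ Real.log (Ideal.absNorm cinf) := by
    by_contra g
    exact n4 ⟨cinf, hcinf, not_le.1 g⟩
  have gden' : Real.log (Ideal.absNorm cinf) ≤ h := log_den_le x cinf hcinf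
  have hκh : 0 ≤ κ₁ * h := by positivity
  rw [hdeg] at hlt g2'
  rcases h56 with h5 | h6
  · -- degree five
    obtain ⟨c', hc'⟩ := exists_od (SS.zf (fs i₀) x * RefW.denIdealOf x ^ (fs i₀).natDegree)
      (mul_ne_zero (zf_ne_bot (fs i₀) x (hfi i₀)) (pow_ne_zero _ (den_ne_bot x)))
    have hc'1 := norm_pos (od_ne_bot hc')
    have g7 : (2 - κ₁) * h ≤ Real.log (Ideal.absNorm c') := by
      by_contra g
      exact n3 ⟨hfi i₀, c', hc', not_le.1 g⟩
    have g8 : Real.log (Ideal.absNorm c') ≤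
        Real.log (Ideal.absNorm (cs i₀)) + Real.log (Ideal.absNorm cinf) := by
      obtain ⟨q1, t', ht', q2⟩ := hc'
      obtain ⟨-, t, ht, q3⟩ := hcs i₀
      obtain ⟨-, s, hs, q4⟩ := hcinf
      have q5 : c' ∣ (cs i₀ * cinf) * 1 := by
        refine sq_dvd (cs i₀ * cinf) (t * s * RefW.denIdealOf x ^ 2) c' 1 t' q1 ht' ?_
        rw [mul_one, ← q2, h5, q3]
        calc cs i₀ * cinf * (t * s * RefW.denIdealOf x ^ 2) ^ 2 =
            cs i₀ * t ^ 2 * ((cinf * s ^ 2) * RefW.denIdealOf x ^ 4) := by ring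
          _ = cs i₀ * t ^ 2 * (RefW.denIdealOf x * RefW.denIdealOf x ^ 4) := by rw [← q4]
          _ = _ := by ring
      rw [mul_one] at q5
      have q6 := map_dvd Ideal.absNorm q5
      rw [map_mul] at q6
      rw [← Real.log_mul (by have := hcs1 i₀; positivity) (by positivity)]
      refine Real.log_le_log (by positivity) ?_
      have q7 : 0 < Ideal.absNorm (cs i₀) * Ideal.absNorm cinf := by
        have e1 : 0 < Ideal.absNorm (cs i₀) := by
          have := hcs1 i₀
          exact_mod_cast lt_of_lt_of_le one_pos this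
        have e2 : 0 < Ideal.absNorm cinf := by
          exact_mod_cast lt_of_lt_of_le one_pos hcinf1
        exact Nat.mul_pos e1 e2
      exact_mod_cast Nat.le_of_dvd q7 q6
    rcases Nat.even_or_odd S with he | ho
    · -- the degree is odd
      have ho' : Odd ((fs i₀).natDegree + S) := by
        rw [h5]
        obtain ⟨u, hu⟩ := he
        exact ⟨u + 2, by omega⟩
      have g9 := g2' ho'
      have e1 : 2 * ((((fs i₀).natDegree + S - 1) / 2 : ℕ) : ℝ) = S + 4 := by
        obtain ⟨u, hu⟩ := he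
        have : ((fs i₀).natDegree + S - 1) / 2 = u + 2 := by omega
        rw [this, hu]
        push_cast
        ring
      rw [e1] at hlt
      nlinarith
    · have e1 : 2 * ((((fs i₀).natDegree + S - 1) / 2 : ℕ) : ℝ) = S + 3 := by
        obtain ⟨u, hu⟩ := ho
        have : ((fs i₀).natDegree + S - 1) / 2 = u + 2 := by omega
        rw [this, hu]
        push_cast
        ring
      rw [e1] at hlt
      nlinarith
  · -- degree six
    have hc' : Od (SS.zf (fs i₀) x * RefW.denIdealOf x ^ (fs i₀).natDegree) (cs i₀) := by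
      obtain ⟨q1, t, ht, q3⟩ := hcs i₀
      refine ⟨q1, t * RefW.denIdealOf x ^ 3, mul_ne_zero ht (pow_ne_zero _ (den_ne_bot x)), ?_⟩
      rw [h6, q3]
      ring
    have g7 : (2 - κ₁) * h ≤ Real.log (Ideal.absNorm (cs i₀)) := by
      by_contra g
      exact n3 ⟨hfi i₀, cs i₀, hc', not_le.1 g⟩
    rcases Nat.even_or_odd S with he | ho
    · have e1 : 2 * ((((fs i₀).natDegree + S - 1) / 2 : ℕ) : ℝ) = S + 4 := by
        obtain ⟨u, hu⟩ := he
        have : ((fs i₀).natDegree + S - 1) / 2 = u + 2 := by omega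
        rw [this, hu]
        push_cast
        ring
      rw [e1] at hlt
      nlinarith
    · have ho' : Odd ((fs i₀).natDegree + S) := by
        rw [h6]
        obtain ⟨u, hu⟩ := ho
        exact ⟨u + 3, by omega⟩
      have g9 := g2' ho'
      have e1 : 2 * ((((fs i₀).natDegree + S - 1) / 2 : ℕ) : ℝ) = S + 5 := by
        obtain ⟨u, hu⟩ := ho
        have : ((fs i₀).natDegree + S - 1) / 2 = u + 3 := by omega
        rw [this, hu]
        push_cast
        ring
      rw [e1] at hlt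
      nlinarith

end Pool.Agent.OnePt
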