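import Pool.Agent.OnePt.Defs

/-!
# The field generated by a root
-/

set_option autoImplicit false

open Polynomial NumberField IntermediateField Module

namespace Pool.Agent.OnePt

/-- the field generated by a root of an irreducible polynomial -/
theorem setup (k : Type) [Field k] [NumberField k] (φ : (𝓞 k)[X])
    (hφ : Irreducible (φ.map (algebraMap (𝓞 k) k))) :
    ∃ (M : Type) (_ : Field M) (_ : NumberField M) (_ : Algebra k M) (e : M) (θ : 𝓞 M),
      aeval e (φ.map (algebraMap (𝓞 k) k)) = 0 ∧ finrank k M = φ.natDegree ∧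
      (θ : M) = algebraMap k M (φ.leadingCoeff : k) * e ∧
      IntermediateField.adjoin k {(θ : M)} = ⊤ := by
  have hdeg : (φ.map (algebraMap (𝓞 k) k)).natDegree = φ.natDegree :=
    natDegree_map_eq_of_injective RingOfIntegers.coe_injective φ
  have hn1 : 1 ≤ φ.natDegree := by
    rw [← hdeg]
    exact hφ.natDegree_pos
  obtain ⟨e, he⟩ := IsAlgClosed.exists_aeval_eq_zero (AlgebraicClosure k)
    (φ.map (algebraMap (𝓞 k) k)) (by
      intro h
      have h0 : (φ.map (algebraMap (𝓞 k) k)).natDegree = 0 := natDegree_eq_of_degree_eq_some h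
      omega)
  set M := IntermediateField.adjoin k {e} with hM
  set ε : M := AdjoinSimple.gen k e with hε
  set c : 𝓞 k := φ.leadingCoeff with hc
  have hφ0 : φ ≠ 0 := by
    rintro rfl
    simp at hφ
  have hc0 : (c : k) ≠ 0 := by
    intro h
    exact leadingCoeff_ne_zero.2 hφ0 (RingOfIntegers.ext h)
  have hεφ : aeval ε (φ.map (algebraMap (𝓞 k) k)) = 0 := by
    apply (algebraMap M (AlgebraicClosure k)).injective
    rw [map_zero, ← aeval_algebraMap_apply]
    exact he
  have hint : IsIntegral k e := Algebra.IsIntegral.isIntegral e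
  have hmin : (minpoly k e).natDegree = φ.natDegree := by
    rw [← hdeg, ← minpoly.eq_of_irreducible hφ he,
      natDegree_mul_C (inv_ne_zero (leadingCoeff_ne_zero.2 hφ.ne_zero))]
  have hfr : finrank k M = φ.natDegree := by
    rw [hM, IntermediateField.adjoin.finrank hint, hmin]
  have hθ : IsIntegral ℤ (algebraMap k M (c : k) * ε) := by
    have h1 : IsIntegral (𝓞 k) (φ.leadingCoeff • ε) := by
      refine isIntegral_leadingCoeff_smul φ ε ?_
      rw [← hεφ, aeval_map_algebraMap]
    have h2 : φ.leadingCoeff • ε = algebraMap k M (c : k) * ε := by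
      rw [Algebra.smul_def]
      rfl
    rw [h2] at h1
    have h3 : IsScalarTower ℤ (𝓞 k) M := IsScalarTower.of_algebraMap_eq fun z => by simp
    exact isIntegral_trans _ h1
  have hMnf : NumberField M := AA.instNumberFieldAdjoin k e
  refine ⟨M, inferInstance, hMnf, inferInstance, ε, ⟨_, hθ⟩, hεφ, hfr, rfl, ?_⟩
  have htop : IntermediateField.adjoin k {ε} = (⊤ : IntermediateField k M) := by
    apply IntermediateField.lift_injective (IntermediateField.adjoin k {e})
    rw [IntermediateField.lift_adjoin_simple, IntermediateField.lift_top,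
      AdjoinSimple.coe_gen]
  rw [eq_top_iff, ← htop, IntermediateField.adjoin_simple_le_iff]
  have h1 : algebraMap k M (c : k) * ε ∈
      IntermediateField.adjoin k {algebraMap k M (c : k) * ε} :=
    IntermediateField.mem_adjoin_simple_self k _
  have h2 : algebraMap k M (c : k)⁻¹ ∈
      IntermediateField.adjoin k {algebraMap k M (c : k) * ε} :=
    IntermediateField.algebraMap_mem _ _
  have h3 := mul_mem h2 h1
  rwa [← mul_assoc, ← map_mul, inv_mul_cancel₀ hc0, map_one, one_mul] at h3

end Pool.Agent.OnePt
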