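import Pool.Agent.OnePt.Rare
import Pool.Agent.OnePt.DiscX
import Pool.Agent.SFD.Gen

/-!
# The points over `P^1(k)` of a hyperelliptic curve with a small discriminant
-/

set_option autoImplicit false

open Polynomial NumberField Module Height

namespace Pool.Agent.OnePt

/-- the squarefree part is a lower bound for the discriminant -/
theorem disc_pt (k : Type) [Field k] [NumberField k] (f : (𝓞 k)[X]) (x : k)
    (y : AlgebraicClosure k)
    (hy : y ^ 2 = aeval (algebraMap k (AlgebraicClosure k) x) (f.map (algebraMap (𝓞 k) k)))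
    (h0 : aeval x (f.map (algebraMap (𝓞 k) k)) ≠ 0) (c : Ideal (𝓞 k)) (hc : SqPart f x c) :
    Real.log (Ideal.absNorm c) ≤
      2 * finrank ℚ k * HD.logDiscr (algebraMap k (AlgebraicClosure k) x, y) := by
  have hy' : y ^ 2 = algebraMap k (AlgebraicClosure k) (aeval x (f.map (algebraMap (𝓞 k) k))) := by
    rw [hy, aeval_algebraMap_apply]
  set z : AlgebraicClosure k := algebraMap k (AlgebraicClosure k) x with hz
  have heq : IntermediateField.adjoin k {z, y} = IntermediateField.adjoin k {y} := by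
    refine le_antisymm ?_ (IntermediateField.adjoin.mono k _ _ (by simp))
    rw [IntermediateField.adjoin_le_iff]
    intro w hw
    rcases hw with hw | hw
    · rw [hw]
      exact IntermediateField.algebraMap_mem _ _
    · rw [Set.mem_singleton_iff.1 hw]
      exact IntermediateField.mem_adjoin_simple_self k y
  set K := IntermediateField.adjoin k {z, y} with hK
  have hfr : finrank k K = 1 ∨ finrank k K = 2 := by
    rw [heq]
    exact TW.finrank_sqrt _ y hy'
  have hym : y ∈ K := IntermediateField.subset_adjoin k _ (by simp)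
  set Y : K := ⟨y, hym⟩ with hY
  have hYeq : Y ^ 2 = algebraMap k K (aeval x (f.map (algebraMap (𝓞 k) k))) := by
    apply Subtype.ext
    exact hy'
  obtain ⟨g1, g2⟩ := disc_x k K f x Y hYeq h0 c hc
  have hdisc : HD.logDiscr (z, y) = SST.logDisc K := rfl
  have hpos : 0 ≤ SST.logDisc K := AA.UpperAux.logDisc_nonneg _
  rw [hdisc]
  have hd0 : (0 : ℝ) < finrank ℚ k := Nat.cast_pos.2 finrank_pos
  by_cases hc1 : c = ⊤
  · rw [hc1, Ideal.absNorm_top, Nat.cast_one, Real.log_one]
    positivity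
  · have h2 : finrank k K = 2 := by
      have := g2 hc1
      omega
    have hfin : (finrank ℚ K : ℝ) = finrank ℚ k * 2 := by
      have := finrank_mul_finrank ℚ k K
      rw [h2] at this
      exact_mod_cast this.symm
    have hlog : SST.logDisc K = Real.log |(discr K : ℝ)| / finrank ℚ K := rfl
    rw [hlog, hfin]
    have hD1 : (1 : ℝ) ≤ |(discr k : ℝ)| := by
      have h3 : (1 : ℤ) ≤ |discr k| := Int.one_le_abs (discr_ne_zero k)
      exact_mod_cast h3
    have hcn := norm_pos (od_ne_bot hc)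
    have h4 : Real.log (Ideal.absNorm c) ≤ Real.log |(discr K : ℝ)| := by
      refine Real.log_le_log (by positivity) (le_trans ?_ g1)
      exact le_mul_of_one_le_right (by positivity) (one_le_pow₀ hD1)
    have h5 : 2 * (finrank ℚ k : ℝ) * (Real.log |(discr K : ℝ)| / (finrank ℚ k * 2)) =
        Real.log |(discr K : ℝ)| := by
      field_simp
    rw [h5]
    exact h4

/-- from the abscissas to the points -/
theorem viol_of_rare (k : Type) [Field k] [NumberField k] (f : (𝓞 k)[X])
    (hf : f.map (algebraMap (𝓞 k) k) ≠ 0) (E : ℝ)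
    (hrare : ∀ κ : ℝ, 0 < κ → Rare fun x : k => aeval x (f.map (algebraMap (𝓞 k) k)) ≠ 0 ∧
      ∃ c : Ideal (𝓞 k), SqPart f x c ∧
        Real.log (Ideal.absNorm c) < (E - κ) * logHeight₁ x) (A B : ℝ) (hA : 2 * A < E) :
    ∃ C δ : ℝ, 0 < δ ∧ ∀ T : ℝ, 0 ≤ T →
      {P ∈ SFD.Cov k (f.map (algebraMap (𝓞 k) k)) 2 1 T |
        HD.logDiscr P ≤ A * AA.height P.1 + B}.Finite ∧
      ({P ∈ SFD.Cov k (f.map (algebraMap (𝓞 k) k)) 2 1 T |
        HD.logDiscr P ≤ A * AA.height P.1 + B}.ncard : ℝ) ≤
        C * Real.exp ((2 - δ) * finrank ℚ k * T) := by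
  classical
  set d : ℝ := (finrank ℚ k : ℝ) with hd
  have hd0 : 0 < d := Nat.cast_pos.2 finrank_pos
  set κ : ℝ := (E - 2 * A) / 2 with hκ
  have hκ0 : 0 < κ := by rw [hκ]; linarith
  set g : k[X] := f.map (algebraMap (𝓞 k) k) with hg
  set h₀ : ℝ := 2 * d * B / κ with hh₀
  have hroots : {x : k | aeval x g = 0}.Finite := by
    refine (Finset.finite_toSet g.roots.toFinset).subset ?_
    intro x hx
    rw [Finset.mem_coe, Multiset.mem_toFinset, mem_roots hf]
    exact hx
  have hr := ((rare_finite hroots).or (rare_small h₀)).or (hrare κ hκ0)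
  obtain ⟨C, δ, hC, hδ, h⟩ := hr
  refine ⟨C * 2, δ, hδ, fun T hT => ?_⟩
  have hdT : 0 ≤ d * T := by positivity
  have h1 := h (d * T) hdT
  set R : Set k := {x : k | logHeight₁ x ≤ d * T ∧ ((aeval x g = 0 ∨ logHeight₁ x ≤ h₀) ∨
    aeval x g ≠ 0 ∧ ∃ c : Ideal (𝓞 k), SqPart f x c ∧
        Real.log (Ideal.absNorm c) < (E - κ) * logHeight₁ x)} with hR
  have hRf : R.Finite := (finite_k _).subset fun _ hx => hx.1
  obtain ⟨g1, g2⟩ := SFD.cov_fibre k g 2 1 one_le_two T
    {P ∈ SFD.Cov k g 2 1 T | HD.logDiscr P ≤ A * AA.height P.1 + B} (fun P hP => hP.1)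
    (algebraMap k (AlgebraicClosure k) '' R) (hRf.image _) (by
      rintro ⟨z, y⟩ ⟨⟨hP1, hP2, hP3⟩, hP4⟩
      obtain ⟨x, rfl⟩ := TW.exists_of_finrank_one z hP2
      refine ⟨x, ?_, rfl⟩
      have e1 := height_k x
      have hxT : logHeight₁ x ≤ d * T := by
        rw [← e1]
        exact mul_le_mul_of_nonneg_left hP3 hd0.le
      refine ⟨hxT, ?_⟩
      by_cases hgx : aeval x g = 0
      · exact Or.inl (Or.inl hgx)
      by_cases hxh : logHeight₁ x ≤ h₀
      · exact Or.inl (Or.inr hxh)
      refine Or.inr ⟨hgx, ?_⟩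
      obtain ⟨c, hc⟩ := exists_od (SS.zf f x * RefW.denIdealOf x ^ f.natDegree)
        (mul_ne_zero (zf_ne_bot f x hgx) (pow_ne_zero _ (den_ne_bot x)))
      refine ⟨c, hc, ?_⟩
      have e2 := disc_pt k f x y hP1 hgx c hc
      have e3 : 2 * d * HD.logDiscr (algebraMap k (AlgebraicClosure k) x, y) ≤
          2 * d * (A * AA.height (algebraMap k (AlgebraicClosure k) x) + B) :=
        mul_le_mul_of_nonneg_left hP4 (by positivity)
      have e4 : 2 * d * (A * AA.height (algebraMap k (AlgebraicClosure k) x) + B) =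
          2 * A * (d * AA.height (algebraMap k (AlgebraicClosure k) x)) + 2 * d * B := by ring
      rw [e4, e1] at e3
      rw [not_le, hh₀, div_lt_iff₀ hκ0] at hxh
      have e5 : (E - κ) * logHeight₁ x = 2 * A * logHeight₁ x + κ * logHeight₁ x := by
        rw [hκ]
        ring
      rw [e5]
      have e6 : Real.log (Ideal.absNorm c) ≤
        2 * d * HD.logDiscr (algebraMap k (AlgebraicClosure k) x, y) := e2
      linarith)
  refine ⟨g1, g2.trans ?_⟩
  have e1 : ((algebraMap k (AlgebraicClosure k) '' R).ncard : ℝ) ≤ R.ncard :=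
    (Nat.cast_le (α := ℝ)).2 (Set.ncard_image_le hRf)
  have e2 : (2 - δ) * (d * T) = (2 - δ) * d * T := by ring
  rw [e2] at h1
  calc ((algebraMap k (AlgebraicClosure k) '' R).ncard : ℝ) * ((2 : ℕ) : ℝ) ≤
      (C * Real.exp ((2 - δ) * d * T)) * 2 := by
        push_cast
        linarith
    _ = _ := by ring

end Pool.Agent.OnePt
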